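import Pool.Agent.Q45.OI.P.PE

/-!
# Joint open image: independence of an arbitrary module, towers of extensions
-/

set_option autoImplicit false
set_option linter.all false

open Module
open scoped Classical

namespace Pool.Agent.Q45.OI

open Pool.Agent.Q45.OI.KLA

section nonab

variable {M V : Type} [AddCommGroup M] [Module ℤ_[2] M] [Module.Free ℤ_[2] M]
  [Module.Finite ℤ_[2] M] [AddCommGroup V] [Module (ZMod 2) V] [Module.Finite (ZMod 2) V]
  {κ : M →+ V} {H : Subgroup (End ℤ_[2] M)ˣ} {Γ : Subgroup (V ≃ₗ[ZMod 2] V)}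

theorem exists_off [Finite V] (s : Finset V) (h : s.card < Nat.card V) : ∃ v, v ∉ s := by
  by_contra hcon
  push Not at hcon
  haveI := Fintype.ofFinite V
  rw [Nat.card_eq_fintype_card, ← Finset.card_univ] at h
  exact absurd (Finset.card_le_card fun v (_ : v ∈ Finset.univ) => hcon v) (not_le.2 h)

/-- The skew endomorphisms do not commute. -/
theorem Dat.nonab (lr : Red) (h : Dat M V κ H Γ) (B : M →ₗ[ℤ_[2]] M →ₗ[ℤ_[2]] ℤ_[2]) (hB : B ≠ 0)
    (hsym : ∀ x y, B x y = B y x) (hinv : ∀ g ∈ H, InO B (g : End ℤ_[2] M))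
    (hV : 8 ≤ Nat.card V) : ∃ a ∈ soS B, ∃ b ∈ soS B, a * b ≠ b * a := by
  haveI : Finite V := Module.finite_of_finite (ZMod 2)
  obtain ⟨s, B₁, β, hB₁, hB₁0, hsym₁, hinv₁, hβ, hβs, hβinv, hnd, hcases⟩ := h.form B hB hsym hinv
  have h01 : ∀ c : ZMod 2, c = 0 ∨ c = 1 := by decide
  have hvv : ∀ x : V, x + x = 0 := fun x => by
    rw [← two_smul (ZMod 2) x, show (2 : ZMod 2) = 0 from rfl, zero_smul]
  have heq : ∀ x y : V, x + y = 0 → x = y := by
    intro x y h1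
    calc x = x + (y + y) := by rw [hvv, add_zero]
      _ = (x + y) + y := by rw [add_assoc]
      _ = y := by rw [h1, zero_add]
  obtain ⟨v, hv⟩ := exists_off ({0} : Finset V) (by rw [Finset.card_singleton]; omega)
  rw [Finset.mem_singleton] at hv
  have halt : ∀ v, β v v = 0 := by
    refine hcases.resolve_right fun h1 => ?_
    obtain ⟨w, hw⟩ := exists_off ({0, v} : Finset V) (by
      exact lt_of_le_of_lt Finset.card_le_two (by omega))
    simp only [Finset.mem_insert, Finset.mem_singleton, not_or] at hw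
    have h2 : β v v = 1 := (h01 _).resolve_left fun h3 => hv (h1 v h3)
    have h3 : β w w = 1 := (h01 _).resolve_left fun h3 => hw.1 (h1 w h3)
    have h4 : v + w = 0 := by
      apply h1
      simp only [map_add, LinearMap.add_apply]
      rw [hβs w v, h2, h3]
      rcases h01 (β v w) with h5 | h5 <;> rw [h5] <;> rfl
    exact hw.2 (heq v w h4).symm
  obtain ⟨w, hw0, hwv, hvw⟩ : ∃ w, w ≠ 0 ∧ w ≠ v ∧ β v w = 0 := by
    by_contra hcon
    push Not at hcon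
    have h1 : ∀ w, w ≠ 0 → w ≠ v → β v w = 1 := fun w h2 h3 =>
      (h01 _).resolve_left (hcon w h2 h3)
    obtain ⟨w1, hw1⟩ := exists_off ({0, v} : Finset V) (by
      exact lt_of_le_of_lt Finset.card_le_two (by omega))
    obtain ⟨w2, hw2⟩ := exists_off ({0, v, w1, w1 + v} : Finset V) (by
      refine lt_of_le_of_lt ((Finset.card_insert_le _ _).trans (Nat.succ_le_succ
        ((Finset.card_insert_le _ _).trans (Nat.succ_le_succ (Finset.card_le_two))))) (by omega))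
    simp only [Finset.mem_insert, Finset.mem_singleton, not_or] at hw1 hw2
    obtain ⟨a1, a2⟩ := hw1
    obtain ⟨b1, b2, b3, b4⟩ := hw2
    have h2 := h1 (w1 + w2) (fun h3 => b3 (heq _ _ h3).symm) (fun h3 => b4 (by
      rw [← h3, ← add_assoc, hvv, zero_add]))
    rw [map_add, h1 w1 a1 a2, h1 w2 b1 b2] at h2
    exact absurd h2 (by decide)
  obtain ⟨x, rfl⟩ := h.surj v
  obtain ⟨y, rfl⟩ := h.surj w
  have hks : ∀ (c : ℤ_[2]) (m : M), κ (c • m) = PadicInt.toZMod c • κ m := by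
    intro c m
    rcases h01 (PadicInt.toZMod c) with h1 | h1
    · rw [h1, zero_smul, h.ker]
      obtain ⟨b, hb⟩ := (tz_zero_iff c).1 h1
      exact ⟨b • m, by rw [hb, mul_smul]⟩
    · rw [h1, one_smul, ← sub_eq_zero, ← map_sub, h.ker]
      have h2 : PadicInt.toZMod (c - 1) = (0 : ZMod 2) := by rw [map_sub, h1, map_one, sub_self]
      obtain ⟨b, hb⟩ := (tz_zero_iff _).1 h2
      refine ⟨b • m, ?_⟩
      rw [← mul_smul, ← hb, sub_smul, one_smul]
  let a : End ℤ_[2] M := (B₁.flip x).smulRight y - (B₁.flip y).smulRight x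
  have ha : ∀ m, a m = B₁ m x • y - B₁ m y • x := fun m => rfl
  have haS : a ∈ soS B := by
    rw [soS_smul hB₁]
    intro p q
    rw [ha, ha]
    simp only [map_sub, map_smul, LinearMap.sub_apply, LinearMap.smul_apply, smul_eq_mul]
    rw [hsym₁ p y, hsym₁ p x, hsym₁ x q, hsym₁ y q, hsym₁ x p, hsym₁ y p]
    ring
  obtain ⟨R, hR, -, -, -⟩ := lr M V κ h.surj h.ker
  have hRa : ∀ z, R a z = β z (κ x) • κ y + β z (κ y) • κ x := by
    intro z
    obtain ⟨z, rfl⟩ := h.surj z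
    have h2 : ∀ a b : V, a - b = a + b := by
      intro a b
      rw [sub_eq_add_neg, neg_eq_of_add_eq_zero_left (hvv b)]
    rw [hR, ha, map_sub, hks, hks, ← hβ, ← hβ, h2]
  have hyx : β (κ y) (κ x) = 0 := by rw [hβs]; exact hvw
  have hRR : ∀ z, R a (R a z) = 0 := by
    intro z
    rw [hRa z, map_add, map_smul, map_smul, hRa (κ y), hRa (κ x), halt, halt, hvw, hyx]
    simp only [zero_smul, add_zero, smul_zero]
  let γ : V ≃ₗ[ZMod 2] V :=
    { (1 + R a : End (ZMod 2) V) with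
      invFun := fun z => z + R a z
      left_inv := fun z => by
        show (z + R a z) + R a (z + R a z) = z
        rw [map_add, hRR, add_zero, add_assoc, hvv, add_zero]
      right_inv := fun z => by
        show (z + R a z) + R a (z + R a z) = z
        rw [map_add, hRR, add_zero, add_assoc, hvv, add_zero] }
  have hγ : ∀ z, γ z = z + R a z := fun z => rfl
  have hγ1 : ∃ z, γ z ≠ z := by
    obtain ⟨u, hu⟩ : ∃ u, β u (κ x) = 1 := by
      by_contra h2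
      push Not at h2
      exact hv (hnd (κ x) fun w => by rw [hβs]; exact (h01 _).resolve_right (h2 w))
    refine ⟨u, fun h3 => ?_⟩
    rw [hγ, add_eq_left, hRa, hu, one_smul] at h3
    rcases h01 (β u (κ y)) with h4 | h4
    · rw [h4, zero_smul, add_zero] at h3
      exact hw0 h3
    · rw [h4, one_smul] at h3
      exact hwv (heq _ _ h3)
  obtain ⟨b, hb, m, hm⟩ := h.not_comm B hB hsym hinv hV hγ1
  refine ⟨a, haS, b, hb, fun hab => hm ?_⟩
  have h1 : γ (κ (b m)) = κ (b m + a (b m)) := by rw [hγ, hR, map_add]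
  have h2 : κ (Function.surjInv h.surj (γ (κ m)) - (m + a m)) = 0 := by
    rw [map_sub, Function.surjInv_eq h.surj, hγ, hR, ← map_add, sub_self]
  obtain ⟨c, hc⟩ := (h.ker _).1 h2
  rw [h1, ← sub_eq_zero, ← map_sub, h.ker]
  refine ⟨-b c, ?_⟩
  have h3 : b (a m) = a (b m) := by rw [← End.mul_apply, ← End.mul_apply, hab]
  have h4 : Function.surjInv h.surj (γ (κ m)) = (m + a m) + (2 : ℤ_[2]) • c := by
    rw [← hc]
    abel
  rw [h4, map_add, map_add, map_smul, h3, smul_neg]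
  abel

/-- The span of the commutators of the skew endomorphisms. -/
theorem Dat.perfect (hl : Lems) (h : Dat M V κ H Γ) (B : M →ₗ[ℤ_[2]] M →ₗ[ℤ_[2]] ℤ_[2])
    (hB : B ≠ 0) (hsym : ∀ x y, B x y = B y x) (hinv : ∀ g ∈ H, InO B (g : End ℤ_[2] M))
    (hV : 8 ≤ Nat.card V) {a : End ℤ_[2] M} (ha : a ∈ soS B) : ∃ s : ℕ, (2 : ℤ_[2]) ^ s • a ∈
      Submodule.span ℤ_[2] {c : End ℤ_[2] M | ∃ x ∈ soS B, ∃ y ∈ soS B, c = x * y - y * x} := by
  set D : Submodule ℤ_[2] (End ℤ_[2] M) :=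
    Submodule.span ℤ_[2] {c : End ℤ_[2] M | ∃ x ∈ soS B, ∃ y ∈ soS B, c = x * y - y * x} with hD
  let L : Submodule ℤ_[2] (End ℤ_[2] M) :=
    { carrier := {a | ∃ s : ℕ, (2 : ℤ_[2]) ^ s • a ∈ D}
      add_mem' := by
        rintro a b ⟨s, h⟩ ⟨s', h'⟩
        refine ⟨s + s', ?_⟩
        have h1 : (2 : ℤ_[2]) ^ (s + s') • (a + b) = (2 : ℤ_[2]) ^ s' • (2 : ℤ_[2]) ^ s • a +
            (2 : ℤ_[2]) ^ s • (2 : ℤ_[2]) ^ s' • b := by
          rw [smul_add, smul_smul, smul_smul, pow_add, mul_comm ((2 : ℤ_[2]) ^ s')]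
        rw [h1]
        exact add_mem (D.smul_mem _ h) (D.smul_mem _ h')
      zero_mem' := ⟨0, by rw [smul_zero]; exact zero_mem _⟩
      smul_mem' := by
        rintro c a ⟨s, h⟩
        exact ⟨s, by rw [smul_comm]; exact D.smul_mem _ h⟩ }
  have hLmem : ∀ a, a ∈ L ↔ ∃ s : ℕ, (2 : ℤ_[2]) ^ s • a ∈ D := fun a => Iff.rfl
  have hbr : ∀ x ∈ soS B, ∀ y ∈ soS B, x * y - y * x ∈ soS B := by
    intro x hx y hy p q
    have e1 := hx (y p) q
    have e2 := hy p (x q)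
    have e3 := hy (x p) q
    have e4 := hx p (y q)
    simp only [LinearMap.sub_apply, End.mul_apply, map_sub]
    linear_combination e1 - e2 - e3 + e4
  have hDle : D ≤ soS B := by
    rw [hD, Submodule.span_le]
    rintro _ ⟨x, hx, y, hy, rfl⟩
    exact hbr x hx y hy
  have hconjso : ∀ g ∈ H, ∀ A ∈ soS B,
      (g : End ℤ_[2] M) * A * ((g⁻¹ : (End ℤ_[2] M)ˣ) : End ℤ_[2] M) ∈ soS B := by
    intro g hg A hA x y
    have hgi : ∀ z, (g : End ℤ_[2] M) (((g⁻¹ : (End ℤ_[2] M)ˣ) : End ℤ_[2] M) z) = z := by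
      intro z
      rw [← End.mul_apply, Units.mul_inv]
      rfl
    have h1 := hA (((g⁻¹ : (End ℤ_[2] M)ˣ) : End ℤ_[2] M) x)
      (((g⁻¹ : (End ℤ_[2] M)ˣ) : End ℤ_[2] M) y)
    rw [← hinv g hg (A _) _, ← hinv g hg _ (A _), hgi, hgi] at h1
    exact h1
  have hL : L = soS B := by
    refine stable_all hl.lo hl.lx hl.lr h B hB hsym hinv ?_ ?_ ?_ ?_
    · rintro a ⟨s, h1⟩
      exact ⟨s + 1, by rw [pow_succ, mul_smul]; exact h1⟩
    · intro g hg a ⟨s, h1⟩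
      refine ⟨s, ?_⟩
      have h2 : ∀ c ∈ D, (g : End ℤ_[2] M) * c * ((g⁻¹ : (End ℤ_[2] M)ˣ) : End ℤ_[2] M) ∈ D := by
        intro c hc
        rw [hD] at hc
        induction hc using Submodule.span_induction with
        | mem c hc =>
          obtain ⟨x, hx, y, hy, rfl⟩ := hc
          refine Submodule.subset_span ⟨_, hconjso g hg x hx, _, hconjso g hg y hy, ?_⟩
          have h3 : ∀ x y : End ℤ_[2] M,
              ((g : End ℤ_[2] M) * x * ((g⁻¹ : (End ℤ_[2] M)ˣ) : End ℤ_[2] M)) *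
              ((g : End ℤ_[2] M) * y * ((g⁻¹ : (End ℤ_[2] M)ˣ) : End ℤ_[2] M)) =
              (g : End ℤ_[2] M) * (x * y) * ((g⁻¹ : (End ℤ_[2] M)ˣ) : End ℤ_[2] M) := by
            intro x y
            calc _ = (g : End ℤ_[2] M) * x * ((((g⁻¹ : (End ℤ_[2] M)ˣ) : End ℤ_[2] M) *
                  (g : End ℤ_[2] M)) * y) * ((g⁻¹ : (End ℤ_[2] M)ˣ) : End ℤ_[2] M) := by
                  simp only [mul_assoc]
              _ = _ := by rw [Units.inv_mul, one_mul]; simp only [mul_assoc]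
          rw [h3, h3, mul_sub, sub_mul]
        | zero => rw [mul_zero, zero_mul]; exact zero_mem _
        | add a b _ _ ha hb => rw [mul_add, add_mul]; exact add_mem ha hb
        | smul r a _ ha => rw [mul_smul_comm, smul_mul_assoc]; exact D.smul_mem _ ha
      have h3 := h2 _ h1
      rw [mul_smul_comm, smul_mul_assoc] at h3
      exact h3
    · rintro a ⟨s, h1⟩
      have h2 := hDle h1
      intro x y
      have h3 := h2 x y
      simp only [LinearMap.smul_apply, map_smul, smul_eq_mul] at h3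
      have h4 : (2 : ℤ_[2]) ^ s * (B (a x) y + B x (a y)) = 0 := by linear_combination h3
      exact (mul_eq_zero.1 h4).resolve_left (pow_ne_zero s two_ne)
    · obtain ⟨x, hx, y, hy, hxy⟩ := h.nonab hl.lr B hB hsym hinv hV
      intro h1
      have h2 : x * y - y * x ∈ L := ⟨0, by
        rw [pow_zero, one_smul]
        exact Submodule.subset_span ⟨x, hx, y, hy, rfl⟩⟩
      rw [h1, Submodule.mem_bot, sub_eq_zero] at h2
      exact hxy h2
  rw [← hL] at ha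
  exact ha

end nonab

section indep

variable {M N G : Type} [AddCommGroup M] [Module ℤ_[2] M] [Module.Free ℤ_[2] M]
  [Module.Finite ℤ_[2] M] [AddCommGroup N] [Module ℤ_[2] N] [Module.Free ℤ_[2] N]
  [Module.Finite ℤ_[2] N] [Group G]

/-- The endomorphisms of the sum. -/
noncomputable def dg2 : End ℤ_[2] M × End ℤ_[2] N →* End ℤ_[2] (M × N) where
  toFun p := p.1.prodMap p.2
  map_one' := LinearMap.ext fun x => rfl
  map_mul' _ _ := LinearMap.ext fun x => rfl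

/-- The action on the sum. -/
noncomputable def pr (ρ : G →* (End ℤ_[2] M)ˣ) (ν : G →* (End ℤ_[2] N)ˣ) :
    G →* (End ℤ_[2] (M × N))ˣ :=
  (Units.map (dg2 (M := M) (N := N))).comp (MulEquiv.prodUnits.symm.toMonoidHom.comp (ρ.prod ν))

omit [Module.Free ℤ_[2] M] [Module.Finite ℤ_[2] M] [Module.Free ℤ_[2] N]
  [Module.Finite ℤ_[2] N] in
theorem pr_apply (ρ : G →* (End ℤ_[2] M)ˣ) (ν : G →* (End ℤ_[2] N)ˣ) (T : G) (x : M × N) :
    (pr ρ ν T : End ℤ_[2] (M × N)) x = ((ρ T : End ℤ_[2] M) x.1, (ν T : End ℤ_[2] N) x.2) := rfl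

/-- The group of the pairs. -/
def hull (ν : G →* (End ℤ_[2] N)ˣ) (P : Subgroup G) (G₁ : Subgroup (End ℤ_[2] M)ˣ) :
    Subgroup (End ℤ_[2] (M × N))ˣ where
  carrier := {g | ∃ g₁ ∈ G₁, ∃ g₂ : (End ℤ_[2] N)ˣ,
    (∀ x, (g : End ℤ_[2] (M × N)) x = ((g₁ : End ℤ_[2] M) x.1, (g₂ : End ℤ_[2] N) x.2)) ∧
    ∀ n, ∃ T ∈ P, Cg n (ν T : End ℤ_[2] N) (g₂ : End ℤ_[2] N)}
  mul_mem' := by
    rintro g h ⟨g₁, hg₁, g₂, hg, hg2⟩ ⟨h₁, hh₁, h₂, hh, hh2⟩
    refine ⟨g₁ * h₁, mul_mem hg₁ hh₁, g₂ * h₂, fun x => ?_, fun n => ?_⟩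
    · rw [Units.val_mul, End.mul_apply, hh, hg]
      rfl
    · obtain ⟨T, hT, hT1⟩ := hg2 n
      obtain ⟨S, hS, hS1⟩ := hh2 n
      exact ⟨T * S, mul_mem hT hS, by
        rw [map_mul, Units.val_mul, Units.val_mul]
        exact Cg.mul hT1 hS1⟩
  one_mem' := ⟨1, one_mem _, 1, fun x => rfl, fun n => ⟨1, one_mem _, by
    rw [map_one]
    exact Cg.refl _ _⟩⟩
  inv_mem' := by
    rintro g ⟨g₁, hg₁, g₂, hg, hg2⟩
    refine ⟨g₁⁻¹, inv_mem hg₁, g₂⁻¹, fun x => ?_, fun n => ?_⟩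
    · have h1 : (g : End ℤ_[2] (M × N)) (((g₁⁻¹ : (End ℤ_[2] M)ˣ) : End ℤ_[2] M) x.1,
          ((g₂⁻¹ : (End ℤ_[2] N)ˣ) : End ℤ_[2] N) x.2) = x := by
        rw [hg]
        show ((g₁ : End ℤ_[2] M) (((g₁⁻¹ : (End ℤ_[2] M)ˣ) : End ℤ_[2] M) x.1),
          (g₂ : End ℤ_[2] N) (((g₂⁻¹ : (End ℤ_[2] N)ˣ) : End ℤ_[2] N) x.2)) = x
        rw [← End.mul_apply, ← End.mul_apply, Units.mul_inv, Units.mul_inv]
        rfl
      have h2 := congrArg ((g⁻¹ : (End ℤ_[2] (M × N))ˣ) : End ℤ_[2] (M × N)) h1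
      rw [← End.mul_apply, Units.inv_mul] at h2
      exact h2.symm
    · obtain ⟨T, hT, hT1⟩ := hg2 n
      refine ⟨T⁻¹, inv_mem hT, ?_⟩
      rw [map_inv]
      have h3 := Cg.mul_left (((ν T)⁻¹ : (End ℤ_[2] N)ˣ) : End ℤ_[2] N)
        (Cg.mul_right ((g₂⁻¹ : (End ℤ_[2] N)ˣ) : End ℤ_[2] N) hT1)
      rw [Units.mul_inv, mul_one, ← mul_assoc, Units.inv_mul, one_mul] at h3
      exact Cg.symm h3

/-- **Independence.** If the Lie algebra of the group contains that of `G₁`, on the first block, then the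
closure of the group contains a congruence subgroup of `G₁`, on the first block. -/
theorem indep (ρ : G →* (End ℤ_[2] M)ˣ) (ν : G →* (End ℤ_[2] N)ˣ) (P : Subgroup G)
    (G₁ : Subgroup (End ℤ_[2] M)ˣ) (hρ : ∀ T ∈ P, ρ T ∈ G₁)
    (hL : ∀ a, InLie G₁ a → InLie (P.map (pr ρ ν)) (a.prodMap (0 : End ℤ_[2] N))) :
    ∃ j : ℕ, ∀ α ∈ G₁, Cg j (α : End ℤ_[2] M) 1 →
      ∀ n, ∃ T ∈ P, Cg n (ρ T : End ℤ_[2] M) (α : End ℤ_[2] M) ∧ Cg n (ν T : End ℤ_[2] N) 1 := by
  obtain ⟨K, hK1, hK2, -, -⟩ := lie1 (M × N) (P.map (pr ρ ν))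
  have hle : P.map (pr ρ ν) ≤ hull ν P G₁ := by
    rintro _ ⟨T, hT, rfl⟩
    exact ⟨ρ T, hρ T hT, ν T, fun x => rfl, fun n => ⟨T, hT, Cg.refl _ _⟩⟩
  -- the first block
  have hfst : ∀ A, InLie (hull ν P G₁) A → InLie G₁ (LinearMap.fst ℤ_[2] M N ∘ₗ A ∘ₗ
      LinearMap.inl ℤ_[2] M N) := by
    intro A hA n
    obtain ⟨i, hi, g, ⟨g₁, hg₁, g₂, hg, -⟩, C, hC⟩ := hA n
    refine ⟨i, hi, g₁, hg₁, LinearMap.fst ℤ_[2] M N ∘ₗ C ∘ₗ LinearMap.inl ℤ_[2] M N, ?_⟩
    ext1 x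
    have h1 := congrArg Prod.fst (LinearMap.congr_fun hC (x, 0))
    rw [hg] at h1
    exact h1
  -- the Lie algebra is diagonal
  have hdiag : ∀ A, InLie (hull ν P G₁) A → ∀ x y,
      A (x, y) = ((A (x, 0)).1, (A (0, y)).2) := by
    intro A hA x y
    have h1 := lie_comm (H := hull ν P G₁)
      (E := (LinearMap.inl ℤ_[2] M N ∘ₗ LinearMap.fst ℤ_[2] M N : End ℤ_[2] (M × N))) (by
        rintro g ⟨g₁, hg₁, g₂, hg, -⟩
        refine LinearMap.ext fun x => ?_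
        rw [End.mul_apply, End.mul_apply, LinearMap.comp_apply, LinearMap.comp_apply, hg, hg]
        simp) hA
    have h2 : ∀ z : M × N, A (z.1, 0) = ((A z).1, 0) := fun z => LinearMap.congr_fun h1 z
    have h3 : (x, y) = ((x, 0) : M × N) + (0, y) := by simp
    have h4 := h2 (x, y)
    have h5 := h2 (0, y)
    have h6 : A (x, y) = A (x, 0) + A (0, y) := by rw [← map_add, ← h3]
    have h7 : (A (0, y)).1 = 0 := by
      have h8 := congrArg Prod.fst h5
      have h9 : ((0 : M), (0 : N)) = 0 := rfl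
      rw [h9, map_zero] at h8
      exact h8.symm
    have h8 : (A (x, 0)).2 = 0 := congrArg Prod.snd (h2 (x, 0))
    rw [h6]
    ext
    · rw [Prod.fst_add, h7, add_zero]
    · rw [Prod.snd_add, h8, zero_add]
  obtain ⟨N₀, hN₀, hN₀1⟩ := exists_exp_four (M := M × N)
  obtain ⟨c, m', hm', hN₀2⟩ := Nat.exists_eq_two_pow_mul_odd hN₀.ne'
  have hLie : ∀ A, InLie (hull ν P G₁) A → InLie (P.map (pr ρ ν)) A := by
    intro A hA
    set A₂ : End ℤ_[2] N := LinearMap.snd ℤ_[2] M N ∘ₗ A ∘ₗ LinearMap.inr ℤ_[2] M N with hA₂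
    have hA₂1 : ∀ y, A₂ y = (A (0, y)).2 := fun y => rfl
    have hA0 : ∀ y, A (0, y) = (0, A₂ y) := by
      intro y
      rw [hdiag A hA 0 y, hA₂1]
      have h9 : ((0 : M), (0 : N)) = 0 := rfl
      rw [h9, map_zero]
      rfl
    have hsum : A = (LinearMap.fst ℤ_[2] M N ∘ₗ A ∘ₗ LinearMap.inl ℤ_[2] M N).prodMap
        (0 : End ℤ_[2] N) + (0 : End ℤ_[2] M).prodMap A₂ := by
      refine LinearMap.ext fun x => ?_
      obtain ⟨x, y⟩ := x
      rw [hdiag A hA x y]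
      ext
      · show (A (x, 0)).1 = (A (x, 0)).1 + 0
        rw [add_zero]
      · show (A (0, y)).2 = 0 + (A (0, y)).2
        rw [zero_add]
    rw [hsum]
    refine InLie.add (hL _ (hfst A hA)) ?_
    have hkey : InLie (P.map (pr ρ ν)) ((0 : End ℤ_[2] M).prodMap (N₀ • A₂)) := by
      refine InLie.of_cg fun n => ?_
      obtain ⟨t, ht, g, ⟨g₁, hg₁, g₂, hg, hg2⟩, C, hC⟩ := hA (n + 2)
      obtain ⟨T, hT, hT1⟩ := hg2 (t + (n + 2))
      -- the second block of `T`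
      have h1 : Cg (t + (n + 2)) (ν T : End ℤ_[2] N) (1 + (2 : ℤ_[2]) ^ t • A₂) := by
        refine Cg.trans hT1 ⟨LinearMap.snd ℤ_[2] M N ∘ₗ C ∘ₗ LinearMap.inr ℤ_[2] M N, ?_⟩
        ext1 y
        have h1 := congrArg Prod.snd (LinearMap.congr_fun hC (0, y))
        rw [hg] at h1
        exact h1
      have h2 := cg_pow (by omega : n + 2 ≤ t) h1 N₀
      obtain ⟨D, hD⟩ := h2
      obtain ⟨A', hA'⟩ := hN₀1 (pr ρ ν T)
      have hmem : pr ρ ν T ^ N₀ ∈ P.map (pr ρ ν) :=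
        pow_mem (⟨T, hT, rfl⟩ : pr ρ ν T ∈ P.map (pr ρ ν)) _
      obtain ⟨X, hX, hX2⟩ := lie_log2 hmem hA'
      set E : End ℤ_[2] N := N₀ • A₂ + (2 : ℤ_[2]) ^ (n + 2) • D with hE
      have hA'0 : ∀ y, A' (0, y) = (2 : ℤ_[2]) ^ (t - 2) • ((0 : M), E y) := by
        intro y
        have h3 := LinearMap.congr_fun hA' (0, y)
        rw [← map_pow, pr_apply, map_pow, map_pow] at h3
        have h4 : (((ν T ^ N₀ : (End ℤ_[2] N)ˣ)) : End ℤ_[2] N) y = y + (2 : ℤ_[2]) ^ t • E y := by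
          rw [Units.val_pow_eq_pow_val, hD, hE]
          simp only [LinearMap.add_apply, LinearMap.smul_apply, End.one_apply, smul_add, smul_smul,
            ← pow_add]
          rw [add_assoc]
        apply smul_cancel (n := 2)
        have h5 : (2 : ℤ_[2]) ^ 2 • A' (0, y) = (((ρ T ^ N₀ : (End ℤ_[2] M)ˣ) : End ℤ_[2] M) 0,
            ((ν T ^ N₀ : (End ℤ_[2] N)ˣ) : End ℤ_[2] N) y) - (0, y) := by
          rw [h3, LinearMap.add_apply, End.one_apply, LinearMap.smul_apply, add_sub_cancel_left]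
        rw [h5, h4, map_zero, smul_smul, ← pow_add, show 2 + (t - 2) = t by omega]
        ext
        · simp
        · simp
      have hXd := hle
      have hX' : InLie (hull ν P G₁) X := by
        intro n
        obtain ⟨i, hi, g, hg, h2⟩ := hX n
        exact ⟨i, hi, g, hle hg, h2⟩
      -- the second block of `X`
      have hX0 : InLie (P.map (pr ρ ν)) ((0 : End ℤ_[2] M).prodMap
          (LinearMap.snd ℤ_[2] M N ∘ₗ X ∘ₗ LinearMap.inr ℤ_[2] M N)) := by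
        have h3 := (hK1 _).2 (hL _ (hfst X hX'))
        have h4 := (hK1 _).2 hX
        rw [← hK1]
        have h5 := sub_mem h4 h3
        have h6 : X - (LinearMap.fst ℤ_[2] M N ∘ₗ X ∘ₗ LinearMap.inl ℤ_[2] M N).prodMap
            (0 : End ℤ_[2] N) = (0 : End ℤ_[2] M).prodMap
              (LinearMap.snd ℤ_[2] M N ∘ₗ X ∘ₗ LinearMap.inr ℤ_[2] M N) := by
          refine LinearMap.ext fun x => ?_
          obtain ⟨x, y⟩ := x
          rw [LinearMap.sub_apply, hdiag X hX' x y]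
          ext
          · show (X (x, 0)).1 - (X (x, 0)).1 = 0
            rw [sub_self]
          · show (X (0, y)).2 - 0 = (X (0, y)).2
            rw [sub_zero]
        rwa [h6] at h5
      obtain ⟨W, C', hW⟩ := hX2 (t - 2 + (n + 1))
      have hX2' : ∃ F : End ℤ_[2] N, LinearMap.snd ℤ_[2] M N ∘ₗ X ∘ₗ LinearMap.inr ℤ_[2] M N =
          (2 : ℤ_[2]) ^ (t - 2) • (N₀ • A₂ + (2 : ℤ_[2]) ^ (n + 1) • F) := by
        refine ⟨(2 : ℤ_[2]) • D + (2 : ℤ_[2]) ^ (t - 2 - n) • (LinearMap.snd ℤ_[2] M N ∘ₗ W ∘ₗ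
          LinearMap.inr ℤ_[2] M N ∘ₗ E ∘ₗ E) + LinearMap.snd ℤ_[2] M N ∘ₗ C' ∘ₗ
            LinearMap.inr ℤ_[2] M N, ?_⟩
        ext1 y
        have h3 : X (0, y) = (2 : ℤ_[2]) ^ (t - 2) • ((0 : M), E y) +
            (2 : ℤ_[2]) • (2 : ℤ_[2]) ^ (t - 2) • (2 : ℤ_[2]) ^ (t - 2) • W (0, E (E y)) +
              (2 : ℤ_[2]) ^ (t - 2 + (n + 1)) • C' (0, y) := by
          rw [hW]
          simp only [LinearMap.add_apply, LinearMap.smul_apply, End.mul_apply, hA'0, map_smul]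
        have h4 := congrArg Prod.snd h3
        have h5 : (2 : ℤ_[2]) • (2 : ℤ_[2]) ^ (t - 2) • (2 : ℤ_[2]) ^ (t - 2) • (W (0, E (E y))).2 =
            (2 : ℤ_[2]) ^ (t - 2) • (2 : ℤ_[2]) ^ (n + 1) • (2 : ℤ_[2]) ^ (t - 2 - n) •
              (W (0, E (E y))).2 := by
          rw [smul_smul, smul_smul, smul_smul, smul_smul]
          congr 1
          have h6 : (2 : ℤ_[2]) ^ (t - 2) = 2 ^ n * 2 ^ (t - 2 - n) := by
            rw [← pow_add]
            congr 1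
            omega
          rw [pow_succ (2 : ℤ_[2]) n]
          linear_combination 2 * (2 : ℤ_[2]) ^ (t - 2) * h6
        have h6 : (2 : ℤ_[2]) ^ (t - 2 + (n + 1)) • (C' (0, y)).2 =
            (2 : ℤ_[2]) ^ (t - 2) • (2 : ℤ_[2]) ^ (n + 1) • (C' (0, y)).2 := by
          rw [smul_smul, ← pow_add]
        have h7 : (X (0, y)).2 = (2 : ℤ_[2]) ^ (t - 2) • E y +
            (2 : ℤ_[2]) • (2 : ℤ_[2]) ^ (t - 2) • (2 : ℤ_[2]) ^ (t - 2) • (W (0, E (E y))).2 +
            (2 : ℤ_[2]) ^ (t - 2 + (n + 1)) • (C' (0, y)).2 := h4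
        show (X (0, y)).2 = _
        rw [h7, h5, h6, hE]
        simp only [LinearMap.add_apply, LinearMap.smul_apply, LinearMap.comp_apply,
          LinearMap.inr_apply, LinearMap.snd_apply, smul_add, smul_smul]
        have h8 : (2 : ℤ_[2]) ^ (n + 2) = 2 ^ (n + 1) * 2 := by rw [← pow_succ]
        rw [h8]
        simp only [mul_assoc, add_assoc]
      obtain ⟨F, hF⟩ := hX2'
      rw [hF] at hX0
      have hsat : ∀ (s : ℕ) (Y : End ℤ_[2] N),
          InLie (P.map (pr ρ ν)) ((0 : End ℤ_[2] M).prodMap ((2 : ℤ_[2]) ^ s • Y)) →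
          InLie (P.map (pr ρ ν)) ((0 : End ℤ_[2] M).prodMap Y) := by
        intro s
        induction s with
        | zero => intro Y h3; rwa [pow_zero, one_smul] at h3
        | succ s ih =>
          intro Y h3
          rw [pow_succ, mul_smul] at h3
          have h4 := ih _ h3
          refine InLie.sat ?_
          have h5 : (2 : ℤ_[2]) • ((0 : End ℤ_[2] M).prodMap Y : End ℤ_[2] (M × N)) =
              (0 : End ℤ_[2] M).prodMap ((2 : ℤ_[2]) • Y) := by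
            refine LinearMap.ext fun x => ?_
            ext
            · show (2 : ℤ_[2]) • (0 : M) = 0
              rw [smul_zero]
            · rfl
          rw [h5]
          exact h4
      refine ⟨_, hsat _ _ hX0, (0 : End ℤ_[2] M).prodMap ((2 : ℤ_[2]) • F), ?_⟩
      refine LinearMap.ext fun x => ?_
      obtain ⟨x, y⟩ := x
      ext
      · show (0 : M) = 0 + (2 : ℤ_[2]) ^ n • 0
        rw [smul_zero, add_zero]
      · show (N₀ • A₂ + (2 : ℤ_[2]) ^ (n + 1) • F) y = (N₀ • A₂) y +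
          (2 : ℤ_[2]) ^ n • ((2 : ℤ_[2]) • F) y
        simp only [LinearMap.add_apply, LinearMap.smul_apply, smul_smul, ← pow_succ]
    have h1 : (0 : End ℤ_[2] M).prodMap (N₀ • A₂) =
        (N₀ : ℤ_[2]) • ((0 : End ℤ_[2] M).prodMap A₂ : End ℤ_[2] (M × N)) := by
      refine LinearMap.ext fun x => ?_
      ext
      · show (0 : M) = (N₀ : ℤ_[2]) • 0
        rw [smul_zero]
      · show (N₀ • A₂) x.2 = (N₀ : ℤ_[2]) • A₂ x.2
        rw [Nat.cast_smul_eq_nsmul]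
        rfl
    rw [h1, hN₀2] at hkey
    have hu : IsUnit (m' : ℤ_[2]) := by
      rw [PadicInt.isUnit_iff]
      by_contra hne
      have h2 : ‖(m' : ℤ_[2])‖ < 1 := lt_of_le_of_ne (PadicInt.norm_le_one _) hne
      have h3 := (PadicInt.norm_int_lt_one_iff_dvd (p := 2) (m' : ℤ)).1 (by exact_mod_cast h2)
      have h4 : 2 ∣ m' := by exact_mod_cast h3
      exact (Nat.not_even_iff_odd.2 hm') (even_iff_two_dvd.2 h4)
    obtain ⟨u, hu⟩ := hu
    have h2 := InLie.smul hkey ((u⁻¹ : ℤ_[2]ˣ) : ℤ_[2])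
    rw [Nat.cast_mul, Nat.cast_pow, Nat.cast_ofNat, smul_smul, mul_comm, mul_assoc, ← hu,
      Units.mul_inv, mul_one] at h2
    have hsat : ∀ (s : ℕ) (Y : End ℤ_[2] (M × N)),
        InLie (P.map (pr ρ ν)) ((2 : ℤ_[2]) ^ s • Y) → InLie (P.map (pr ρ ν)) Y := by
      intro s
      induction s with
      | zero => intro Y h3; rwa [pow_zero, one_smul] at h3
      | succ s ih =>
        intro Y h3
        rw [pow_succ, mul_smul] at h3
        exact InLie.sat (ih _ h3)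
    exact hsat c _ h2
  obtain ⟨j, hj⟩ := lie_open hle hLie
  refine ⟨j, fun α hα hα1 n => ?_⟩
  let u : (End ℤ_[2] (M × N))ˣ := Units.map (dg2 (M := M) (N := N)) (MulEquiv.prodUnits.symm (α, 1))
  have hu : ∀ x, (u : End ℤ_[2] (M × N)) x = ((α : End ℤ_[2] M) x.1, x.2) := fun x => rfl
  obtain ⟨_, ⟨T, hT, rfl⟩, h5⟩ := hj u ⟨α, hα, 1, fun x => rfl, fun n => ⟨1, one_mem _, by
      rw [map_one]
      exact Cg.refl _ _⟩⟩ (by
    obtain ⟨C, hC⟩ := hα1
    refine ⟨C.prodMap 0, LinearMap.ext fun x => ?_⟩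
    rw [hu, hC]
    ext
    · rfl
    · show x.2 = x.2 + (2 : ℤ_[2]) ^ j • 0
      rw [smul_zero, add_zero]) n
  obtain ⟨C, hC⟩ := h5
  refine ⟨T, hT, ⟨LinearMap.fst ℤ_[2] M N ∘ₗ C ∘ₗ LinearMap.inl ℤ_[2] M N, ?_⟩,
    ⟨LinearMap.snd ℤ_[2] M N ∘ₗ C ∘ₗ LinearMap.inr ℤ_[2] M N, ?_⟩⟩
  · ext1 x
    exact congrArg Prod.fst (LinearMap.congr_fun hC (x, 0))
  · ext1 y
    exact congrArg Prod.snd (LinearMap.congr_fun hC (0, y))

end indep

section multi

variable {ι : Type} [Fintype ι] {M V : ι → Type} [∀ i, AddCommGroup (M i)]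
  [∀ i, Module ℤ_[2] (M i)] [∀ i, Module.Free ℤ_[2] (M i)] [∀ i, Module.Finite ℤ_[2] (M i)]
  [∀ i, AddCommGroup (V i)] [∀ i, Module (ZMod 2) (V i)] [∀ i, Module.Finite (ZMod 2) (V i)]
  {N : Type} [AddCommGroup N] [Module ℤ_[2] N] [Module.Free ℤ_[2] N] [Module.Finite ℤ_[2] N]
  {G : Type} [Group G]

/-- The data for the theorem on several modules, and a module `N`. -/
structure FamN (ρ : ∀ i, G →* (End ℤ_[2] (M i))ˣ) (ν : G →* (End ℤ_[2] N)ˣ) (κ : ∀ i, M i →+ V i)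
    (act : ∀ i, G →* (V i ≃ₗ[ZMod 2] V i)) (β : ∀ i, M i →ₗ[ℤ_[2]] M i →ₗ[ℤ_[2]] ℤ_[2]) :
    Prop where
  ker : ∀ i m, κ i m = 0 ↔ ∃ m', m = (2 : ℤ_[2]) • m'
  eqv : ∀ i T m, κ i ((ρ i T : End ℤ_[2] (M i)) m) = act i T (κ i m)
  large : ∀ i, IsLarge (act i).range
  card : ∀ i, 8 ≤ Nat.card (V i)
  ind : ∀ i, ∃ T, act i T ^ 3 = 1 ∧ act i T ≠ 1 ∧ (∀ j, j ≠ i → act j T = 1) ∧
    ∀ y, ∃ z, (ν T : End ℤ_[2] N) y - y = (2 : ℤ_[2]) • z
  ne : ∀ i, β i ≠ 0
  symm : ∀ i x y, β i x y = β i y x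
  inv : ∀ i T x y, β i ((ρ i T : End ℤ_[2] (M i)) x) ((ρ i T : End ℤ_[2] (M i)) y) = β i x y
  inf : ∀ i, ∃ T, Cg 2 (ρ i T : End ℤ_[2] (M i)) 1 ∧ ρ i T ≠ 1

/-- The subgroups reached by finitely many steps. -/
inductive Chain : Subgroup G → Prop
  | top : Chain ⊤
  | pow {P Q : Subgroup G} (n : ℕ) : 0 < n → (∀ T ∈ P, T ^ n ∈ Q) → Chain P → Chain Q
  | comm {P Q : Subgroup G} : (∀ S ∈ P, ∀ T ∈ P, S * T * S⁻¹ * T⁻¹ ∈ Q) → Chain P → Chain Q

variable {ρ : ∀ i, G →* (End ℤ_[2] (M i))ˣ} {ν : G →* (End ℤ_[2] N)ˣ} {κ : ∀ i, M i →+ V i}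
  {act : ∀ i, G →* (V i ≃ₗ[ZMod 2] V i)} {β : ∀ i, M i →ₗ[ℤ_[2]] M i →ₗ[ℤ_[2]] ℤ_[2]}

/-- The inclusion of one block. -/
noncomputable def inc2 (N : Type) [AddCommGroup N] [Module ℤ_[2] N] (i : ι) :
    M i →ₗ[ℤ_[2]] (∀ i, M i) × N :=
  LinearMap.inl ℤ_[2] (∀ i, M i) N ∘ₗ LinearMap.single ℤ_[2] M i

/-- The projection to one block. -/
noncomputable def prj2 (N : Type) [AddCommGroup N] [Module ℤ_[2] N] (i : ι) :
    (∀ i, M i) × N →ₗ[ℤ_[2]] M i :=
  LinearMap.proj i ∘ₗ LinearMap.fst ℤ_[2] (∀ i, M i) N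

theorem FamN.blk (h : FamN ρ ν κ act β) (i : ι) :
    Blk (pr (tot ρ) ν) (ρ i) (inc2 N i) (prj2 N i) (κ i) (act i) (β i) := by
  refine ⟨fun m => ?_, fun T m => ?_, fun T x => rfl, h.ker i, h.eqv i, h.large i, h.card i, ?_,
    h.ne i, h.symm i, h.inv i, h.inf i⟩
  · show (Pi.single i m : ∀ i, M i) i = m
    rw [Pi.single_eq_same]
  · show ((tot ρ T : End ℤ_[2] (∀ i, M i)) (Pi.single i m), (ν T : End ℤ_[2] N) 0) =
      ((Pi.single i ((ρ i T : End ℤ_[2] (M i)) m) : ∀ i, M i), (0 : N))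
    rw [tot_val, diag_single, map_zero]
  · obtain ⟨T, h1, h2, h3, h4⟩ := h.ind i
    refine ⟨T, h1, h2, fun x hx => ?_⟩
    have hx' : x.1 i = 0 := hx
    have h5 : ∀ j, ∃ z, (ρ j T : End ℤ_[2] (M j)) (x.1 j) - x.1 j = (2 : ℤ_[2]) • z := by
      intro j
      by_cases hj : j = i
      · subst hj
        exact ⟨0, by rw [hx', map_zero, sub_zero, smul_zero]⟩
      · have h6 : κ j ((ρ j T : End ℤ_[2] (M j)) (x.1 j) - x.1 j) = 0 := by
          rw [map_sub, h.eqv, h3 j hj]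
          exact sub_self _
        exact (h.ker j _).1 h6
    choose z hz using h5
    obtain ⟨w, hw⟩ := h4 x.2
    refine ⟨(z, w), ?_⟩
    ext1
    · funext j
      exact hz j
    · exact hw

theorem ik_mul (i : ι) (a b : End ℤ_[2] (M i)) :
    ik (inc2 N i) (prj2 N i) a * ik (inc2 N i) (prj2 N i) b = ik (inc2 N i) (prj2 N i) (a * b) := by
  refine LinearMap.ext fun x => ?_
  rw [End.mul_apply, ik_apply, ik_apply, ik_apply]
  have h1 : ∀ m : M i, prj2 N i (inc2 N i m) = m := fun m => by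
    show (Pi.single i m : ∀ i, M i) i = m
    rw [Pi.single_eq_same]
  rw [h1]
  rfl

/-- The Lie algebra of the subgroups of a chain. -/
theorem FamN.lie (hl : Lems) (h : FamN ρ ν κ act β) {P : Subgroup G} (hP : Chain P) :
    ∀ i, ∀ a ∈ soS (β i), InLie (P.map (pr (tot ρ) ν)) (ik (inc2 N i) (prj2 N i) a) := by
  induction hP with
  | top =>
    intro i a ha
    have h1 := (h.blk i).lie hl ha
    rwa [MonoidHom.range_eq_map] at h1
  | pow n hn hPQ _ ih =>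
    intro i a ha
    refine lie5 _ _ _ n hn ?_ _ (ih i a ha)
    rintro _ ⟨T, hT, rfl⟩
    exact ⟨T ^ n, hPQ T hT, by rw [map_pow]⟩
  | @comm P Q hPQ _ ih =>
    intro i a ha
    have hinv : ∀ g ∈ (ρ i).range, InO (β i) (g : End ℤ_[2] (M i)) := by
      rintro _ ⟨T, rfl⟩ x y
      exact h.inv i T x y
    obtain ⟨s, hs⟩ := (h.blk i).dat.perfect hl (β i) (h.ne i) (h.symm i) hinv (h.card i) ha
    obtain ⟨K, hK1, hK2, -, -⟩ := lie1 ((∀ i, M i) × N) (Q.map (pr (tot ρ) ν))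
    have hbr : ∀ x ∈ soS (β i), ∀ y ∈ soS (β i), ik (inc2 N i) (prj2 N i) (x * y - y * x) ∈ K := by
      intro x hx y hy
      rw [hK1, map_sub, ← ik_mul, ← ik_mul]
      refine lie_bracket ?_ (ih i x hx) (ih i y hy)
      rintro _ ⟨S, hS, rfl⟩ _ ⟨T, hT, rfl⟩
      exact ⟨S * T * S⁻¹ * T⁻¹, hPQ S hS T hT, by simp only [map_mul, map_inv]⟩
    have hspan : ∀ c ∈ Submodule.span ℤ_[2] {c : End ℤ_[2] (M i) | ∃ x ∈ soS (β i),
        ∃ y ∈ soS (β i), c = x * y - y * x}, ik (inc2 N i) (prj2 N i) c ∈ K := by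
      intro c hc
      induction hc using Submodule.span_induction with
      | mem c hc =>
        obtain ⟨x, hx, y, hy, rfl⟩ := hc
        exact hbr x hx y hy
      | zero => rw [map_zero]; exact zero_mem _
      | add a b _ _ ha hb => rw [map_add]; exact add_mem ha hb
      | smul r a _ ha => rw [map_smul]; exact K.smul_mem _ ha
    have h1 := hspan _ hs
    rw [map_smul] at h1
    have hsat : ∀ (s : ℕ) (Y : End ℤ_[2] ((∀ i, M i) × N)), (2 : ℤ_[2]) ^ s • Y ∈ K → Y ∈ K := by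
      intro s
      induction s with
      | zero => intro Y h3; rwa [pow_zero, one_smul] at h3
      | succ s ih =>
        intro Y h3
        rw [pow_succ, mul_smul] at h3
        exact hK2 _ (ih _ h3)
    exact (hK1 _).1 (hsat s _ h1)

/-- **Joint open image, independently of the module `N`.** -/
theorem FamN.joint (hl : Lems) (h : FamN ρ ν κ act β) {P : Subgroup G} (hP : Chain P) :
    ∃ j : ℕ, ∀ α : ∀ i, M i ≃ₗ[ℤ_[2]] M i, (∀ i x y, β i (α i x) (α i y) = β i x y) →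
        (∀ i m, ∃ m', α i m - m = (2 : ℤ_[2]) ^ j • m') →
        ∀ n, ∃ T ∈ P, (∀ i m, ∃ m', (ρ i T : End ℤ_[2] (M i)) m - α i m = (2 : ℤ_[2]) ^ n • m') ∧
          ∀ y, ∃ z, (ν T : End ℤ_[2] N) y - y = (2 : ℤ_[2]) ^ n • z := by
  obtain ⟨K, hK1, hK2, -, -⟩ := lie1 ((∀ i, M i) × N) (P.map (pr (tot ρ) ν))
  obtain ⟨j, hj⟩ := indep (tot ρ) ν P (diagO β) (by
    intro T _
    refine ⟨fun i => ?_, fun i x y => ?_⟩
    · rw [tot_val]
      exact diag_pj _ i
    · rw [tot_val, diag_apply, diag_apply]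
      exact h.inv i T _ _) (by
    intro a ha
    obtain ⟨hAd, hAb⟩ := lie_diagO ha
    have h1 : a.prodMap (0 : End ℤ_[2] N) = ∑ i, ik (inc2 N i) (prj2 N i) (Pool.Agent.Q45.OI.blk i a) := by
      have h2 : a = ∑ i, Pool.Agent.Q45.OI.incl i (Pool.Agent.Q45.OI.blk i a) := by
        rw [Finset.sum_congr rfl fun i _ => incl_blk (hAd i), ← Finset.mul_sum, sum_pj, mul_one]
      refine LinearMap.ext fun x => ?_
      have h3 := LinearMap.congr_fun h2 x.1
      rw [LinearMap.sum_apply] at h3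
      rw [LinearMap.sum_apply]
      ext1
      · rw [Prod.fst_sum]
        exact h3
      · rw [Prod.snd_sum]
        show (0 : N) = ∑ i : ι, (0 : N)
        rw [Finset.sum_const_zero]
    rw [h1, ← hK1]
    exact sum_mem fun i _ => (hK1 _).2 (h.lie hl hP i _ (hAb i)))
  refine ⟨j, fun α hα hα1 n => ?_⟩
  let u : ∀ i, (End ℤ_[2] (M i))ˣ := fun i =>
    (LinearMap.GeneralLinearGroup.generalLinearEquiv ℤ_[2] _).symm (α i)
  let U : (End ℤ_[2] (∀ i, M i))ˣ := Units.map (diag (M := M)) (MulEquiv.piUnits.symm u)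
  have hU : (U : End ℤ_[2] (∀ i, M i)) = diag fun i => (u i : End ℤ_[2] (M i)) := rfl
  have hu : ∀ i m, (u i : End ℤ_[2] (M i)) m = α i m := fun i m => rfl
  obtain ⟨T, hT, h5, h6⟩ := hj U ⟨fun i => by rw [hU]; exact diag_pj _ i, fun i x y => by
      rw [hU, diag_apply, diag_apply, hu, hu]
      exact hα i _ _⟩ ((cg_iff _ _ _).2 fun x => by
        choose b hb using hα1
        refine ⟨fun i => b i (x i), ?_⟩
        funext i
        exact hb i (x i)) n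
  refine ⟨T, hT, fun i m => ?_, (cg_iff _ _ _).1 h6⟩
  obtain ⟨b, hb⟩ := (cg_iff _ _ _).1 h5 (Pi.single i m)
  refine ⟨b i, ?_⟩
  have h6 := congrFun hb i
  rw [tot_val, hU, diag_single, diag_single, Pi.sub_apply, Pi.single_eq_same, Pi.single_eq_same,
    Pi.smul_apply] at h6
  exact h6

end multi

end Pool.Agent.Q45.OI
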