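import Pool.Agent.Q45.OI.P.PD
import Pool.Agent.Q45.OI.P.PF

/-!
# Joint open image: finite extensions and multilinear maps
-/

set_option autoImplicit false
set_option linter.all false

open Module
open scoped Classical

namespace Pool.Agent.Q45.OI

section fin

variable {k k' : Type} [Field k] [Field k'] [Algebra k k'] [IsSepClosed k'] [Algebra.IsSeparable k k']

/-- A power of all the automorphisms of `k'` fixes a finite extension. -/
theorem exists_exp_gal (E : IntermediateField k k') [FiniteDimensional k E] :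
    ∃ N : ℕ, 0 < N ∧ ∀ σ : k' ≃ₐ[k] k', σ ^ N ∈ E.fixingSubgroup := by
  have hcl : IsSepClosure k k' := ⟨inferInstance, inferInstance⟩
  haveI : IsGalois k k' := hcl.isGalois
  let E' : IntermediateField k k' := IntermediateField.normalClosure k E k'
  haveI : Normal k E' := inferInstance
  haveI : FiniteDimensional k E' := inferInstance
  have hle : E ≤ E' := IntermediateField.le_normalClosure E
  haveI : Finite (E' ≃ₐ[k] E') := inferInstance
  refine ⟨Nat.card (E' ≃ₐ[k] E'), Nat.card_pos, fun τ => ?_⟩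
  rw [IntermediateField.mem_fixingSubgroup_iff]
  intro x hx
  set N := Nat.card (E' ≃ₐ[k] E') with hN
  have h1 : AlgEquiv.restrictNormalHom E' (τ ^ N) = 1 := by rw [map_pow, hN, pow_card_eq_one']
  have h2 := AlgEquiv.restrictNormal_commutes (τ ^ N) E' ⟨x, hle hx⟩
  have h3 : AlgEquiv.restrictNormal (τ ^ N) E' = 1 := h1
  rw [h3] at h2
  exact h2.symm

end fin

section mult

variable {R : Type} [CommRing R] {n : ℕ} {M : Fin n → Type} [∀ i, AddCommGroup (M i)]
  [∀ i, Module R (M i)] {N : Type} [AddCommGroup N] [Module R N]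

/-- The values of a multilinear map at congruent arguments are congruent. -/
theorem mult_cg (Φ : MultilinearMap R M N) (c : R) (x y : ∀ i, M i)
    (h : ∀ i, ∃ z, x i - y i = c • z) : ∃ z, Φ x - Φ y = c • z := by
  choose w hw using h
  have key : ∀ S : Finset (Fin n), ∃ z, Φ (S.piecewise x y) - Φ y = c • z := by
    intro S
    induction S using Finset.induction_on with
    | empty =>
      refine ⟨0, ?_⟩
      rw [Finset.piecewise_empty, sub_self, smul_zero]
    | insert a S ha ih =>
      obtain ⟨z, hz⟩ := ih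
      refine ⟨Φ (Function.update (S.piecewise x y) a (w a)) + z, ?_⟩
      rw [smul_add, ← hz, ← Φ.map_update_smul, ← hw, Φ.map_update_sub, Finset.piecewise_insert]
      have h1 : Function.update (S.piecewise x y) a (y a) = S.piecewise x y := by
        rw [Function.update_eq_self_iff, Finset.piecewise_eq_of_notMem _ _ _ ha]
      rw [h1]
      abel
  obtain ⟨z, hz⟩ := key Finset.univ
  exact ⟨z, by rwa [Finset.piecewise_univ] at hz⟩

end mult

section inv

variable {ι N : Type} {M : ι → Type} [∀ i, AddCommGroup (M i)] [∀ i, Module ℤ_[2] (M i)]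
  [AddCommGroup N] [Module ℤ_[2] N] [Module.Finite ℤ_[2] N] [Module.Free ℤ_[2] N]

/-- The tensors are fixed by the limits of the elements which act trivially on `N`. -/
theorem fix_of_approx {n : ℕ} (c : Fin n → ι) (Φ : MultilinearMap ℤ_[2] (fun s => M (c s)) N)
    (α : ∀ i, M i → M i) (x : ∀ s, M (c s))
    (h : ∀ m : ℕ, ∃ (φ : ∀ i, M i → M i) (ν : N → N),
      (∀ i y, ∃ z, φ i y - α i y = (2 : ℤ_[2]) ^ m • z) ∧
      (∀ y, ∃ z, ν y - y = (2 : ℤ_[2]) ^ m • z) ∧
      Φ (fun s => φ (c s) (x s)) = ν (Φ x)) :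
    Φ (fun s => α (c s) (x s)) = Φ x := by
  rw [← sub_eq_zero]
  refine zero_of_div fun m => ?_
  obtain ⟨φ, ν, h1, h2, h3⟩ := h m
  obtain ⟨z, hz⟩ := mult_cg Φ ((2 : ℤ_[2]) ^ m) (fun s => φ (c s) (x s)) (fun s => α (c s) (x s))
    (fun s => h1 (c s) (x s))
  obtain ⟨w, hw⟩ := h2 (Φ x)
  rw [h3] at hz
  refine ⟨w - z, ?_⟩
  rw [smul_sub, ← hw, ← hz]
  abel

end inv

end Pool.Agent.Q45.OI
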