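import Pool.Agent.Q45.OI.Main

/-!
# Joint open image: stable submodules of the skew endomorphisms
-/

set_option autoImplicit false
set_option linter.all false

open Module
open scoped Classical

namespace Pool.Agent.Q45.OI

section main

variable {M V : Type} [AddCommGroup M] [Module ℤ_[2] M] [Module.Free ℤ_[2] M]
  [Module.Finite ℤ_[2] M] [AddCommGroup V] [Module (ZMod 2) V] [Module.Finite (ZMod 2) V]
  {κ : M →+ V} {H : Subgroup (End ℤ_[2] M)ˣ} {Γ : Subgroup (V ≃ₗ[ZMod 2] V)}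

omit [Module.Free ℤ_[2] M] [Module.Finite ℤ_[2] M] in
theorem soS_smul {B B₁ : M →ₗ[ℤ_[2]] M →ₗ[ℤ_[2]] ℤ_[2]} {n : ℕ}
    (hB : B = (2 : ℤ_[2]) ^ n • B₁) : soS B = soS B₁ := by
  subst hB
  ext A
  rw [mem_soS, mem_soS]
  constructor
  · intro h x y
    have h1 := h x y
    simp only [LinearMap.smul_apply, smul_eq_mul] at h1
    have h2 : (2 : ℤ_[2]) ^ n * (B₁ (A x) y + B₁ x (A y)) = 0 := by linear_combination h1
    exact (mul_eq_zero.1 h2).resolve_left (pow_ne_zero n two_ne)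
  · intro h x y
    have h1 := h x y
    simp only [LinearMap.smul_apply, smul_eq_mul]
    linear_combination (2 : ℤ_[2]) ^ n * h1

/-- The primitive form and its reduction. -/
theorem Dat.form (h : Dat M V κ H Γ) (B : M →ₗ[ℤ_[2]] M →ₗ[ℤ_[2]] ℤ_[2]) (hB : B ≠ 0)
    (hsym : ∀ x y, B x y = B y x) (hinv : ∀ g ∈ H, InO B (g : End ℤ_[2] M)) :
    ∃ (s : ℕ) (B₁ : M →ₗ[ℤ_[2]] M →ₗ[ℤ_[2]] ℤ_[2]) (β : V →ₗ[ZMod 2] V →ₗ[ZMod 2] ZMod 2),
      B = (2 : ℤ_[2]) ^ s • B₁ ∧ B₁ ≠ 0 ∧ (∀ x y, B₁ x y = B₁ y x) ∧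
      (∀ g ∈ H, InO B₁ (g : End ℤ_[2] M)) ∧ (∀ x y, β (κ x) (κ y) = PadicInt.toZMod (B₁ x y)) ∧
      (∀ v w, β v w = β w v) ∧ (∀ E ∈ Γ, ∀ v w, β (E v) (E w) = β v w) ∧
      (∀ v, (∀ w, β v w = 0) → v = 0) ∧ ((∀ v, β v v = 0) ∨ ∀ v, β v v = 0 → v = 0) := by
  obtain ⟨s, B₁, hB₁, hprim⟩ := exists_prim (N := M →ₗ[ℤ_[2]] M →ₗ[ℤ_[2]] ℤ_[2]) (a := B) hB
  have hsym₁ : ∀ x y, B₁ x y = B₁ y x := by
    intro x y
    have h1 := hsym x y
    rw [hB₁] at h1
    simp only [LinearMap.smul_apply, smul_eq_mul] at h1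
    exact mul_left_cancel₀ (pow_ne_zero s two_ne) h1
  have hinv₁ : ∀ g ∈ H, InO B₁ (g : End ℤ_[2] M) := fun g hg => (inO_smul hB₁ _).1 (hinv g hg)
  have hB₁0 : B₁ ≠ 0 := by
    rintro rfl
    exact hprim ⟨0, by rw [smul_zero]⟩
  obtain ⟨β, hβ⟩ := exists_beta h.surj h.ker B₁
  have hβs : ∀ v w, β v w = β w v := by
    intro v w
    obtain ⟨x, rfl⟩ := h.surj v
    obtain ⟨y, rfl⟩ := h.surj w
    rw [hβ, hβ, hsym₁]
  have hβ0 : β ≠ 0 := by
    rintro rfl
    apply hprim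
    have h1 : ∀ x y, ∃ b, B₁ x y = 2 * b := by
      intro x y
      rw [← tz_zero_iff, ← hβ]
      rfl
    set bs := Module.Free.chooseBasis ℤ_[2] M
    choose f hf using h1
    refine ⟨bs.constr ℤ_[2] fun i => bs.constr ℤ_[2] fun j => f (bs i) (bs j), ?_⟩
    refine bs.ext fun i => bs.ext fun j => ?_
    rw [LinearMap.smul_apply, LinearMap.smul_apply, Basis.constr_basis, Basis.constr_basis, hf,
      smul_eq_mul]
  have hβinv : ∀ E ∈ Γ, ∀ v w, β (E v) (E w) = β v w := by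
    intro E hE v w
    obtain ⟨g, hg, h1⟩ := h.ofG E hE
    obtain ⟨x, rfl⟩ := h.surj v
    obtain ⟨y, rfl⟩ := h.surj w
    rw [← h1, ← h1, hβ, hβ, hinv₁ g hg x y]
  obtain ⟨hnd, hcases⟩ := beta_cases h.surj Γ h.large.irr β hβs hβ0 hβinv
  exact ⟨s, B₁, β, hB₁, hB₁0, hsym₁, hinv₁, hβ, hβs, hβinv, hnd, hcases⟩

/-- A stable saturated submodule of the skew endomorphisms is zero or everything. -/
theorem stable_all (lo : Orth) (lx : LemX) (lr : Red) (h : Dat M V κ H Γ)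
    (B : M →ₗ[ℤ_[2]] M →ₗ[ℤ_[2]] ℤ_[2]) (hB : B ≠ 0)
    (hsym : ∀ x y, B x y = B y x) (hinv : ∀ g ∈ H, InO B (g : End ℤ_[2] M))
    {L : Submodule ℤ_[2] (End ℤ_[2] M)} (hLsat : ∀ A, (2 : ℤ_[2]) • A ∈ L → A ∈ L)
    (hLconj : ∀ g ∈ H, ∀ A ∈ L,
      (g : End ℤ_[2] M) * A * ((g⁻¹ : (End ℤ_[2] M)ˣ) : End ℤ_[2] M) ∈ L)
    (hLso' : L ≤ soS B) (hL0 : L ≠ ⊥) : L = soS B := by
  obtain ⟨R, hR, hRs, hR0, hRL⟩ := lr M V κ h.surj h.ker
  obtain ⟨s, B₁, β, hB₁, hB₁0, hsym₁, hinv₁, hβ, hβs, hβinv, hnd, hcases⟩ := h.form B hB hsym hinv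
  have hsoeq : soS B = soS B₁ := soS_smul hB₁
  rw [hsoeq] at hLso' ⊢
  have hLso : L ≤ soS B₁ := hLso'
  -- the skew endomorphisms modulo two
  have hskew : ∀ A, InSo B₁ A → ∀ v, β (R A v) v = 0 := by
    intro A hA v
    obtain ⟨x, rfl⟩ := h.surj v
    rw [hR, hβ]
    have h1 := hA x x
    rw [hsym₁ x (A x)] at h1
    have h2 : (2 : ℤ_[2]) * B₁ (A x) x = 0 := by linear_combination h1
    rw [(mul_eq_zero.1 h2).resolve_left two_ne, map_zero]
  have hline : ∀ A₀ : End ℤ_[2] M, InSo B₁ A₀ → (∀ g ∈ H, ∃ c : ℤ_[2],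
      (g : End ℤ_[2] M) * A₀ * ((g⁻¹ : (End ℤ_[2] M)ˣ) : End ℤ_[2] M) = c • A₀) → A₀ = 0 :=
    lx M H B₁ hB₁0 (h.scal hR hR0)
  obtain ⟨U, hU, hUf⟩ := hRL L hLsat
  obtain ⟨US, hUS, hUSf⟩ := hRL (soS B₁) soS_sat
  have halt : ∀ v, β v v = 0 := by
    refine hcases.resolve_right fun h1 => hL0 ?_
    rw [eq_bot_iff]
    intro A hA
    rw [Submodule.mem_bot]
    by_contra hne
    obtain ⟨n, A₁, hA₁, h2⟩ := exists_prim hne
    have h3 : InSo B₁ A₁ := by
      have h4 := hLso hA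
      intro x y
      have h5 := h4 x y
      rw [hA₁] at h5
      simp only [LinearMap.smul_apply, map_smul, smul_eq_mul] at h5
      have h6 : (2 : ℤ_[2]) ^ n * (B₁ (A₁ x) y + B₁ x (A₁ y)) = 0 := by linear_combination h5
      exact (mul_eq_zero.1 h6).resolve_left (pow_ne_zero n two_ne)
    exact h2 ((hR0 A₁).1 (skew_zero β hβs h1 (R A₁) (hskew A₁ h3)))
  have hUle : U ≤ skewEnd β := by
    intro X hX v
    obtain ⟨A, hA, rfl⟩ := (hU X).1 hX
    exact hskew A (hLso hA) v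
  have hUSle : US ≤ skewEnd β := by
    intro X hX v
    obtain ⟨A, hA, rfl⟩ := (hUS X).1 hX
    exact hskew A hA v
  have hconj : ∀ g : (End ℤ_[2] M)ˣ, InO B₁ (g : End ℤ_[2] M) → ∀ A, InSo B₁ A →
      InSo B₁ ((g : End ℤ_[2] M) * A * ((g⁻¹ : (End ℤ_[2] M)ˣ) : End ℤ_[2] M)) := by
    intro g hg A hA x y
    have hgi : ∀ z, (g : End ℤ_[2] M) (((g⁻¹ : (End ℤ_[2] M)ˣ) : End ℤ_[2] M) z) = z := by
      intro z
      rw [← End.mul_apply, Units.mul_inv]
      rfl
    have h1 := hA (((g⁻¹ : (End ℤ_[2] M)ˣ) : End ℤ_[2] M) x)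
      (((g⁻¹ : (End ℤ_[2] M)ˣ) : End ℤ_[2] M) y)
    rw [← hg (A _) _, ← hg _ (A _), hgi, hgi] at h1
    exact h1
  rcases h.large.skew β halt hnd hβinv U hUle (by
    intro E hE X hX X' hX'
    obtain ⟨g, hg, h1⟩ := h.ofG E hE
    obtain ⟨A, hA, rfl⟩ := (hU X).1 hX
    rw [hU]
    refine ⟨_, hLconj g hg A hA, ?_⟩
    have h2 : ∀ w, R ((g : End ℤ_[2] M) * A * ((g⁻¹ : (End ℤ_[2] M)ˣ) : End ℤ_[2] M)) (E w) =
        E (R A w) := by
      intro w
      obtain ⟨m, rfl⟩ := h.surj w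
      rw [← h1, hR, hR, ← h1, End.mul_apply, End.mul_apply, ← End.mul_apply
        ((g⁻¹ : (End ℤ_[2] M)ˣ) : End ℤ_[2] M), Units.inv_mul]
      rfl
    ext v
    have h3 := h2 (E.symm v)
    rw [LinearEquiv.apply_symm_apply] at h3
    rw [h3, ← hX', LinearEquiv.apply_symm_apply]) with h1 | h1
  · exfalso
    obtain ⟨A₀, hA₀, h2, h3⟩ := finrank_le_one hUf h1 hL0 hLsat
    exact h2 (hline A₀ (hLso hA₀) fun g hg => h3 _ (hLconj g hg A₀ hA₀))
  · by_contra hne
    have h2 : finrank ℤ_[2] (soS B₁) ≤ finrank ℤ_[2] L + 1 := by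
      rw [← hUSf, ← hUf]
      exact (Submodule.finrank_mono hUSle).trans h1
    have hnd₁ : ∀ x, (∀ y, B₁ x y = 0) → x = 0 := by
      intro x hx
      by_contra hx0
      obtain ⟨n, x₁, hx₁, h3⟩ := exists_prim hx0
      apply h3
      rw [← h.ker]
      apply hnd
      intro w
      obtain ⟨y, rfl⟩ := h.surj w
      have h4 := hx y
      rw [hx₁, map_smul, LinearMap.smul_apply, smul_eq_mul] at h4
      rw [hβ, (mul_eq_zero.1 h4).resolve_left (pow_ne_zero n two_ne), map_zero]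
    obtain ⟨A₀, h3, h4, h5, h6⟩ := lo M B₁ hsym₁ hnd₁ (soS B₁) L (fun A => mem_soS) hLso hne
      hLsat h2
    refine h3 (hline A₀ h4 fun g hg => h6 _ (hconj g (hinv₁ g hg) A₀ h4) fun A' hA' => ?_)
    have h7 := h5 _ (hLconj g⁻¹ (inv_mem hg) A' hA')
    rw [inv_inv] at h7
    rw [mul_assoc, mul_assoc, LinearMap.trace_mul_comm, ← h7]
    congr 1

/-- An automorphism of `V` different from `1` does not commute with all the reductions of the skew
endomorphisms. -/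
theorem Dat.not_comm (h : Dat M V κ H Γ) (B : M →ₗ[ℤ_[2]] M →ₗ[ℤ_[2]] ℤ_[2]) (hB : B ≠ 0)
    (hsym : ∀ x y, B x y = B y x) (hinv : ∀ g ∈ H, InO B (g : End ℤ_[2] M))
    (hV : 8 ≤ Nat.card V) {γ : V ≃ₗ[ZMod 2] V} (hγ : ∃ v, γ v ≠ v) :
    ∃ a ∈ soS B, ∃ m, γ (κ (a m)) ≠ κ (a ((Function.surjInv h.surj) (γ (κ m)))) := by
  obtain ⟨s, B₁, β, hB₁, hB₁0, hsym₁, hinv₁, hβ, hβs, hβinv, hnd, hcases⟩ := h.form B hB hsym hinv
  rw [soS_smul hB₁]
  set σ := Function.surjInv h.surj with hσ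
  have hσ1 : ∀ v, κ (σ v) = v := Function.surjInv_eq h.surj
  by_contra hcon
  push Not at hcon
  have hss : ∀ c : ZMod 2, c + c = 0 := by decide
  have h01 : ∀ c : ZMod 2, c = 0 ∨ c = 1 := by decide
  have hneg : ∀ c : ZMod 2, -c = c := by decide
  -- the smul
  have hks : ∀ (c : ℤ_[2]) (m : M), κ (c • m) = PadicInt.toZMod c • κ m := by
    intro c m
    rcases h01 (PadicInt.toZMod c) with h1 | h1
    · rw [h1, zero_smul, h.ker]
      obtain ⟨b, hb⟩ := (tz_zero_iff c).1 h1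
      exact ⟨b • m, by rw [hb, mul_smul]⟩
    · rw [h1, one_smul, ← sub_eq_zero, ← map_sub, h.ker]
      have h2 : PadicInt.toZMod (c - 1) = (0 : ZMod 2) := by rw [map_sub, h1, map_one, sub_self]
      obtain ⟨b, hb⟩ := (tz_zero_iff _).1 h2
      refine ⟨b • m, ?_⟩
      rw [← mul_smul, ← hb, sub_smul, one_smul]
  have key : ∀ z v w : V, β (γ z) v • w + β (γ z) w • v = β z v • γ w + β z w • γ v := by
    intro z v w
    obtain ⟨z, rfl⟩ := h.surj z
    obtain ⟨v, rfl⟩ := h.surj v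
    obtain ⟨w, rfl⟩ := h.surj w
    let a : End ℤ_[2] M := (B₁.flip v).smulRight w - (B₁.flip w).smulRight v
    have ha : ∀ m, a m = B₁ m v • w - B₁ m w • v := fun m => rfl
    have haS : a ∈ soS B₁ := by
      intro x y
      rw [ha, ha]
      simp only [map_sub, map_smul, LinearMap.sub_apply, LinearMap.smul_apply, smul_eq_mul]
      rw [hsym₁ x w, hsym₁ x v, hsym₁ v y, hsym₁ w y, hsym₁ v x, hsym₁ w x]
      ring
    have h1 := hcon a haS z
    simp only [ha, map_sub, hks, ← hβ, hσ1, map_smul] at h1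
    have h2 : ∀ a b : V, a - b = a + b := by
      intro a b
      have : b + b = 0 := by rw [← two_smul (ZMod 2) b, show (2 : ZMod 2) = 0 from rfl, zero_smul]
      rw [sub_eq_add_neg, neg_eq_of_add_eq_zero_left this]
    rw [h2, h2] at h1
    exact h1.symm
  obtain ⟨x, hx⟩ := hγ
  set y := γ x with hy
  have hx0 : x ≠ 0 := by
    rintro rfl
    exact hx (by rw [hy, map_zero])
  have hy0 : y ≠ 0 := by
    intro h1
    rw [hy] at h1
    exact hx0 (γ.map_eq_zero_iff.1 h1)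
  -- a vector off the plane
  obtain ⟨v, hv⟩ : ∃ v : V, v ∉ ({0, x, y, x + y} : Finset V) := by
    by_contra hcon2
    push Not at hcon2
    have h1 : Nat.card V ≤ 4 := by
      haveI : Finite V := Module.finite_of_finite (ZMod 2)
      haveI := Fintype.ofFinite V
      rw [Nat.card_eq_fintype_card, ← Finset.card_univ]
      refine (Finset.card_le_card (t := ({0, x, y, x + y} : Finset V)) fun v _ => hcon2 v).trans ?_
      exact (Finset.card_insert_le _ _).trans (Nat.succ_le_succ ((Finset.card_insert_le _ _).trans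
        (Nat.succ_le_succ (Finset.card_le_two))))
    omega
  simp only [Finset.mem_insert, Finset.mem_singleton, not_or] at hv
  obtain ⟨hv0, hvx, hvy, hvxy⟩ := hv
  -- a vector orthogonal to x and not to v
  obtain ⟨z, hz1, hz2⟩ : ∃ z, β z x = 0 ∧ β z v = 1 := by
    by_contra hcon2
    push Not at hcon2
    have h1 : ∀ z, β z x = 0 → β z v = 0 := fun z hz => (h01 _).resolve_right (hcon2 z hz)
    obtain ⟨u, hu⟩ : ∃ u, β u x = 1 := by
      by_contra h2
      push Not at h2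
      exact hx0 (hnd x fun w => by rw [hβs]; exact (h01 _).resolve_right (h2 w))
    rcases h01 (β u v) with h3 | h3
    · refine hv0 (hnd v fun w => ?_)
      rw [hβs]
      rcases h01 (β w x) with h4 | h4
      · exact h1 w h4
      · have h5 := h1 (w + u) (by rw [map_add, LinearMap.add_apply, h4, hu]; rfl)
        rw [map_add, LinearMap.add_apply, h3, add_zero] at h5
        exact h5
    · apply hvx
      have h6 : v + x = 0 := by
        refine hnd _ fun w => ?_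
        rw [hβs, map_add]
        rcases h01 (β w x) with h4 | h4
        · rw [h4, h1 w h4, add_zero]
        · have h5 := h1 (w + u) (by rw [map_add, LinearMap.add_apply, h4, hu]; rfl)
          rw [map_add, LinearMap.add_apply, h3] at h5
          rw [h4]
          exact h5
      have : x + x = 0 := by rw [← two_smul (ZMod 2) x, show (2 : ZMod 2) = 0 from rfl, zero_smul]
      calc v = v + (x + x) := by rw [this, add_zero]
        _ = (v + x) + x := by rw [add_assoc]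
        _ = x := by rw [h6, zero_add]
  have h1 := key z v x
  rw [hz1, hz2, zero_smul, add_zero, one_smul, ← hy] at h1
  rcases h01 (β (γ z) v) with h2 | h2 <;> rcases h01 (β (γ z) x) with h3 | h3 <;>
    rw [h2, h3] at h1
  · rw [zero_smul, zero_smul, add_zero] at h1
    exact hy0 h1.symm
  · rw [zero_smul, one_smul, zero_add] at h1
    exact hvy h1
  · rw [zero_smul, one_smul, add_zero] at h1
    exact hx h1.symm
  · rw [one_smul, one_smul] at h1
    apply hvxy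
    have : x + x = 0 := by rw [← two_smul (ZMod 2) x, show (2 : ZMod 2) = 0 from rfl, zero_smul]
    calc v = (x + x) + v := by rw [this, zero_add]
      _ = x + (x + v) := by rw [add_assoc]
      _ = x + y := by rw [h1]

end main

end Pool.Agent.Q45.OI
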