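import Pool.Agent.Q45.OI.P.QA

/-!
# Joint open image: the data of a double cover over an arbitrary base curve
-/

set_option autoImplicit false
set_option linter.all false

open Polynomial IsDedekindDomain WithZero Module
open scoped Classical nonZeroDivisors

namespace Pool.Agent.Q45.OI

open Pool.Agent.Q45.TW (IsGeom)
open Pool.Agent.Q45.GP (Regular)
open Pool.Agent.Y160.SQ
open Pool.Agent.TH115.GD (incl rs ak Sep Comp)
open Pool.Agent.Q45.GM

section norm

variable {K F L : Type} [Field K] [Field F] [Field L] [Algebra K F] [Algebra F L]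
  [Algebra L (Sep F)] [IsScalarTower F L (Sep F)] {f : K[X]} {hgd : Good 2 (-1) f} {a : Sep F}
  {θ : L}

theorem Fld_int (h : Fld (f := f) a θ) : IsIntegral F θ := by
  have h1 : IsIntegral F (algebraMap L (Sep F) θ) := Algebra.IsIntegral.isIntegral _
  exact (isIntegral_algebraMap_iff (algebraMap L (Sep F)).injective).1 h1

theorem Fld_poly (h : Fld (f := f) a θ) (z : L) : ∃ P : F[X], aeval θ P = z := by
  have h1 : z ∈ (IntermediateField.adjoin F {θ}).toSubalgebra := by
    rw [h.top]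
    exact Algebra.mem_top
  rw [IntermediateField.adjoin_simple_toSubalgebra_of_isAlgebraic (Fld_int h).isAlgebraic,
    Algebra.adjoin_singleton_eq_range_aeval] at h1
  exact h1

/-- The norm of a Kummer generator is a square. -/
theorem rel_norm (h : Fld (f := f) a θ) {c : (Sep F ≃ₐ[F] Sep F) → Jac 2 f (Sep F)}
    (hmul : ∀ σ τ, c (σ * τ) = c σ + jm 2 f (rs K σ) (c τ)) (hc : ∀ σ, Tor hgd (c σ)) {z : Lˣ}
    (hz : RelZ hgd a c z) : ∃ y : F, Algebra.norm F (z : L) = y ^ 2 := by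
  obtain ⟨t, ht, htz⟩ := hz
  obtain ⟨P, hP⟩ := Fld_poly h (z : L)
  have haP : aeval a P = algebraMap L (Sep F) (z : L) := by
    rw [← hP, ← h.val, aeval_algebraMap_apply]
  obtain ⟨y, hy⟩ := ht.norm hgd h.irr h.rt hmul hc (P := P) (by rw [htz, haP])
  refine ⟨y, (algebraMap F (Sep F)).injective ?_⟩
  rw [hy]
  have hmm : (f.map (algebraMap K F)).map (algebraMap F (Sep F)) = f.map (algebraMap K (Sep F)) := by
    rw [Polynomial.map_map, ← IsScalarTower.algebraMap_eq]
  have htr : ∀ β : Sep F, ∃ ρ : Sep F ≃ₐ[F] Sep F, Rt (f.map (algebraMap K F)) β → ρ a = β := by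
    intro β
    by_cases hβ : Rt f β
    · obtain ⟨ρ, hρ⟩ := trans_rt hgd h.irr h.rt hβ
      exact ⟨ρ, fun _ => hρ⟩
    · refine ⟨1, fun h1 => absurd ?_ hβ⟩
      unfold Rt at h1 ⊢
      rwa [aeval_map_algebraMap] at h1
  choose ρ hρ using htr
  have ha' : Rt (f.map (algebraMap K F)) a := by
    unfold Rt
    rw [aeval_map_algebraMap]
    exact h.rt
  rw [Pool.Agent.Y474.SH.norm_prod (K := F) (f := f.map (algebraMap K F)) (by
    rw [hmm]; exact splits_up hgd) hgd.sep.map ha' h.val h.top ρ hρ, hmm]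
  refine Finset.prod_congr rfl fun β hβ => ?_
  have hβ' : Rt (f.map (algebraMap K F)) β := by
    unfold Rt
    rw [aeval_map_algebraMap]
    exact rt_of ((mem_roots (hgd.up (Sep F)).monic.ne_zero).1 (Multiset.mem_toFinset.1 hβ))
  rw [← haP]
  have h1 : ρ β (aeval a P) = aeval (ρ β a) P := (aeval_algHom_apply (ρ β).toAlgHom a P).symm
  rw [h1, hρ β hβ']

variable {B : Type} [CommRing B] [IsDedekindDomain B] [Algebra B F] [IsFractionRing B F]

/-- The values are classes of elements whose ideal is a square and whose norm is a square. -/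
theorem kM_memN [Algebra K L] [IsScalarTower K F L] {R : Type} [CommRing R] [IsDedekindDomain R]
    [Algebra R L] [IsFractionRing R L] [Algebra B R] [Algebra.IsIntegral B R] [Algebra B L]
    [IsScalarTower B F L] [IsScalarTower B R L] [Module.IsTorsionFree B R] (hgd : Good 2 (-1) f)
    {fB : B[X]} (hfB : fB.map (algebraMap B F) = f.map (algebraMap K F)) (hfm : fB.Monic)
    (hreg : Regular F fB) (h : Fld (f := f) a θ) (m : SelT (F := F) 2 B f 2) :
    ∃ z : Lˣ, (z ∈ evS R L ∧ ∃ y : F, Algebra.norm F (z : L) = y ^ 2) ∧ kM hgd h m = clX z := by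
  obtain ⟨c, rfl⟩ := cls_surj (sel_isLocal 2 B f) m
  obtain ⟨z, hz, h1⟩ := kz_rel hgd h c
  have hn := rel_norm h (lvl_coc c).mul (fun σ => (tor_two hgd).2 (lvl_two c σ)) hz
  obtain ⟨w, hw, h2⟩ := kM_mem (R := R) hgd hfB hfm hreg h (cls (sel_isLocal 2 B f) c)
  refine ⟨z, ⟨?_, hn⟩, h1⟩
  have h3 : clX z = clX w := by
    rw [← h1, ← h2]
    rfl
  obtain ⟨y, rfl⟩ := clX_eq h3
  exact mul_mem hw (sq_le ⟨y, rfl⟩)

end norm

section gen

variable {L : Type} [Field L] {Ev : Subgroup Lˣ} {V : Type} [AddCommGroup V] {cl : Lˣ → V}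

/-- The group `V` is the quotient of `Ev` by the squares, through the map `cl`. -/
structure IsQ (Ev : Subgroup Lˣ) {V : Type} [AddCommGroup V] (cl : Lˣ → V) : Prop where
  le : sqS L ≤ Ev
  add : ∀ z ∈ Ev, ∀ w ∈ Ev, cl (z * w) = cl z + cl w
  zero : ∀ z ∈ Ev, cl z = 0 ↔ z ∈ sqS L
  surj : ∀ v, ∃ z ∈ Ev, cl z = v

theorem IsQ.congr (h : IsQ Ev cl) {z w : Lˣ} (hz : z ∈ Ev) (hzw : clX z = clX w) :
    w ∈ Ev ∧ cl z = cl w := by
  obtain ⟨y, hy⟩ := clX_eq hzw.symm
  have h1 : y ^ 2 ∈ sqS L := ⟨y, rfl⟩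
  refine ⟨by rw [hy]; exact mul_mem hz (h.le h1), ?_⟩
  rw [hy, h.add _ hz _ (h.le h1), (h.zero _ (h.le h1)).2 h1, add_zero]

theorem IsQ.inj (h : IsQ Ev cl) {z w : Lˣ} (hz : z ∈ Ev) (hw : w ∈ Ev) (hzw : cl z = cl w) :
    clX z = clX w := by
  have h1 : cl (z * w⁻¹) = 0 := by
    have h2 : cl z = cl (z * w⁻¹) + cl w := by
      rw [← h.add _ (mul_mem hz (inv_mem hw)) _ hw, inv_mul_cancel_right]
    rw [hzw] at h2
    have h3 : (0 : V) + cl w = cl (z * w⁻¹) + cl w := by rw [zero_add]; exact h2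
    exact (add_right_cancel h3).symm
  rw [h.zero _ (mul_mem hz (inv_mem hw)), ← clX_zero] at h1
  have h4 : clX (z * w⁻¹) + clX w = clX z := by
    rw [← clX_mul, inv_mul_cancel_right]
  rw [h1, zero_add] at h4
  exact h4.symm

/-- The group of the classes of the elements of `Ev`. -/
def wG (Ev : Subgroup Lˣ) : AddSubgroup (XL L) where
  carrier := {x | ∃ z ∈ Ev, clX z = x}
  add_mem' := by
    rintro _ _ ⟨z, hz, rfl⟩ ⟨w, hw, rfl⟩
    exact ⟨z * w, mul_mem hz hw, rfl⟩
  zero_mem' := ⟨1, one_mem _, rfl⟩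
  neg_mem' := by
    rintro _ ⟨z, hz, rfl⟩
    exact ⟨z⁻¹, inv_mem hz, rfl⟩

theorem IsQ.finite [Finite V] (h : IsQ Ev cl) : Finite (wG Ev) := by
  choose r hr1 hr2 using fun x : wG Ev => x.2
  refine Finite.of_injective (fun x => cl (r x)) fun x y hxy => ?_
  apply Subtype.ext
  rw [← hr2 x, ← hr2 y]
  exact h.inj (hr1 x) (hr1 y) hxy

/-- The additive map to `V`. -/
theorem IsQ.exists_kap (h : IsQ Ev cl) {M : Type} [AddCommGroup M] (κ : M →+ XL L)
    (hκ : ∀ m, ∃ z ∈ Ev, κ m = clX z) :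
    ∃ κ' : M →+ V, (∀ m, κ' m = 0 ↔ κ m = 0) ∧
      ∀ (e : L ≃+* L) (g : V → V), (∀ z ∈ Ev, cl (Units.map (e : L →* L) z) = g (cl z)) →
        ∀ m m', κ m' = opX e (κ m) → κ' m' = g (κ' m) := by
  choose r hr1 hr2 using hκ
  refine ⟨AddMonoidHom.mk' (fun m => cl (r m)) (fun m m' => ?_), fun m => ?_,
    fun e g hg m m' hm => ?_⟩
  · rw [← h.add _ (hr1 m) _ (hr1 m')]
    refine (h.congr (hr1 _) ?_).2
    rw [← hr2, clX_mul, ← hr2, ← hr2, map_add]
  · show cl (r m) = 0 ↔ _
    rw [h.zero _ (hr1 m), hr2, clX_zero]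
  · show cl (r m') = g (cl (r m))
    rw [← hg _ (hr1 m)]
    refine (h.congr (hr1 _) ?_).2
    rw [← hr2, hm, hr2]
    rfl

end gen

section core

variable {k k' K F L S : Type} [Field k] [Field k'] [Algebra k k'] [IsSepClosed k']
  [Algebra.IsSeparable k k'] [Field K] [Algebra k[X] K] [Field F] [Algebra k'[X] F] [Algebra K F]
  (B : Type) [CommRing B] [IsDedekindDomain B] [Algebra k'[X] B] [Algebra B F]
  [IsScalarTower k'[X] B F] [IsFractionRing B F] [IsIntegralClosure B k'[X] F]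
  [Field L] [Algebra F L] [Algebra K L] [IsScalarTower K F L] [Algebra L (Sep F)]
  [IsScalarTower F L (Sep F)] [CommRing S] [IsDedekindDomain S] [Algebra S L] [IsFractionRing S L]
  [Algebra B S] [Algebra.IsIntegral B S] [Algebra B L] [IsScalarTower B F L]
  [IsScalarTower B S L] [Module.IsTorsionFree B S] {f : K[X]} (hgd : Good 2 (-1) f) {a : Sep F}
  {θ : L}

include hgd in
/-- The module, its reduction and the action of the group. -/
theorem core_gen (hF : IsGeom k k' K F) {fB : B[X]}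
    (hfB : fB.map (algebraMap B F) = f.map (algebraMap K F)) (hfm : fB.Monic)
    (hreg : Regular F fB) (h : Fld (f := f) a θ) {V : Type} [AddCommGroup V] [Finite V]
    {Ev : Subgroup Lˣ}
    (hEv : ∀ z : Lˣ, z ∈ Ev ↔ z ∈ evS S L ∧ ∃ y : F, Algebra.norm F (z : L) = y ^ 2)
    {cl : Lˣ → V} (hq : IsQ Ev cl) (act : (k' ≃ₐ[k] k') → V → V)
    (hact : ∀ τ, ∃ e : L ≃+* L, Fixes K θ e ∧ (∀ x : k', e (algebraMap F L
      (algebraMap k'[X] F (C x))) = algebraMap F L (algebraMap k'[X] F (C (τ x)))) ∧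
      ∀ z ∈ Ev, cl (Units.map (e : L →* L) z) = act τ (cl z)) :
    Module.Finite ℤ_[2] (SelT (F := F) 2 B f 2) ∧
      Module.Free ℤ_[2] (SelT (F := F) 2 B f 2) ∧
      (∀ τ : k' ≃ₐ[k] k', ∃ T : Sep F ≃ₐ[K] Sep F, ∀ x, T (cs k' F x) = cs k' F (τ x)) ∧
      ∃ κ : SelT (F := F) 2 B f 2 →+ V, (∀ m, κ m = 0 ↔ ∃ m', m = (2 : ℤ_[2]) • m') ∧
        ∀ (T : Sep F ≃ₐ[K] Sep F) (τ : k' ≃ₐ[k] k'), (∀ x, T (cs k' F x) = cs k' F (τ x)) →
          ∀ m, κ (rho B hF f T m) = act τ (κ m) := by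
  have hmem : ∀ m : SelT (F := F) 2 B f 2, ∃ z ∈ Ev, kM hgd h m = clX z := fun m => by
    obtain ⟨z, hz, h1⟩ := kM_memN (R := S) hgd hfB hfm hreg h m
    exact ⟨z, (hEv z).2 hz, h1⟩
  obtain ⟨h1, h2⟩ := fin_free hgd h hq.finite (fun m => by
    obtain ⟨z, hz, h1⟩ := hmem m
    exact ⟨z, hz, h1.symm⟩)
  have hcs : ∀ x : k', cs k' F x = algebraMap L (Sep F) (algebraMap F L
      (algebraMap k'[X] F (C x))) := by
    intro x
    rw [cs_apply, ← IsScalarTower.algebraMap_apply F L (Sep F)]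
  refine ⟨h1, h2, fun τ => ?_, ?_⟩
  · obtain ⟨e, he, he2, he3⟩ := hact τ
    obtain ⟨T, hT⟩ := lift_e (F := F) e he.1
    refine ⟨T, fun x => ?_⟩
    rw [hcs, hT, he2, ← hcs]
  · obtain ⟨κ, hk1, hk2⟩ := hq.exists_kap (kM (B := B) hgd h) hmem
    refine ⟨κ, fun m => by rw [hk1]; exact kM_zero_iff hgd h m, fun T τ hT m => ?_⟩
    obtain ⟨e, he, he2, he3⟩ := hact τ
    refine hk2 e (act τ) he3 m _ (kM_rho B hgd hF h e he T (fun x => ?_) m)
    rw [hT, he2, ← hcs]

end core

section data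

variable {k k' K F L : Type} [Field k] [Field k'] [Algebra k k'] [IsSepClosed k']
  [Algebra.IsSeparable k k'] [Field K] [Algebra k[X] K] [Field F] [Algebra k'[X] F] [Algebra K F]
  (B : Type) [CommRing B] [IsDedekindDomain B] [Algebra k'[X] B] [Algebra B F]
  [IsScalarTower k'[X] B F] [IsFractionRing B F] [IsIntegralClosure B k'[X] F] {P : B[X]}
  [IsDedekindDomain (AdjoinRoot P)] [Field L] [Algebra (AdjoinRoot P) L]
  [IsFractionRing (AdjoinRoot P) L] [Algebra F L] {f : K[X]}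

/-- **The data of a double cover over an arbitrary base curve.** -/
theorem gen_dat (hF : IsGeom k k' K F) (h2 : (2 : k) ≠ 0)
    (hfB : P.map (algebraMap B F) = f.map (algebraMap K F)) (hfm : P.Monic)
    (hodd : Odd P.natDegree) (hsep : f.Separable)
    (hFL : ∀ b : B, algebraMap F L (algebraMap B F b) =
      algebraMap (AdjoinRoot P) L (AdjoinRoot.of P b))
    {V : Type} [AddCommGroup V] [Finite V] {Ev : Subgroup Lˣ}
    (hEv : ∀ z : Lˣ, z ∈ Ev ↔ z ∈ evS (AdjoinRoot P) L ∧ ∃ y : F, Algebra.norm F (z : L) = y ^ 2)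
    {cl : Lˣ → V} (hadd : ∀ z ∈ Ev, ∀ w ∈ Ev, cl (z * w) = cl z + cl w)
    (hzero : ∀ z ∈ Ev, cl z = 0 ↔ z ∈ sqS L) (hsurj : ∀ v, ∃ z ∈ Ev, cl z = v)
    (act : (k' ≃ₐ[k] k') → V → V)
    (hact : ∀ τ, ∃ e : L ≃+* L, ((∀ x : K, e (algebraMap F L (algebraMap K F x)) =
      algebraMap F L (algebraMap K F x)) ∧ e (algebraMap (AdjoinRoot P) L (AdjoinRoot.root P)) =
        algebraMap (AdjoinRoot P) L (AdjoinRoot.root P)) ∧ (∀ x : k', e (algebraMap F L
      (algebraMap k'[X] F (C x))) = algebraMap F L (algebraMap k'[X] F (C (τ x)))) ∧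
      ∀ z ∈ Ev, cl (Units.map (e : L →* L) z) = act τ (cl z)) :
    Module.Finite ℤ_[2] (SelT (F := F) 2 B f 2) ∧
      Module.Free ℤ_[2] (SelT (F := F) 2 B f 2) ∧
      (∀ τ : k' ≃ₐ[k] k', ∃ T : Sep F ≃ₐ[K] Sep F, ∀ x, T (cs k' F x) = cs k' F (τ x)) ∧
      ∃ κ : SelT (F := F) 2 B f 2 →+ V, (∀ m, κ m = 0 ↔ ∃ m', m = (2 : ℤ_[2]) • m') ∧
        ∀ (T : Sep F ≃ₐ[K] Sep F) (τ : k' ≃ₐ[k] k'), (∀ x, T (cs k' F x) = cs k' F (τ x)) →
          ∀ m, κ (rho B hF f T m) = act τ (κ m) := by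
  have hinjA : Function.Injective (AdjoinRoot.of P) :=
    AdjoinRoot.of.injective_of_degree_ne_zero (natDegree_pos_iff_degree_pos.1 hodd.pos).ne'
  letI iBL : Algebra B L := ((algebraMap (AdjoinRoot P) L).comp (AdjoinRoot.of P)).toAlgebra
  haveI : IsScalarTower B (AdjoinRoot P) L := IsScalarTower.of_algebraMap_eq fun _ => rfl
  haveI : IsScalarTower B F L := IsScalarTower.of_algebraMap_eq fun p => (hFL p).symm
  letI iKL : Algebra K L := ((algebraMap F L).comp (algebraMap K F)).toAlgebra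
  haveI : IsScalarTower K F L := IsScalarTower.of_algebraMap_eq fun _ => rfl
  set θ : L := algebraMap (AdjoinRoot P) L (AdjoinRoot.root P) with hθ
  -- `L` is generated by the root
  have htop : IntermediateField.adjoin F {θ} = ⊤ := by
    rw [eq_top_iff]
    rintro x -
    set E := IntermediateField.adjoin F {θ} with hE
    have h1 : ∀ s : AdjoinRoot P, algebraMap (AdjoinRoot P) L s ∈ E := by
      intro s
      induction s using AdjoinRoot.induction_on with
      | ih p =>
        induction p using Polynomial.induction_on' with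
        | add p q hp hq => rw [map_add, map_add]; exact add_mem hp hq
        | monomial n a =>
          rw [← C_mul_X_pow_eq_monomial, map_mul, map_pow, AdjoinRoot.mk_C, AdjoinRoot.mk_X,
            map_mul, map_pow, ← hFL]
          exact mul_mem (E.algebraMap_mem _)
            (pow_mem (IntermediateField.mem_adjoin_simple_self F _) n)
    obtain ⟨a, b, -, rfl⟩ := IsFractionRing.div_surjective (A := AdjoinRoot P) x
    exact div_mem (h1 a) (h1 b)
  have hroot : aeval θ (P.map (algebraMap B F)) = 0 := by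
    rw [aeval_def, eval₂_map]
    have h1 : (algebraMap F L).comp (algebraMap B F) =
        (algebraMap (AdjoinRoot P) L).comp (AdjoinRoot.of P) := RingHom.ext hFL
    rw [h1, hθ, ← hom_eval₂, AdjoinRoot.eval₂_root, map_zero]
  have hirr : Irreducible (f.map (algebraMap K F)) := by
    rw [← hfB]
    have h1 : (Ideal.span {P}).IsPrime :=
      (Ideal.Quotient.isDomain_iff_prime _).1 (inferInstanceAs (IsDomain (AdjoinRoot P)))
    have h2 : Irreducible P := ((Ideal.span_singleton_prime hfm.ne_zero).1 h1).irreducible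
    exact (Polynomial.Monic.irreducible_iff_irreducible_map_fraction_map (K := F) hfm).1 h2
  have hsepF : (f.map (algebraMap K F)).Separable := hsep.map
  have h2K : (2 : K) ≠ 0 := by
    have h3 : (algebraMap K F) ((algebraMap k[X] K) (C (2 : k))) = (algebraMap K F) 2 := by
      rw [show (C (2 : k)) = (2 : k[X]) from rfl, map_ofNat]
    intro h4
    rw [h4, hF.comp, map_C, map_zero, map_ofNat] at h3
    have h5 : (C (2 : k') : k'[X]) = 0 := hF.inj (by rw [h3, map_zero])
    have h6 : (2 : k') = algebraMap k k' 2 := (map_ofNat _ _).symm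
    rw [C_eq_zero, h6, _root_.map_eq_zero] at h5
    exact h2 h5
  haveI : NeZero (2 : K) := ⟨h2K⟩
  have hne : (-1 : K) ≠ 1 := fun h3 => h2K (by linear_combination -h3)
  have hdeg : f.natDegree = P.natDegree := by
    have h3 := congrArg natDegree hfB
    rw [hfm.natDegree_map, natDegree_map] at h3
    exact h3.symm
  have hmonf : f.Monic := by
    have h3 : (f.map (algebraMap K F)).Monic := by rw [← hfB]; exact hfm.map _
    exact Polynomial.monic_of_injective (algebraMap K F).injective h3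
  have hgd : Good 2 (-1) f := by
    refine ⟨Nat.prime_two.isPrimePow, ?_, hmonf, hsep, ?_⟩
    · exact IsPrimitiveRoot.mk_of_lt _ (by norm_num) (by norm_num) (by
        intro l h1 h2
        have h3 : l = 1 := by omega
        rw [h3, pow_one]
        exact hne)
    · rw [hdeg]
      exact Nat.coprime_two_left.2 hodd
  have hint : IsIntegral F θ := ⟨P.map (algebraMap B F), hfm.map _, hroot⟩
  have hsθ : IsSeparable F θ := by
    have h1 : (P.map (algebraMap B F)).Separable := by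
      rw [hfB]
      exact hsepF
    exact h1.of_dvd (minpoly.dvd F θ hroot)
  haveI : Algebra.IsSeparable F L := by
    have h1 := (IntermediateField.isSeparable_adjoin_simple_iff_isSeparable F L).2 hsθ
    rw [htop] at h1
    exact Algebra.IsSeparable.of_algHom F _ (IntermediateField.topEquiv (F := F) (E := L)).symm.toAlgHom
  letI iLS : Algebra L (Sep F) := (IsSepClosed.lift : L →ₐ[F] Sep F).toRingHom.toAlgebra
  haveI : IsScalarTower F L (Sep F) := IsScalarTower.of_algebraMap_eq fun x =>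
    ((IsSepClosed.lift : L →ₐ[F] Sep F).commutes x).symm
  have hfld : Fld (f := f) (algebraMap L (Sep F) θ) θ := by
    refine ⟨?_, rfl, htop, hirr⟩
    unfold Rt
    have h1 : aeval (algebraMap L (Sep F) θ) f = aeval (algebraMap L (Sep F) θ)
        (f.map (algebraMap K F)) := (aeval_map_algebraMap _ _ _).symm
    rw [h1, ← hfB, aeval_algebraMap_apply, hroot, map_zero]
  haveI : Module.Finite B (AdjoinRoot P) := hfm.finite_adjoinRoot
  haveI : Algebra.IsIntegral B (AdjoinRoot P) := Algebra.IsIntegral.of_finite _ _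
  haveI : Module.IsTorsionFree B (AdjoinRoot P) := by
    rw [Module.isTorsionFree_iff_algebraMap_injective]
    exact hinjA
  have hle : sqS L ≤ Ev := by
    rintro z ⟨y, rfl⟩
    rw [hEv]
    refine ⟨sq_le ⟨y, rfl⟩, Algebra.norm F (y : L), ?_⟩
    rw [← map_pow]
    rfl
  exact core_gen (S := AdjoinRoot P) B hgd hF hfB hfm (regular_of_dedekind inferInstance) hfld hEv
    ⟨hle, hadd, hzero, hsurj⟩ act hact

end data

end Pool.Agent.Q45.OI
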