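import Pool.Agent.Q45.OI.P.PG

/-!
# Regularity of the polynomials which define Dedekind domains
-/

set_option autoImplicit false
set_option linter.all false

open Polynomial IsDedekindDomain WithZero
open scoped Classical

namespace Pool.Agent.Q45.OI

open Pool.Agent.Y228.SE (approx_poly mem_sq_of_dvd)
open Pool.Agent.Q45.GP (Regular)

section alg

variable {B κ : Type} [CommRing B] [IsDomain B] [Field κ] {v : Ideal B} {ρ : B →+* κ}
  (hρ : Function.Surjective ρ) (hker : RingHom.ker ρ = v)

include hker in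
theorem map_zero_iff {w : B[X]} : w.map ρ = 0 ↔ w ∈ v.map C := by
  rw [← hker, ← Polynomial.ker_mapRingHom, RingHom.mem_ker, coe_mapRingHom]

include hρ hker in
/-- The elements of the square of the ideal of a point. -/
theorem sq_form {ā : κ[X]} {a0 : B[X]} (ha0 : a0.map ρ = ā) {x : B[X]}
    (hx : x ∈ ((Ideal.span {ā}).comap (mapRingHom ρ)) ^ 2) :
    ∃ g h u : B[X], h ∈ v.map C ∧ u ∈ (v ^ 2).map C ∧ x = a0 ^ 2 * g + a0 * h + u := by
  have key : ∀ m ∈ (Ideal.span {ā}).comap (mapRingHom ρ), ∃ p r : B[X], r ∈ v.map C ∧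
      m = a0 * p + r := by
    intro m hm
    rw [Ideal.mem_comap, Ideal.mem_span_singleton, coe_mapRingHom] at hm
    obtain ⟨q, hq⟩ := hm
    obtain ⟨p, hp⟩ := Polynomial.map_surjective ρ hρ q
    refine ⟨p, m - a0 * p, ?_, by ring⟩
    rw [← map_zero_iff hker, Polynomial.map_sub, Polynomial.map_mul, ha0, hp, hq, sub_self]
  rw [pow_two] at hx
  refine Submodule.mul_induction_on hx ?_ ?_
  · intro m hm n hn
    obtain ⟨p, r, hr, rfl⟩ := key m hm
    obtain ⟨q, s, hs, rfl⟩ := key n hn
    refine ⟨p * q, p * s + r * q, r * s, ?_, ?_, by ring⟩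
    · exact Ideal.add_mem _ (Ideal.mul_mem_left _ _ hs) (Ideal.mul_mem_right _ _ hr)
    · rw [Ideal.map_pow, pow_two]
      exact Ideal.mul_mem_mul hr hs
  · rintro x y ⟨g, h, u, h1, h2, rfl⟩ ⟨g', h', u', h1', h2', rfl⟩
    exact ⟨g + g', h + h', u + u', Ideal.add_mem _ h1 h1', Ideal.add_mem _ h2 h2', by ring⟩

include hρ hker in
/-- A polynomial in the square of the ideal of a point does not define a Dedekind domain. -/
theorem not_sq {ā : κ[X]} (hā : ā.Monic) (hirr : Irreducible ā) (hv : ∃ π ∈ v, π ∉ v ^ 2)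
    {P : B[X]} (hS : IsDedekindDomain (AdjoinRoot P))
    (hP : P ∈ ((Ideal.span {ā}).comap (mapRingHom ρ)) ^ 2) : False := by
  haveI := hS
  set J := (Ideal.span {ā}).comap (mapRingHom ρ) with hJ
  have hsur : Function.Surjective (mapRingHom ρ) := Polynomial.map_surjective ρ hρ
  haveI hmax0 : (Ideal.span {ā}).IsMaximal := PrincipalIdealRing.isMaximal_of_irreducible hirr
  haveI hmax : J.IsMaximal := Ideal.comap_isMaximal_of_surjective _ hsur
  have hPJ : P ∈ J := Ideal.pow_le_self two_ne_zero hP
  have hms : Function.Surjective (AdjoinRoot.mk P) := AdjoinRoot.mk_surjective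
  have hkm : RingHom.ker (AdjoinRoot.mk P) = Ideal.span {P} := by
    ext x
    rw [RingHom.mem_ker, AdjoinRoot.mk_eq_zero, Ideal.mem_span_singleton]
  have hcm : ∀ I : Ideal B[X], P ∈ I → ((I.map (AdjoinRoot.mk P)).comap (AdjoinRoot.mk P)) = I := by
    intro I hI
    rw [Ideal.comap_map_of_surjective _ hms, ← RingHom.ker_eq_comap_bot, hkm, sup_eq_left,
      Ideal.span_le, Set.singleton_subset_iff]
    exact hI
  -- a monic lift
  obtain ⟨a0, ha0, hdeg, hmon⟩ := Polynomial.lifts_and_natDegree_eq_and_monic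
    ((Polynomial.mem_lifts _).2 (Polynomial.map_surjective ρ hρ ā)) hā
  have ha0J : a0 ∈ J := by
    rw [hJ, Ideal.mem_comap, coe_mapRingHom, ha0]
    exact Ideal.subset_span rfl
  have hvJ : v.map C ≤ J := by
    intro w hw
    rw [hJ, Ideal.mem_comap, coe_mapRingHom, (map_zero_iff hker).2 hw]
    exact zero_mem _
  set n := J.map (AdjoinRoot.mk P) with hn
  have hnJ : n.comap (AdjoinRoot.mk P) = J := hcm J hPJ
  have hntop : n ≠ ⊤ := by
    intro h
    rw [h, Ideal.comap_top] at hnJ
    exact hmax.ne_top hnJ.symm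
  haveI hnmax : n.IsMaximal := by
    rcases Ideal.map_eq_top_or_isMaximal_of_surjective _ hms hmax with h | h
    · exact absurd h hntop
    · exact h
  have hJ2 : ¬ a0 ∈ J ^ 2 ⊔ v.map C := by
    intro h
    have h1 : (J ^ 2 ⊔ v.map C).map (mapRingHom ρ) ≤ Ideal.span {ā} ^ 2 := by
      rw [Ideal.map_sup, sup_le_iff, Ideal.map_pow]
      constructor
      · refine Ideal.pow_right_mono ?_ 2
        exact Ideal.map_comap_le
      · rw [Ideal.map_le_iff_le_comap]
        intro w hw
        rw [Ideal.mem_comap, coe_mapRingHom, (map_zero_iff hker).2 hw]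
        exact zero_mem _
    have h2 := h1 (Ideal.mem_map_of_mem _ h)
    rw [coe_mapRingHom, ha0, Ideal.span_singleton_pow, Ideal.mem_span_singleton] at h2
    obtain ⟨c, hc⟩ := h2
    have h3 : ā * (ā * c) = ā * 1 := by rw [mul_one, ← mul_assoc, ← pow_two, ← hc]
    exact hirr.not_isUnit (IsUnit.of_mul_eq_one _ (mul_left_cancel₀ hirr.ne_zero h3))
  have hn0 : n ≠ ⊥ := by
    intro h
    have h1 : J ≤ Ideal.span {P} := by
      rw [← hkm, RingHom.ker_eq_comap_bot, ← h, hnJ]
    apply hJ2
    refine Ideal.mem_sup_left ?_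
    have h2 : J ≤ J ^ 2 := h1.trans ((Ideal.span_le).2 (Set.singleton_subset_iff.2 hP))
    exact h2 ha0J
  have hprime : Prime n := Ideal.prime_of_isPrime hn0 inferInstance
  set I := (J ^ 2 ⊔ v.map C).map (AdjoinRoot.mk P) with hI
  have hIJ : I.comap (AdjoinRoot.mk P) = J ^ 2 ⊔ v.map C := hcm _ (Ideal.mem_sup_left hP)
  have hdvd : I ∣ n ^ 2 := by
    rw [Ideal.dvd_iff_le, hn, ← Ideal.map_pow]
    exact Ideal.map_mono le_sup_left
  obtain ⟨i, hi, hass⟩ := (dvd_prime_pow hprime 2).1 hdvd
  rw [associated_iff_eq] at hass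
  interval_cases i
  · rw [pow_zero, Ideal.one_eq_top] at hass
    have h1 : I ≤ n := by
      rw [hn]
      exact Ideal.map_mono (sup_le (Ideal.pow_le_self two_ne_zero) hvJ)
    exact hntop (eq_top_iff.2 (hass ▸ h1))
  · rw [pow_one] at hass
    rw [hass, hnJ] at hIJ
    exact hJ2 (hIJ ▸ ha0J)
  · have h1 : v.map C ≤ J ^ 2 := by
      have h2 : I.comap (AdjoinRoot.mk P) = J ^ 2 := by
        rw [hass, hn, ← Ideal.map_pow]
        exact hcm _ hP
      rw [hIJ] at h2
      rw [← h2]
      exact le_sup_right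
    obtain ⟨π, hπ, hπ2⟩ := hv
    obtain ⟨g, h, u, hh, hu, hx⟩ := sq_form hρ hker ha0 (h1 (Ideal.mem_map_of_mem C hπ))
    have h3 : g ∈ v.map C := by
      have h4 := congrArg (Polynomial.map ρ) hx
      have h5 : ρ π = 0 := by
        rw [← RingHom.mem_ker, hker]
        exact hπ
      have h6 : u.map ρ = 0 := (map_zero_iff hker).2 ((Ideal.map_mono (Ideal.pow_le_self two_ne_zero)) hu)
      rw [map_C, h5, C_0, Polynomial.map_add, Polynomial.map_add, Polynomial.map_mul,
        Polynomial.map_mul, Polynomial.map_pow, (map_zero_iff hker).2 hh, h6, mul_zero, add_zero,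
        add_zero, ha0] at h4
      rw [← map_zero_iff hker]
      rcases mul_eq_zero.1 h4.symm with h7 | h7
      · exact absurd (pow_eq_zero_iff two_ne_zero |>.1 h7) hirr.ne_zero
      · exact h7
    have hw : a0 * g + h ∈ v.map C := Ideal.add_mem _ (Ideal.mul_mem_left _ _ h3) hh
    set q := Ideal.Quotient.mk (v ^ 2) with hq
    have hkq : ∀ w : B[X], w.map q = 0 ↔ w ∈ (v ^ 2).map C := by
      intro w
      have h4 : (v ^ 2).map (C : B →+* B[X]) = (RingHom.ker q).map C := by rw [hq, Ideal.mk_ker]
      rw [h4, ← Polynomial.ker_mapRingHom, RingHom.mem_ker, coe_mapRingHom]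
    have h4 : C (q π) = a0.map q * (a0 * g + h).map q := by
      have h5 := congrArg (Polynomial.map q) hx
      rw [map_C, Polynomial.map_add, (hkq u).2 hu, add_zero] at h5
      rw [h5, ← Polynomial.map_mul]
      congr 1
      ring
    have h5 : (a0 * g + h).map q = 0 := by
      by_contra hne
      have h6 := (hmon.map q).natDegree_mul' hne
      rw [← h4, natDegree_C] at h6
      have h7 : (a0.map q).natDegree = ā.natDegree := by
        haveI : Nontrivial (B ⧸ v ^ 2) := by
          by_contra hnt
          rw [not_nontrivial_iff_subsingleton] at hnt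
          exact hne (Subsingleton.elim _ _)
        rw [hmon.natDegree_map, hdeg]
      have h8 : 0 < ā.natDegree := by
        rcases Nat.eq_zero_or_pos ā.natDegree with h9 | h9
        · exfalso
          rw [eq_one_of_monic_natDegree_zero hā h9] at hirr
          exact hirr.not_isUnit isUnit_one
        · exact h9
      omega
    rw [h5, mul_zero, C_eq_zero] at h4
    exact hπ2 (Ideal.Quotient.eq_zero_iff_mem.1 h4)

end alg

section comp

variable {A F : Type} [CommRing A] [IsDedekindDomain A] [Field F] [Algebra A F]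
  [IsFractionRing A F]

/-- The reduction map at a place. -/
theorem red_surj (v : HeightOneSpectrum A) (π : A) (hπ : v.intValuation π = exp (-1 : ℤ)) :
    Function.Surjective ((IsLocalRing.residue (v.adicCompletionIntegers F)).comp
      (algebraMap A (v.adicCompletionIntegers F))) := by
  intro y
  obtain ⟨x, rfl⟩ := IsLocalRing.residue_surjective y
  obtain ⟨m0, m1, hm1⟩ := approx_poly (F := F) v π hπ (C x)
  have hvm : algebraMap A (v.adicCompletionIntegers F) π ∈
      IsLocalRing.maximalIdeal (v.adicCompletionIntegers F) := by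
    rw [IsLocalRing.mem_maximalIdeal, mem_nonunits_iff,
      HeightOneSpectrum.adicCompletionIntegers.isUnit_iff_valued_eq_one]
    change ¬ Valued.v ((algebraMap A F π : F) : v.adicCompletion F) = 1
    rw [HeightOneSpectrum.valuedAdicCompletion_eq_valuation']
    refine ((v.valuation_lt_one_iff_mem π).2 ?_).ne
    rw [← v.intValuation_lt_one_iff_mem, hπ, ← exp_zero]
    exact exp_lt_exp.2 (by norm_num)
  refine ⟨m0.coeff 0, ?_⟩
  have h1 := congrArg (fun p => coeff p 0) hm1
  simp only [coeff_C_zero, coeff_add, coeff_C_mul] at h1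
  have h2 : (m0.map (algebraMap A (v.adicCompletionIntegers F))).coeff 0 =
      algebraMap A (v.adicCompletionIntegers F) (m0.coeff 0) := coeff_map _ _
  rw [h2] at h1
  rw [RingHom.comp_apply, h1, map_add, map_mul, map_pow, (IsLocalRing.residue_eq_zero_iff _).2 hvm,
    zero_pow two_ne_zero, zero_mul, add_zero]

theorem red_ker (v : HeightOneSpectrum A) :
    RingHom.ker ((IsLocalRing.residue (v.adicCompletionIntegers F)).comp
      (algebraMap A (v.adicCompletionIntegers F))) = v.asIdeal := by
  ext c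
  rw [RingHom.mem_ker, RingHom.comp_apply, IsLocalRing.residue_eq_zero_iff,
    IsLocalRing.mem_maximalIdeal, mem_nonunits_iff,
    HeightOneSpectrum.adicCompletionIntegers.isUnit_iff_valued_eq_one]
  change ¬ Valued.v ((algebraMap A F c : F) : v.adicCompletion F) = 1 ↔ _
  rw [HeightOneSpectrum.valuedAdicCompletion_eq_valuation', ← v.valuation_lt_one_iff_mem (K := F)]
  constructor
  · intro h
    exact lt_of_le_of_ne (v.valuation_le_one c) h
  · exact fun h => h.ne

/-- The elements of the square of the maximal ideal, over the completion. -/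
theorem mem_sq_comap (v : HeightOneSpectrum A) (f : A[X]) (a : (v.adicCompletionIntegers F)[X])
    (hmem : f.map (algebraMap A (v.adicCompletionIntegers F)) ∈
      (Ideal.span {a} ⊔ (IsLocalRing.maximalIdeal (v.adicCompletionIntegers F)).map C) ^ 2) :
    f ∈ ((Ideal.span {a.map (IsLocalRing.residue (v.adicCompletionIntegers F))}).comap
      (mapRingHom ((IsLocalRing.residue (v.adicCompletionIntegers F)).comp
        (algebraMap A (v.adicCompletionIntegers F))))) ^ 2 := by
  obtain ⟨π, hπ⟩ := v.intValuation_exists_uniformizer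
  set φ : A[X] →+* (v.adicCompletionIntegers F)[X] :=
    mapRingHom (algebraMap A (v.adicCompletionIntegers F)) with hφ
  set J : Ideal (v.adicCompletionIntegers F)[X] :=
    Ideal.span {a} ⊔ (IsLocalRing.maximalIdeal (v.adicCompletionIntegers F)).map C with hJ
  set J0 : Ideal A[X] := J.comap φ with hJ0
  have hvm : ∀ c ∈ v.asIdeal, algebraMap A (v.adicCompletionIntegers F) c ∈
      IsLocalRing.maximalIdeal (v.adicCompletionIntegers F) := by
    intro c hc
    rw [IsLocalRing.mem_maximalIdeal, mem_nonunits_iff,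
      HeightOneSpectrum.adicCompletionIntegers.isUnit_iff_valued_eq_one]
    change ¬ Valued.v ((algebraMap A F c : F) : v.adicCompletion F) = 1
    rw [HeightOneSpectrum.valuedAdicCompletion_eq_valuation']
    exact ((v.valuation_lt_one_iff_mem c).2 hc).ne
  have hπv : π ∈ v.asIdeal := by
    rw [← v.intValuation_lt_one_iff_mem, hπ, ← exp_zero]
    exact exp_lt_exp.2 (by norm_num)
  have hCJ : ∀ m ∈ IsLocalRing.maximalIdeal (v.adicCompletionIntegers F), C m ∈ J := fun m hm =>
    Ideal.mem_sup_right (Ideal.mem_map_of_mem C hm)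
  have hCπ : C (algebraMap A (v.adicCompletionIntegers F) π ^ 2) ∈ J := by
    refine hCJ _ ?_
    exact Ideal.pow_mem_of_mem _ (hvm π hπv) 2 (by norm_num)
  have hC0 : v.asIdeal.map C ≤ J0 := by
    rw [Ideal.map_le_iff_le_comap]
    intro c hc
    rw [Ideal.mem_comap, hJ0, Ideal.mem_comap]
    have : φ (C c) = C (algebraMap A (v.adicCompletionIntegers F) c) := by
      rw [hφ, coe_mapRingHom, map_C]
    rw [this]
    exact hCJ _ (hvm c hc)
  -- approximation of the elements of `J ^ 2`
  have key : ∀ w ∈ J ^ 2, ∃ w0 ∈ J0 ^ 2, ∃ h : (v.adicCompletionIntegers F)[X],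
      w = φ w0 + C (algebraMap A (v.adicCompletionIntegers F) π ^ 2) * h := by
    intro w hw
    rw [pow_two] at hw
    refine Submodule.mul_induction_on hw ?_ ?_
    · intro m hm n hn
      obtain ⟨m0, m1, hm1⟩ := approx_poly (F := F) v π hπ m
      obtain ⟨n0, n1, hn1⟩ := approx_poly (F := F) v π hπ n
      have hm0 : m0 ∈ J0 := by
        rw [hJ0, Ideal.mem_comap]
        have : φ m0 = m - C (algebraMap A (v.adicCompletionIntegers F) π ^ 2) * m1 := by
          rw [hm1]
          change _ = φ m0 + _ - _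
          ring
        rw [this]
        exact Ideal.sub_mem _ hm (Ideal.mul_mem_right _ _ hCπ)
      have hn0 : n0 ∈ J0 := by
        rw [hJ0, Ideal.mem_comap]
        have : φ n0 = n - C (algebraMap A (v.adicCompletionIntegers F) π ^ 2) * n1 := by
          rw [hn1]
          change _ = φ n0 + _ - _
          ring
        rw [this]
        exact Ideal.sub_mem _ hn (Ideal.mul_mem_right _ _ hCπ)
      refine ⟨m0 * n0, ?_, φ m0 * n1 + m1 * φ n0 +
        C (algebraMap A (v.adicCompletionIntegers F) π ^ 2) * m1 * n1, ?_⟩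
      · rw [pow_two]
        exact Ideal.mul_mem_mul hm0 hn0
      · have e1 : m = φ m0 + C (algebraMap A (v.adicCompletionIntegers F) π ^ 2) * m1 := hm1
        have e2 : n = φ n0 + C (algebraMap A (v.adicCompletionIntegers F) π ^ 2) * n1 := hn1
        rw [map_mul]
        conv_lhs => rw [e1, e2]
        ring
    · rintro x y ⟨x0, hx0, x1, hx⟩ ⟨y0, hy0, y1, hy⟩
      refine ⟨x0 + y0, Ideal.add_mem _ hx0 hy0, x1 + y1, ?_⟩
      rw [map_add]
      linear_combination hx + hy
  obtain ⟨w0, hw0, h, hw⟩ := key _ hmem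
  have hfw : f - w0 ∈ J0 ^ 2 := by
    have h1 : φ (f - w0) = C (algebraMap A (v.adicCompletionIntegers F) π ^ 2) * h := by
      rw [map_sub]
      have : φ f = f.map (algebraMap A (v.adicCompletionIntegers F)) := rfl
      rw [this, hw]
      ring
    have h2 : f - w0 ∈ (v.asIdeal ^ 2).map C := by
      rw [Ideal.mem_map_C_iff]
      intro n
      refine mem_sq_of_dvd (F := F) v π hπ _ (h.coeff n) ?_
      have h3 := congrArg (fun p => coeff p n) h1
      simp only [coeff_C_mul] at h3
      rw [← h3, hφ, coe_mapRingHom, coeff_map]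
    rw [Ideal.map_pow] at h2
    exact Ideal.pow_right_mono hC0 2 h2
  have hfJ : f ∈ J0 ^ 2 := by
    have := Ideal.add_mem _ hfw hw0
    rwa [sub_add_cancel] at this
  have hle : J ≤ (Ideal.span {a.map (IsLocalRing.residue (v.adicCompletionIntegers F))}).comap
      (mapRingHom (IsLocalRing.residue (v.adicCompletionIntegers F))) := by
    rw [hJ, sup_le_iff]
    constructor
    · rw [Ideal.span_le, Set.singleton_subset_iff, SetLike.mem_coe, Ideal.mem_comap]
      exact Ideal.subset_span rfl
    · rw [Ideal.map_le_iff_le_comap]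
      intro m hm
      rw [Ideal.mem_comap, Ideal.mem_comap, coe_mapRingHom, map_C,
        (IsLocalRing.residue_eq_zero_iff _).2 hm, C_0]
      exact Ideal.zero_mem _
  refine Ideal.pow_right_mono ?_ 2 hfJ
  intro w hw
  have h1 := hle hw
  rw [Ideal.mem_comap] at h1 ⊢
  rw [← Polynomial.mapRingHom_comp, RingHom.comp_apply]
  exact h1

/-- **The polynomials which define Dedekind domains are regular.** -/
theorem regular_of_dedekind {P : A[X]} (hS : IsDedekindDomain (AdjoinRoot P)) : Regular F P := by
  intro v a ha hirr hmem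
  obtain ⟨π, hπ⟩ := v.intValuation_exists_uniformizer
  refine not_sq (red_surj (F := F) v π hπ) (red_ker (F := F) v) (ha.map _) hirr ⟨π, ?_, ?_⟩ hS
    (mem_sq_comap v P a hmem)
  · rw [← v.intValuation_lt_one_iff_mem, hπ, ← exp_zero]
    exact exp_lt_exp.2 (by norm_num)
  · rw [← v.intValuation_le_pow_iff_mem, hπ, not_le]
    exact exp_lt_exp.2 (by norm_num)

end comp

end Pool.Agent.Q45.OI
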