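import Pool.Agent.Q45.OI.K.LB

/-!
# Joint open image: lemmas on the Lie algebra of a group of automorphisms
-/

set_option autoImplicit false
set_option linter.all false

open Module
open scoped Classical

namespace Pool.Agent.Q45.OI

open Pool.Agent.Q45.OI.KLA

section gen

variable {M : Type} [AddCommGroup M] [Module ℤ_[2] M]

/-- An endomorphism which commutes with the group commutes with its Lie algebra. -/
theorem lie_comm [Module.Free ℤ_[2] M] [Module.Finite ℤ_[2] M] {H : Subgroup (End ℤ_[2] M)ˣ}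
    {E : End ℤ_[2] M} (hE : ∀ g ∈ H, (g : End ℤ_[2] M) * E = E * (g : End ℤ_[2] M)) {A : End ℤ_[2] M}
    (hA : InLie H A) : A * E = E * A := by
  rw [← sub_eq_zero]
  refine zero_of_div fun n => ?_
  obtain ⟨i, hi, g, hg, C, hC⟩ := hA n
  refine ⟨E * C - C * E, ?_⟩
  have h1 := hE g hg
  rw [hC] at h1
  simp only [add_mul, mul_add, one_mul, mul_one, smul_mul_assoc, mul_smul_comm] at h1
  have h2 : (2 : ℤ_[2]) ^ i • (A * E - E * A) = (2 : ℤ_[2]) ^ i • (2 : ℤ_[2]) ^ n • (E * C - C * E) := by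
    rw [smul_smul, ← pow_add, smul_sub, smul_sub, sub_eq_sub_iff_add_eq_add]
    have h3 : E + ((2 : ℤ_[2]) ^ i • (A * E) + (2 : ℤ_[2]) ^ (i + n) • (C * E)) =
        E + ((2 : ℤ_[2]) ^ (i + n) • (E * C) + (2 : ℤ_[2]) ^ i • (E * A)) := by
      rw [add_comm ((2 : ℤ_[2]) ^ (i + n) • (E * C)), ← add_assoc, ← add_assoc]
      exact h1
    exact add_left_cancel h3
  exact smul_cancel h2

/-- The logarithm. -/
theorem lie_log [Module.Free ℤ_[2] M] [Module.Finite ℤ_[2] M] {H : Subgroup (End ℤ_[2] M)ˣ}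
    {g : (End ℤ_[2] M)ˣ} (hg : g ∈ H) {A : End ℤ_[2] M}
    (hA : (g : End ℤ_[2] M) = 1 + (2 : ℤ_[2]) ^ 2 • A) :
    ∃ X, InLie H X ∧ ∀ v, A v ≠ 0 → X v ≠ 0 := by
  let F : ℕ → End ℤ_[2] M := fun m =>
    Nat.rec A (fun m B => B + (2 : ℤ_[2]) ^ (m + 1) • (B * B)) m
  have hF : ∀ m, F (m + 1) = F m + (2 : ℤ_[2]) ^ (m + 1) • (F m * F m) := fun m => rfl
  have hpow : ∀ m, ((g ^ (2 ^ m) : (End ℤ_[2] M)ˣ) : End ℤ_[2] M) =
      1 + (2 : ℤ_[2]) ^ (2 + m) • F m := by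
    intro m
    induction m with
    | zero =>
      rw [pow_zero, pow_one, add_zero]
      exact hA
    | succ m ih =>
      rw [pow_succ, pow_mul, pow_two, Units.val_mul, ih, hF]
      have h1 : (2 : ℤ_[2]) ^ (2 + m) * (2 : ℤ_[2]) ^ (2 + m) =
          2 ^ (2 + (m + 1)) * 2 ^ (m + 1) := by
        rw [← pow_add, ← pow_add]
        congr 1
        omega
      have h2 : (2 : ℤ_[2]) ^ (2 + (m + 1)) • F m = (2 : ℤ_[2]) ^ (2 + m) • F m +
          (2 : ℤ_[2]) ^ (2 + m) • F m := by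
        rw [← add_assoc, pow_succ, mul_smul, two_smul, smul_add]
      rw [smul_add, smul_smul ((2 : ℤ_[2]) ^ (2 + (m + 1))), ← h1, h2, mul_add, mul_one, add_mul,
        one_mul, smul_mul_assoc, mul_smul_comm, smul_smul]
      abel
  have hFA : ∀ m, ∃ Z : End ℤ_[2] M, F m = (1 + (2 : ℤ_[2]) • Z) * A := by
    intro m
    induction m with
    | zero =>
      exact ⟨0, by rw [smul_zero, add_zero, one_mul]; rfl⟩
    | succ m ih =>
      obtain ⟨Z, hZ⟩ := ih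
      refine ⟨Z + (2 : ℤ_[2]) ^ m • (F m * (1 + (2 : ℤ_[2]) • Z)), ?_⟩
      rw [hF]
      calc F m + (2 : ℤ_[2]) ^ (m + 1) • (F m * F m)
          = (1 + (2 : ℤ_[2]) • Z) * A + (2 : ℤ_[2]) ^ (m + 1) • (F m * ((1 + (2 : ℤ_[2]) • Z) * A)) := by
            rw [← hZ]
        _ = _ := by
            rw [smul_add, smul_smul, ← pow_succ', ← mul_assoc, ← smul_mul_assoc, ← add_mul, add_assoc]
  obtain ⟨X, hX⟩ := exists_lim_mod F (fun m => ⟨F m * F m, by rw [hF, add_sub_cancel_left]⟩)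
  refine ⟨X, fun n => ⟨2 + n, by omega, g ^ (2 ^ n), pow_mem hg _, ?_⟩, ?_⟩
  · obtain ⟨b, hb⟩ := hX n
    rw [hpow]
    refine ⟨-((2 : ℤ_[2]) • b), ?_⟩
    have h1 : X = F n + (2 : ℤ_[2]) ^ (n + 1) • b := by rw [← hb]; abel
    rw [h1, smul_add, smul_smul, smul_neg, smul_smul, ← pow_add, ← pow_succ,
      show 2 + n + (n + 1) = 2 + n + n + 1 by omega]
    abel
  · intro v hv hXv
    obtain ⟨s, w, hw, hw2⟩ := exists_prim hv
    obtain ⟨Z, hZ⟩ := hFA s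
    obtain ⟨b, hb⟩ := hX s
    apply hw2
    have h1 : X v = F s v + (2 : ℤ_[2]) ^ (s + 1) • b v := by
      have : X = F s + (2 : ℤ_[2]) ^ (s + 1) • b := by rw [← hb]; abel
      rw [this]
      rfl
    have h2 : F s v = (2 : ℤ_[2]) ^ s • (w + (2 : ℤ_[2]) • Z w) := by
      rw [hZ, End.mul_apply, hw, LinearMap.add_apply, LinearMap.smul_apply, End.one_apply, map_smul,
        smul_add, smul_comm (2 : ℤ_[2]) ((2 : ℤ_[2]) ^ s)]
    rw [hXv, h2, pow_succ, mul_smul, ← smul_add] at h1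
    have h3 : (2 : ℤ_[2]) ^ s • (w + (2 : ℤ_[2]) • Z w + (2 : ℤ_[2]) • b v) = (2 : ℤ_[2]) ^ s • 0 := by
      rw [smul_zero]
      exact h1.symm
    have h4 := smul_cancel h3
    refine ⟨-(Z w + b v), ?_⟩
    rw [smul_neg, smul_add, eq_neg_iff_add_eq_zero, ← add_assoc]
    exact h4

/-- If the Lie algebra of `H` contains the Lie algebra of `G`, then the closure of `H` contains a
congruence subgroup of `G`. -/
theorem lie_open [Module.Free ℤ_[2] M] [Module.Finite ℤ_[2] M] {H G : Subgroup (End ℤ_[2] M)ˣ}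
    (hHG : H ≤ G) (hL : ∀ A, InLie G A → InLie H A) :
    ∃ j : ℕ, ∀ a ∈ G, Cg j (a : End ℤ_[2] M) 1 →
      ∀ n, ∃ g ∈ H, Cg n (g : End ℤ_[2] M) (a : End ℤ_[2] M) := by
  obtain ⟨X, _, cls, hcls⟩ := exists_cls (End ℤ_[2] M)
  have hcl : ∀ A A' : End ℤ_[2] M, cls A = cls A' ↔ Cg 1 A A' := by
    intro A A'
    rw [hcls]
    constructor
    · rintro ⟨c, hc⟩
      exact ⟨c, by rw [pow_one, ← hc]; abel⟩
    · rintro ⟨c, hc⟩
      exact ⟨c, by rw [hc, pow_one]; abel⟩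
  have h1 : ∀ c : X, ∃ i₀ : ℕ, ∀ D, InLie G D → cls D = c → ∀ i, i₀ ≤ i →
      ∃ h ∈ H, Cg (i + 1) (h : End ℤ_[2] M) (1 + (2 : ℤ_[2]) ^ i • D) := by
    intro c
    by_cases hc : ∃ D, InLie G D ∧ cls D = c
    · obtain ⟨D, hD, hDc⟩ := hc
      obtain ⟨i₀, -, hi₀⟩ := stab (hL D hD) 1
      refine ⟨i₀, fun D' hD' hD'c i hi => ?_⟩
      obtain ⟨h, hh, h2⟩ := hi₀ i hi
      refine ⟨h, hh, Cg.trans h2 ?_⟩
      obtain ⟨E, hE⟩ := (hcl D D').1 (hDc.trans hD'c.symm)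
      refine ⟨E, ?_⟩
      rw [hE, pow_one, smul_add, smul_smul, ← pow_succ]
      abel
    · exact ⟨0, fun D hD hDc => absurd ⟨D, hD, hDc⟩ hc⟩
  choose i₀ hi₀ using h1
  obtain ⟨J, hJ⟩ : ∃ J, ∀ c, i₀ c ≤ J := by
    haveI := Fintype.ofFinite X
    exact ⟨Finset.univ.sup i₀, fun c => Finset.le_sup (Finset.mem_univ c)⟩
  refine ⟨J + 2, fun a ha ha1 n => ?_⟩
  have key : ∀ n, J + 2 ≤ n → ∃ g ∈ H, Cg n (g : End ℤ_[2] M) (a : End ℤ_[2] M) := by
    intro n hn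
    induction n, hn using Nat.le_induction with
    | base => exact ⟨1, one_mem _, Cg.symm ha1⟩
    | succ n hn ih =>
      obtain ⟨g, hg, h2⟩ := ih
      obtain ⟨D, hD⟩ : Cg n ((a * g⁻¹ : (End ℤ_[2] M)ˣ) : End ℤ_[2] M) 1 := by
        rw [Units.val_mul]
        have h3 := Cg.mul_right ((g⁻¹ : (End ℤ_[2] M)ˣ) : End ℤ_[2] M) (Cg.symm h2)
        rwa [Units.mul_inv] at h3
      obtain ⟨D', hD'1, hD'2⟩ := lie2 M G n (by omega) (a * g⁻¹)
        (mul_mem ha (inv_mem (hHG hg))) D hD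
      obtain ⟨h, hh, h4⟩ := hi₀ (cls D') D' hD'1 rfl n (by
        have := hJ (cls D')
        omega)
      refine ⟨h * g, mul_mem hh hg, ?_⟩
      have h5 : Cg (n + 1) (h : End ℤ_[2] M) ((a * g⁻¹ : (End ℤ_[2] M)ˣ) : End ℤ_[2] M) := by
        refine Cg.trans h4 ?_
        rw [hD]
        obtain ⟨E, hE⟩ := hD'2
        refine ⟨E, ?_⟩
        rw [hE, pow_one, smul_add, smul_smul, ← pow_succ]
        abel
      have h6 := Cg.mul_right (g : End ℤ_[2] M) h5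
      rw [← Units.val_mul, ← Units.val_mul, inv_mul_cancel_right] at h6
      exact h6
  rcases le_total (J + 2) n with hn | hn
  · exact key n hn
  · obtain ⟨g, hg, h2⟩ := key (J + 2) le_rfl
    exact ⟨g, hg, Cg.mono hn h2⟩

end gen

section rees

/-- An injective linear map is a homeomorphism on its image. -/
theorem rees {L N : Type} [AddCommGroup L] [Module ℤ_[2] L] [Module.Finite ℤ_[2] L]
    [AddCommGroup N] [Module ℤ_[2] N] [Module.Free ℤ_[2] N] [Module.Finite ℤ_[2] N]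
    (f : L →ₗ[ℤ_[2]] N) (hf : Function.Injective f) :
    ∃ c : ℕ, ∀ (n : ℕ) (x : L), (∃ y, f x = (2 : ℤ_[2]) ^ (n + c) • y) →
      ∃ z, x = (2 : ℤ_[2]) ^ n • z := by
  -- the saturation of the image
  let S : Submodule ℤ_[2] N :=
    { carrier := {y | ∃ (s : ℕ) (z : L), (2 : ℤ_[2]) ^ s • y = f z}
      add_mem' := by
        rintro a b ⟨s, z, h⟩ ⟨s', z', h'⟩
        refine ⟨s + s', (2 : ℤ_[2]) ^ s' • z + (2 : ℤ_[2]) ^ s • z', ?_⟩
        rw [smul_add, map_add, map_smul, map_smul, ← h, ← h', smul_smul, smul_smul, pow_add,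
          mul_comm ((2 : ℤ_[2]) ^ s')]
      zero_mem' := ⟨0, 0, by rw [smul_zero, map_zero]⟩
      smul_mem' := by
        rintro c a ⟨s, z, h⟩
        exact ⟨s, c • z, by rw [map_smul, ← h, smul_comm]⟩ }
  have hS : S.FG := IsNoetherian.noetherian S
  obtain ⟨T, hT⟩ := hS
  have h1 : ∀ y ∈ S, ∃ (s : ℕ) (z : L), (2 : ℤ_[2]) ^ s • y = f z := fun y hy => hy
  have h2 : ∃ c : ℕ, ∀ y ∈ T, ∃ z : L, (2 : ℤ_[2]) ^ c • y = f z := by
    have h3 : ∀ T' : Finset N, (∀ y ∈ T', y ∈ S) → ∃ c : ℕ, ∀ y ∈ T', ∃ z : L,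
        (2 : ℤ_[2]) ^ c • y = f z := by
      intro T'
      induction T' using Finset.induction_on with
      | empty => exact fun _ => ⟨0, fun y hy => absurd hy (Finset.notMem_empty y)⟩
      | insert a T' ha ih =>
        intro h
        obtain ⟨c, hc⟩ := ih fun y hy => h y (Finset.mem_insert_of_mem hy)
        obtain ⟨s, z, hz⟩ := h1 a (h a (Finset.mem_insert_self a T'))
        refine ⟨c + s, fun y hy => ?_⟩
        rcases Finset.mem_insert.1 hy with rfl | hy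
        · exact ⟨(2 : ℤ_[2]) ^ c • z, by rw [pow_add, mul_smul, hz, map_smul]⟩
        · obtain ⟨z', hz'⟩ := hc y hy
          exact ⟨(2 : ℤ_[2]) ^ s • z', by rw [add_comm, pow_add, mul_smul, hz', map_smul]⟩
    refine h3 T fun y hy => ?_
    rw [← hT]
    exact Submodule.subset_span hy
  obtain ⟨c, hc⟩ := h2
  have h4 : ∀ y ∈ S, ∃ z : L, (2 : ℤ_[2]) ^ c • y = f z := by
    intro y hy
    rw [← hT] at hy
    induction hy using Submodule.span_induction with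
    | mem y hy => exact hc y hy
    | zero => exact ⟨0, by rw [smul_zero, map_zero]⟩
    | add a b _ _ ha hb =>
      obtain ⟨z, hz⟩ := ha
      obtain ⟨z', hz'⟩ := hb
      exact ⟨z + z', by rw [smul_add, map_add, hz, hz']⟩
    | smul r a _ ha =>
      obtain ⟨z, hz⟩ := ha
      exact ⟨r • z, by rw [smul_comm, hz, map_smul]⟩
  refine ⟨c, fun n x hx => ?_⟩
  obtain ⟨y, hy⟩ := hx
  obtain ⟨z, hz⟩ := h4 y ⟨n + c, x, hy.symm⟩
  refine ⟨z, hf ?_⟩
  rw [hy, map_smul, ← hz, smul_smul, ← pow_add]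

/-- The same for a submodule. -/
theorem rees_sub {N' N : Type} [AddCommGroup N'] [Module ℤ_[2] N'] [Module.Free ℤ_[2] N']
    [Module.Finite ℤ_[2] N'] [AddCommGroup N] [Module ℤ_[2] N] [Module.Free ℤ_[2] N]
    [Module.Finite ℤ_[2] N] (L : Submodule ℤ_[2] N') (f : N' →ₗ[ℤ_[2]] N)
    (hf : ∀ x ∈ L, f x = 0 → x = 0) :
    ∃ c : ℕ, ∀ (n : ℕ), ∀ x ∈ L, (∃ y, f x = (2 : ℤ_[2]) ^ (n + c) • y) →
      ∃ z ∈ L, x = (2 : ℤ_[2]) ^ n • z := by
  have hinj : Function.Injective (f.domRestrict L) := by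
    rw [← LinearMap.ker_eq_bot, LinearMap.ker_eq_bot']
    rintro ⟨x, hx⟩ h1
    exact Subtype.ext (hf x hx h1)
  obtain ⟨c, hc⟩ := rees (f.domRestrict L) hinj
  refine ⟨c, fun n x hx hy => ?_⟩
  obtain ⟨⟨z, hz⟩, h⟩ := hc n ⟨x, hx⟩ hy
  exact ⟨z, hz, congrArg Subtype.val h⟩

end rees

end Pool.Agent.Q45.OI
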