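import Pool.Agent.Q45.OI.P.PA
import Pool.Agent.Q45.OI.P.PB
import Pool.Agent.Q45.OI.Core

/-!
# Joint open image: the theorem on several modules
-/

set_option autoImplicit false
set_option linter.all false

open Module
open scoped Classical

namespace Pool.Agent.Q45.OI

open Pool.Agent.Q45.OI.KLA

section single

variable {M : Type} [AddCommGroup M] [Module ℤ_[2] M] [Module.Free ℤ_[2] M]
  [Module.Finite ℤ_[2] M]

/-- A power of each automorphism is `1` modulo `4`. -/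
theorem exists_pow_four (g : (End ℤ_[2] M)ˣ) :
    ∃ N : ℕ, 0 < N ∧ Cg 2 ((g ^ N : (End ℤ_[2] M)ˣ) : End ℤ_[2] M) 1 := by
  obtain ⟨X, _, cls, hcls⟩ := exists_cls (End ℤ_[2] M)
  obtain ⟨a, b, hab, h1⟩ := Finite.exists_ne_map_eq_of_infinite
    fun n : ℕ => cls ((g ^ n : (End ℤ_[2] M)ˣ) : End ℤ_[2] M)
  have key : ∀ a b : ℕ, a < b → cls ((g ^ a : (End ℤ_[2] M)ˣ) : End ℤ_[2] M) =
      cls ((g ^ b : (End ℤ_[2] M)ˣ) : End ℤ_[2] M) →
      ∃ N : ℕ, 0 < N ∧ Cg 2 ((g ^ N : (End ℤ_[2] M)ˣ) : End ℤ_[2] M) 1 := by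
    intro a b hab h1
    obtain ⟨C, hC⟩ := (hcls _ _).1 h1
    have h2 : ∃ D, ((g ^ (b - a) : (End ℤ_[2] M)ˣ) : End ℤ_[2] M) = 1 + (2 : ℤ_[2]) • D := by
      refine ⟨-(((g ^ a)⁻¹ : (End ℤ_[2] M)ˣ) : End ℤ_[2] M) * C, ?_⟩
      have h3 : ((g ^ b : (End ℤ_[2] M)ˣ) : End ℤ_[2] M) =
          ((g ^ a : (End ℤ_[2] M)ˣ) : End ℤ_[2] M) * ((g ^ (b - a) : (End ℤ_[2] M)ˣ) : End ℤ_[2] M) := by
        rw [← Units.val_mul, ← pow_add, Nat.add_sub_cancel' hab.le]
      rw [h3] at hC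
      have h4 := congrArg (fun Z => (((g ^ a)⁻¹ : (End ℤ_[2] M)ˣ) : End ℤ_[2] M) * Z) hC
      simp only [mul_sub, ← mul_assoc, Units.inv_mul, one_mul, mul_smul_comm] at h4
      rw [neg_mul, smul_neg, ← h4]
      abel
    obtain ⟨D, hD⟩ := h2
    refine ⟨(b - a) * 2, by omega, D + D * D, ?_⟩
    rw [pow_mul, pow_two, Units.val_mul, hD]
    have h5 : ((2 : ℤ_[2]) ^ 2) • (D + D * D) = (2 : ℤ_[2]) • D + (2 : ℤ_[2]) • D +
        (2 : ℤ_[2]) • (2 : ℤ_[2]) • (D * D) := by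
      rw [smul_add, pow_two, mul_smul, mul_smul, two_smul ℤ_[2] ((2 : ℤ_[2]) • D)]
    rw [h5, add_mul, one_mul, mul_add, mul_one, smul_mul_assoc, mul_smul_comm]
    abel
  rcases lt_or_gt_of_ne hab with h | h
  · exact key a b h h1
  · exact key b a h h1.symm

/-- The automorphisms which are `1` modulo `4` have infinite order. -/
theorem torsion_free_four {g : (End ℤ_[2] M)ˣ} (hg : Cg 2 (g : End ℤ_[2] M) 1) {N : ℕ}
    (hN : 0 < N) (h : g ^ N = 1) : g = 1 := by
  by_contra hne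
  obtain ⟨A, hA⟩ := hg
  obtain ⟨X, hX, h1⟩ := lie_log (H := Subgroup.zpowers g) (Subgroup.mem_zpowers g) hA
  have h2 : InLie (⊥ : Subgroup (End ℤ_[2] M)ˣ) X := by
    refine lie5 M _ _ N hN (fun x hx => ?_) X hX
    obtain ⟨n, rfl⟩ := Subgroup.mem_zpowers_iff.1 hx
    rw [Subgroup.mem_bot, ← zpow_natCast, ← zpow_mul, mul_comm, zpow_mul, zpow_natCast, h, one_zpow]
  have h3 : X = 0 := by
    refine zero_of_div fun n => ?_
    obtain ⟨i, hi, g', hg', C, hC⟩ := h2 n
    rw [Subgroup.mem_bot.1 hg', Units.val_one] at hC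
    refine ⟨-C, ?_⟩
    apply smul_cancel (n := i)
    rw [smul_neg, smul_neg, smul_smul, ← pow_add]
    have h4 : (1 : End ℤ_[2] M) + ((2 : ℤ_[2]) ^ i • X + (2 : ℤ_[2]) ^ (i + n) • C) = 1 + 0 := by
      rw [← add_assoc, ← hC, add_zero]
    exact eq_neg_of_add_eq_zero_left (add_left_cancel h4)
  have h4 : A ≠ 0 := by
    rintro rfl
    apply hne
    apply Units.ext
    rw [hA, smul_zero, add_zero]
    rfl
  obtain ⟨v, hv⟩ : ∃ v, A v ≠ 0 := by
    by_contra h5
    push Not at h5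
    exact h4 (LinearMap.ext h5)
  exact h1 v hv (by rw [h3]; rfl)

/-- The powers with exponent `2 ^ n` of an automorphism which is `1` modulo `2`. -/
theorem pow_two_cg {g : (End ℤ_[2] M)ˣ} (hg : Cg 1 (g : End ℤ_[2] M) 1) (n : ℕ) :
    Cg n ((g ^ 2 ^ n : (End ℤ_[2] M)ˣ) : End ℤ_[2] M) 1 := by
  have h : ∀ n, Cg (n + 1) ((g ^ 2 ^ n : (End ℤ_[2] M)ˣ) : End ℤ_[2] M) 1 := by
    intro n
    induction n with
    | zero => rw [pow_zero, pow_one]; exact hg
    | succ n ih =>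
      obtain ⟨D, hD⟩ := ih
      refine ⟨D + (2 : ℤ_[2]) ^ n • (D * D), ?_⟩
      rw [pow_succ, pow_mul, pow_two, Units.val_mul, hD]
      have h5 : (2 : ℤ_[2]) ^ (n + 1 + 1) • (D + (2 : ℤ_[2]) ^ n • (D * D)) =
          (2 : ℤ_[2]) ^ (n + 1) • D + (2 : ℤ_[2]) ^ (n + 1) • D +
          (2 : ℤ_[2]) ^ (n + 1) • (2 : ℤ_[2]) ^ (n + 1) • (D * D) := by
        rw [smul_add, smul_smul, smul_smul, ← pow_add, ← pow_add, pow_succ (2 : ℤ_[2]) (n + 1),
          mul_smul, two_smul, smul_add]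
        congr 2
        congr 1
        omega
      rw [h5, add_mul, one_mul, mul_add, mul_one, smul_mul_assoc, mul_smul_comm]
      abel
  exact Cg.mono (Nat.le_succ n) (h n)

end single

section multi

variable {ι : Type} [Fintype ι] {M V : ι → Type} [∀ i, AddCommGroup (M i)]
  [∀ i, Module ℤ_[2] (M i)] [∀ i, Module.Free ℤ_[2] (M i)] [∀ i, Module.Finite ℤ_[2] (M i)]
  [∀ i, AddCommGroup (V i)] [∀ i, Module (ZMod 2) (V i)] [∀ i, Module.Finite (ZMod 2) (V i)]
  {G : Type} [Group G]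

/-- The diagonal endomorphisms. -/
noncomputable def diag : (∀ i, End ℤ_[2] (M i)) →* End ℤ_[2] (∀ i, M i) where
  toFun a := LinearMap.pi fun i => (a i) ∘ₗ (LinearMap.proj i)
  map_one' := rfl
  map_mul' _ _ := rfl

omit [Fintype ι] [∀ i, Module.Free ℤ_[2] (M i)] [∀ i, Module.Finite ℤ_[2] (M i)] in
theorem diag_apply (a : ∀ i, End ℤ_[2] (M i)) (x : ∀ i, M i) (i : ι) : diag a x i = a i (x i) := rfl

/-- The endomorphism with one block. -/
noncomputable def incl (i : ι) : End ℤ_[2] (M i) →ₗ[ℤ_[2]] End ℤ_[2] (∀ i, M i) where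
  toFun a := (LinearMap.single ℤ_[2] M i) ∘ₗ a ∘ₗ (LinearMap.proj i)
  map_add' a b := by
    rw [LinearMap.add_comp, LinearMap.comp_add]
  map_smul' c a := by
    rw [LinearMap.smul_comp, LinearMap.comp_smul]
    rfl

omit [Fintype ι] [∀ i, Module.Free ℤ_[2] (M i)] [∀ i, Module.Finite ℤ_[2] (M i)] in
theorem incl_apply (i : ι) (a : End ℤ_[2] (M i)) (x : ∀ i, M i) :
    incl i a x = Pi.single i (a (x i)) := rfl

/-- The block of an endomorphism. -/
noncomputable def blk (i : ι) : End ℤ_[2] (∀ i, M i) →ₗ[ℤ_[2]] End ℤ_[2] (M i) where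
  toFun A := (LinearMap.proj i) ∘ₗ A ∘ₗ (LinearMap.single ℤ_[2] M i)
  map_add' a b := by
    rw [LinearMap.add_comp, LinearMap.comp_add]
  map_smul' c a := by
    rw [LinearMap.smul_comp, LinearMap.comp_smul]
    rfl

omit [Fintype ι] [∀ i, Module.Free ℤ_[2] (M i)] [∀ i, Module.Finite ℤ_[2] (M i)] in
theorem blk_apply (i : ι) (A : End ℤ_[2] (∀ i, M i)) (m : M i) :
    blk i A m = A (Pi.single i m) i := rfl

/-- The projector. -/
noncomputable def pj (i : ι) : End ℤ_[2] (∀ i, M i) := incl i 1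

omit [Fintype ι] [∀ i, Module.Free ℤ_[2] (M i)] [∀ i, Module.Finite ℤ_[2] (M i)] in
theorem pj_apply (i : ι) (x : ∀ i, M i) : pj i x = Pi.single i (x i) := rfl

omit [Fintype ι] [∀ i, Module.Free ℤ_[2] (M i)] [∀ i, Module.Finite ℤ_[2] (M i)] in
theorem diag_pj (a : ∀ i, End ℤ_[2] (M i)) (i : ι) : diag a * pj i = pj i * diag a := by
  ext1 x
  funext j
  rw [End.mul_apply, End.mul_apply, diag_apply, pj_apply, pj_apply, diag_apply]
  by_cases h : j = i
  · subst h
    rw [Pi.single_eq_same, Pi.single_eq_same]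
  · rw [Pi.single_eq_of_ne h, Pi.single_eq_of_ne h, map_zero]

omit [Fintype ι] [∀ i, Module.Free ℤ_[2] (M i)] [∀ i, Module.Finite ℤ_[2] (M i)] in
/-- The blocks of an endomorphism which commutes with the projectors. -/
theorem apply_blk {A : End ℤ_[2] (∀ i, M i)} {i : ι} (hA : A * pj i = pj i * A) (x : ∀ i, M i) :
    A x i = blk i A (x i) := by
  have h1 := congrFun (LinearMap.congr_fun hA x) i
  rw [End.mul_apply, End.mul_apply, pj_apply, pj_apply, Pi.single_eq_same] at h1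
  rw [blk_apply, h1]

omit [Fintype ι] [∀ i, Module.Free ℤ_[2] (M i)] [∀ i, Module.Finite ℤ_[2] (M i)] in
theorem incl_blk {A : End ℤ_[2] (∀ i, M i)} {i : ι} (hA : A * pj i = pj i * A) :
    incl i (blk i A) = A * pj i := by
  rw [hA]
  ext1 x
  rw [End.mul_apply, pj_apply, incl_apply, apply_blk hA]

omit [∀ i, Module.Free ℤ_[2] (M i)] [∀ i, Module.Finite ℤ_[2] (M i)] in
theorem sum_pj : ∑ i, (pj i : End ℤ_[2] (∀ i, M i)) = 1 := by
  refine LinearMap.ext fun x => ?_
  funext j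
  rw [LinearMap.sum_apply, Finset.sum_apply, End.one_apply]
  simp only [pj_apply]
  rw [Finset.sum_eq_single j]
  · rw [Pi.single_eq_same]
  · intro b _ hb
    rw [Pi.single_eq_of_ne hb.symm]
  · intro h
    exact absurd (Finset.mem_univ j) h

omit [Fintype ι] [∀ i, Module.Free ℤ_[2] (M i)] [∀ i, Module.Finite ℤ_[2] (M i)] in
theorem blk_diag_mul (a : ∀ i, End ℤ_[2] (M i)) (i : ι) (A : End ℤ_[2] (∀ i, M i)) :
    blk i (diag a * A) = a i * blk i A := rfl

omit [Fintype ι] [∀ i, Module.Free ℤ_[2] (M i)] [∀ i, Module.Finite ℤ_[2] (M i)] in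
theorem diag_single (a : ∀ i, End ℤ_[2] (M i)) (i : ι) (m : M i) :
    diag a (Pi.single i m) = Pi.single i (a i m) := by
  funext j
  rw [diag_apply]
  by_cases h : j = i
  · subst h
    rw [Pi.single_eq_same, Pi.single_eq_same]
  · rw [Pi.single_eq_of_ne h, Pi.single_eq_of_ne h, map_zero]

omit [Fintype ι] [∀ i, Module.Free ℤ_[2] (M i)] [∀ i, Module.Finite ℤ_[2] (M i)] in
theorem blk_mul_diag (a : ∀ i, End ℤ_[2] (M i)) (i : ι) (A : End ℤ_[2] (∀ i, M i)) :
    blk i (A * diag a) = blk i A * a i := by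
  ext1 m
  rw [blk_apply, End.mul_apply, End.mul_apply, blk_apply, diag_single]

omit [Fintype ι] [∀ i, Module.Free ℤ_[2] (M i)] [∀ i, Module.Finite ℤ_[2] (M i)] in
theorem diag_incl (a b : ∀ i, End ℤ_[2] (M i)) (i : ι) (A : End ℤ_[2] (M i)) :
    diag a * incl i A * diag b = incl i (a i * A * b i) := by
  ext1 x
  rw [End.mul_apply, End.mul_apply, incl_apply, incl_apply, diag_single, diag_apply]
  rfl

/-- The action on the product. -/
noncomputable def tot (ρ : ∀ i, G →* (End ℤ_[2] (M i))ˣ) : G →* (End ℤ_[2] (∀ i, M i))ˣ :=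
  (Units.map (diag (M := M))).comp (MulEquiv.piUnits.symm.toMonoidHom.comp (MonoidHom.pi ρ))

omit [Fintype ι] [∀ i, Module.Free ℤ_[2] (M i)] [∀ i, Module.Finite ℤ_[2] (M i)] in
theorem tot_val (ρ : ∀ i, G →* (End ℤ_[2] (M i))ˣ) (T : G) :
    ((tot ρ T : (End ℤ_[2] (∀ i, M i))ˣ) : End ℤ_[2] (∀ i, M i)) =
      diag fun i => (ρ i T : End ℤ_[2] (M i)) := rfl

omit [Fintype ι] [∀ i, Module.Free ℤ_[2] (M i)] [∀ i, Module.Finite ℤ_[2] (M i)] in
theorem tot_inv (ρ : ∀ i, G →* (End ℤ_[2] (M i))ˣ) (T : G) :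
    (((tot ρ T)⁻¹ : (End ℤ_[2] (∀ i, M i))ˣ) : End ℤ_[2] (∀ i, M i)) =
      diag fun i => (((ρ i T)⁻¹ : (End ℤ_[2] (M i))ˣ) : End ℤ_[2] (M i)) := rfl

/-- The group of the diagonal automorphisms which preserve the forms. -/
def diagO (β : ∀ i, M i →ₗ[ℤ_[2]] M i →ₗ[ℤ_[2]] ℤ_[2]) : Subgroup (End ℤ_[2] (∀ i, M i))ˣ where
  carrier := {g | (∀ i, (g : End ℤ_[2] (∀ i, M i)) * pj i = pj i * (g : End ℤ_[2] (∀ i, M i))) ∧
    ∀ i x y, β i ((g : End ℤ_[2] (∀ i, M i)) x i) ((g : End ℤ_[2] (∀ i, M i)) y i) = β i (x i) (y i)}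
  mul_mem' := by
    rintro g h ⟨hg1, hg2⟩ ⟨hh1, hh2⟩
    refine ⟨fun i => ?_, fun i x y => ?_⟩
    · rw [Units.val_mul, mul_assoc, hh1, ← mul_assoc, hg1, mul_assoc]
    · rw [Units.val_mul, End.mul_apply, End.mul_apply, hg2, hh2]
  one_mem' := ⟨fun i => by rw [Units.val_one, one_mul, mul_one], fun i x y => rfl⟩
  inv_mem' := by
    rintro g ⟨hg1, hg2⟩
    have h2 : ∀ z, (g : End ℤ_[2] (∀ i, M i)) (((g⁻¹ : (End ℤ_[2] (∀ i, M i))ˣ) :
        End ℤ_[2] (∀ i, M i)) z) = z := by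
      intro z
      rw [← End.mul_apply, Units.mul_inv]
      rfl
    refine ⟨fun i => ?_, fun i x y => ?_⟩
    · have h1 := hg1 i
      calc ((g⁻¹ : (End ℤ_[2] (∀ i, M i))ˣ) : End ℤ_[2] (∀ i, M i)) * pj i
          = ((g⁻¹ : (End ℤ_[2] (∀ i, M i))ˣ) : End ℤ_[2] (∀ i, M i)) * (pj i *
              ((g : End ℤ_[2] (∀ i, M i)) * ((g⁻¹ : (End ℤ_[2] (∀ i, M i))ˣ) :
                End ℤ_[2] (∀ i, M i)))) := by rw [Units.mul_inv, mul_one]
        _ = ((g⁻¹ : (End ℤ_[2] (∀ i, M i))ˣ) : End ℤ_[2] (∀ i, M i)) *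
              ((g : End ℤ_[2] (∀ i, M i)) * pj i) * ((g⁻¹ : (End ℤ_[2] (∀ i, M i))ˣ) :
                End ℤ_[2] (∀ i, M i)) := by rw [h1]; simp only [mul_assoc]
        _ = _ := by rw [← mul_assoc, Units.inv_mul, one_mul]
    · have h1 := hg2 i (((g⁻¹ : (End ℤ_[2] (∀ i, M i))ˣ) : End ℤ_[2] (∀ i, M i)) x)
        (((g⁻¹ : (End ℤ_[2] (∀ i, M i))ˣ) : End ℤ_[2] (∀ i, M i)) y)
      rw [h2, h2] at h1
      exact h1.symm

/-- The data for the theorem on several modules. -/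
structure Fam (ρ : ∀ i, G →* (End ℤ_[2] (M i))ˣ) (κ : ∀ i, M i →+ V i)
    (act : ∀ i, G →* (V i ≃ₗ[ZMod 2] V i)) (β : ∀ i, M i →ₗ[ℤ_[2]] M i →ₗ[ℤ_[2]] ℤ_[2]) :
    Prop where
  ker : ∀ i m, κ i m = 0 ↔ ∃ m', m = (2 : ℤ_[2]) • m'
  eqv : ∀ i T m, κ i ((ρ i T : End ℤ_[2] (M i)) m) = act i T (κ i m)
  large : ∀ i, IsLarge (act i).range
  card : ∀ i, 8 ≤ Nat.card (V i)
  ind : ∀ i, ∃ T, act i T ^ 3 = 1 ∧ act i T ≠ 1 ∧ ∀ j, j ≠ i → act j T = 1
  ne : ∀ i, β i ≠ 0
  symm : ∀ i x y, β i x y = β i y x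
  inv : ∀ i T x y, β i ((ρ i T : End ℤ_[2] (M i)) x) ((ρ i T : End ℤ_[2] (M i)) y) = β i x y
  inf : ∀ i, ∃ T, Cg 2 (ρ i T : End ℤ_[2] (M i)) 1 ∧ ρ i T ≠ 1

variable {ρ : ∀ i, G →* (End ℤ_[2] (M i))ˣ} {κ : ∀ i, M i →+ V i}
  {act : ∀ i, G →* (V i ≃ₗ[ZMod 2] V i)} {β : ∀ i, M i →ₗ[ℤ_[2]] M i →ₗ[ℤ_[2]] ℤ_[2]}

omit [Fintype ι] [∀ i, Module.Finite (ZMod 2) (V i)] in
theorem Fam.surj (h : Fam ρ κ act β) (i : ι) : Function.Surjective (κ i) := by
  have h3 := (h.large i).irr (AddSubgroup.toZModSubmodule 2 (κ i).range) (by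
    rintro _ ⟨T, rfl⟩ _ ⟨m, rfl⟩
    exact ⟨(ρ i T : End ℤ_[2] (M i)) m, h.eqv i T m⟩)
  rcases h3 with h3 | h3
  · exfalso
    apply h.ne i
    have h4 : ∀ m, κ i m = 0 := by
      intro m
      have h5 : κ i m ∈ AddSubgroup.toZModSubmodule 2 (κ i).range := ⟨m, rfl⟩
      rw [h3] at h5
      exact (Submodule.mem_bot _).1 h5
    have h5 : ∀ m : M i, m = 0 := zero_of_two fun m => (h.ker i m).1 (h4 m)
    refine LinearMap.ext fun x => ?_
    rw [h5 x, map_zero]
    rfl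
  · intro v
    have h5 : v ∈ AddSubgroup.toZModSubmodule 2 (κ i).range := by rw [h3]; trivial
    exact h5

omit [Fintype ι] [∀ i, Module.Finite (ZMod 2) (V i)] in
theorem Fam.dat (h : Fam ρ κ act β) (i : ι) : Dat (M i) (V i) (κ i) (ρ i).range (act i).range := by
  refine ⟨h.surj i, h.ker i, h.large i, ?_, ?_⟩
  · rintro _ ⟨T, rfl⟩
    exact ⟨act i T, ⟨T, rfl⟩, h.eqv i T⟩
  · rintro _ ⟨T, rfl⟩
    exact ⟨ρ i T, ⟨T, rfl⟩, h.eqv i T⟩

omit [Fintype ι] [∀ i, Module.Free ℤ_[2] (M i)] [∀ i, Module.Finite ℤ_[2] (M i)]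
  [∀ i, Module.Finite (ZMod 2) (V i)] in
theorem Fam.le (h : Fam ρ κ act β) : (tot ρ).range ≤ diagO β := by
  rintro _ ⟨T, rfl⟩
  refine ⟨fun i => ?_, fun i x y => ?_⟩
  · rw [tot_val]
    exact diag_pj _ i
  · rw [tot_val, diag_apply, diag_apply]
    exact h.inv i T _ _

/-- The endomorphisms in the Lie algebra of the diagonal group. -/
theorem lie_diagO {A : End ℤ_[2] (∀ i, M i)} (hA : InLie (diagO β) A) :
    (∀ i, A * pj i = pj i * A) ∧ ∀ i, blk i A ∈ soS (β i) := by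
  have h1 : ∀ i, A * pj i = pj i * A := fun i => lie_comm (H := diagO β) (fun g hg => hg.1 i) hA
  refine ⟨h1, fun i => ?_⟩
  have h2 := lie3 (∀ i, M i) (diagO β) ((β i).compl₁₂ (LinearMap.proj i) (LinearMap.proj i))
    (fun g hg x y => hg.2 i x y) A hA
  intro x y
  have h3 := h2 (Pi.single i x) (Pi.single i y)
  simp only [LinearMap.compl₁₂_apply, LinearMap.proj_apply, apply_blk (h1 i),
    Pi.single_eq_same] at h3
  exact h3

/-- The submodule of the blocks, up to powers of two. -/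
noncomputable def satBlk (i : ι) (L : Submodule ℤ_[2] (End ℤ_[2] (∀ i, M i))) :
    Submodule ℤ_[2] (End ℤ_[2] (M i)) where
  carrier := {a | ∃ s : ℕ, ∃ A ∈ L, (2 : ℤ_[2]) ^ s • a = blk i A}
  add_mem' := by
    rintro a b ⟨s, A, hA, h⟩ ⟨s', A', hA', h'⟩
    refine ⟨s + s', (2 : ℤ_[2]) ^ s' • A + (2 : ℤ_[2]) ^ s • A',
      add_mem (L.smul_mem _ hA) (L.smul_mem _ hA'), ?_⟩
    rw [smul_add, map_add, map_smul, map_smul, ← h, ← h', smul_smul, smul_smul, pow_add,
      mul_comm ((2 : ℤ_[2]) ^ s')]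
  zero_mem' := ⟨0, 0, zero_mem _, by rw [smul_zero, map_zero]⟩
  smul_mem' := by
    rintro c a ⟨s, A, hA, h⟩
    exact ⟨s, c • A, L.smul_mem c hA, by rw [map_smul, ← h, smul_comm]⟩

/-- **The Lie algebra contains all the skew endomorphisms of each block.** -/
theorem Fam.lie (hl : Lems) (h : Fam ρ κ act β) {A : End ℤ_[2] (∀ i, M i)}
    (hA : InLie (diagO β) A) : InLie (tot ρ).range A := by
  obtain ⟨L, hL, hLsat, hLconj, -⟩ := lie1 (∀ i, M i) (tot ρ).range
  have hLd : ∀ A ∈ L, (∀ i, A * pj i = pj i * A) ∧ ∀ i, blk i A ∈ soS (β i) := by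
    intro A hA
    refine lie_diagO ?_
    have h1 := (hL A).1 hA
    intro n
    obtain ⟨i, hi, g, hg, h2⟩ := h1 n
    exact ⟨i, hi, g, h.le hg, h2⟩
  -- one block
  have key : ∀ i, ∀ a ∈ soS (β i), incl i a ∈ L := by
    intro i
    have hinv : ∀ g ∈ (ρ i).range, InO (β i) (g : End ℤ_[2] (M i)) := by
      rintro _ ⟨T, rfl⟩ x y
      exact h.inv i T x y
    -- the blocks of the elements of `L`
    have hP : satBlk i L = soS (β i) := by
      refine stable_all hl.lo hl.lx hl.lr (h.dat i) (β i) (h.ne i) (h.symm i) hinv ?_ ?_ ?_ ?_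
      · rintro a ⟨s, A, hA, h1⟩
        exact ⟨s + 1, A, hA, by rw [pow_succ, mul_smul, h1]⟩
      · rintro _ ⟨T, rfl⟩ a ⟨s, A, hA, h1⟩
        refine ⟨s, _, hLconj (tot ρ T) ⟨T, rfl⟩ A hA, ?_⟩
        rw [tot_inv, tot_val, blk_mul_diag, blk_diag_mul, ← h1, mul_smul_comm, smul_mul_assoc]
      · rintro a ⟨s, A, hA, h1⟩
        have h2 : (2 : ℤ_[2]) ^ s • a ∈ soS (β i) := by rw [h1]; exact (hLd A hA).2 i
        intro x y
        have h3 := h2 x y
        simp only [LinearMap.smul_apply, map_smul, smul_eq_mul] at h3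
        have h4 : (2 : ℤ_[2]) ^ s * (β i (a x) y + β i x (a y)) = 0 := by linear_combination h3
        exact (mul_eq_zero.1 h4).resolve_left (pow_ne_zero s two_ne)
      · obtain ⟨T, hT, hT1⟩ := h.inf i
        obtain ⟨N, hN, hN1⟩ := exists_pow_four (tot ρ T)
        obtain ⟨A, hA⟩ := hN1
        obtain ⟨X, hX, hX1⟩ := lie_log (H := (tot ρ).range)
          (pow_mem (⟨T, rfl⟩ : tot ρ T ∈ (tot ρ).range) N) hA
        have hTN : ρ i T ^ N ≠ 1 := fun h1 => hT1 (torsion_free_four hT hN h1)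
        obtain ⟨m, hm⟩ : ∃ m, ((ρ i T ^ N : (End ℤ_[2] (M i))ˣ) : End ℤ_[2] (M i)) m ≠ m := by
          by_contra h2
          push Not at h2
          exact hTN (Units.ext (LinearMap.ext h2))
        have hval : ((tot ρ T ^ N : (End ℤ_[2] (∀ i, M i))ˣ) : End ℤ_[2] (∀ i, M i)) =
            diag fun i => ((ρ i T ^ N : (End ℤ_[2] (M i))ˣ) : End ℤ_[2] (M i)) := by
          rw [← map_pow, tot_val]
          congr 1
          funext i
          rw [map_pow]
        have hAm : A (Pi.single i m) ≠ 0 := by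
          intro h2
          apply hm
          have h3 := LinearMap.congr_fun hA (Pi.single i m)
          rw [hval, diag_single, LinearMap.add_apply, LinearMap.smul_apply, h2, smul_zero, add_zero,
            End.one_apply] at h3
          have h4 := congrFun h3 i
          rw [Pi.single_eq_same, Pi.single_eq_same] at h4
          exact h4
        have hXL : X ∈ L := (hL X).2 hX
        have hXm := hX1 _ hAm
        have hbm : blk i X m ≠ 0 := by
          intro h2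
          apply hXm
          have h3 := LinearMap.congr_fun ((hLd X hXL).1 i) (Pi.single i m)
          rw [End.mul_apply, End.mul_apply, pj_apply, pj_apply, Pi.single_eq_same] at h3
          rw [h3, ← blk_apply, h2, Pi.single_zero]
        intro h2
        have h3 : blk i X ∈ satBlk i L := ⟨0, X, hXL, by rw [pow_zero, one_smul]⟩
        rw [h2, Submodule.mem_bot] at h3
        exact hbm (by rw [h3]; rfl)
    -- the elements of `L` with one block
    have hQ : L.comap (incl i) = soS (β i) := by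
      have hconjT : ∀ T a, incl i ((ρ i T : End ℤ_[2] (M i)) * a *
          (((ρ i T)⁻¹ : (End ℤ_[2] (M i))ˣ) : End ℤ_[2] (M i))) =
          (tot ρ T : End ℤ_[2] (∀ i, M i)) * incl i a *
            (((tot ρ T)⁻¹ : (End ℤ_[2] (∀ i, M i))ˣ) : End ℤ_[2] (∀ i, M i)) := by
        intro T a
        rw [tot_inv, tot_val, diag_incl]
      have hbi : ∀ a : End ℤ_[2] (M i), blk i (incl i a) = a := by
        intro a
        refine LinearMap.ext fun m => ?_
        rw [blk_apply, incl_apply, Pi.single_eq_same, Pi.single_eq_same]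
      refine stable_all hl.lo hl.lx hl.lr (h.dat i) (β i) (h.ne i) (h.symm i) hinv ?_ ?_ ?_ ?_
      · intro a ha
        rw [Submodule.mem_comap, map_smul] at ha
        exact hLsat _ ha
      · rintro _ ⟨T, rfl⟩ a ha
        rw [Submodule.mem_comap] at ha ⊢
        rw [hconjT]
        exact hLconj (tot ρ T) ⟨T, rfl⟩ _ ha
      · intro a ha
        have h1 := (hLd _ ha).2 i
        rwa [hbi] at h1
      · intro hbot
        obtain ⟨T, hT3, hT1, hTj⟩ := h.ind i
        have hγ : ∃ v, act i T v ≠ v := by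
          by_contra h2
          push Not at h2
          exact hT1 (LinearEquiv.ext h2)
        obtain ⟨a, ha, m, hm⟩ := (h.dat i).not_comm (β i) (h.ne i) (h.symm i) hinv (h.card i) hγ
        rw [← hP] at ha
        obtain ⟨s, A, hAL, hA⟩ := ha
        -- the map which forgets the block
        let f : End ℤ_[2] (∀ i, M i) →ₗ[ℤ_[2]] End ℤ_[2] (∀ i, M i) :=
          { toFun := fun x => x * (1 - pj i)
            map_add' := fun x y => add_mul _ _ _
            map_smul' := fun c x => smul_mul_assoc _ _ _ }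
        have hf : ∀ x : End ℤ_[2] (∀ i, M i), f x = x * (1 - pj i) := fun x => rfl
        have hfinj : ∀ x ∈ L, f x = 0 → x = 0 := by
          intro x hx h1
          have h2 : x = x * pj i := by
            have h3 : x * (1 - pj i) = 0 := h1
            rw [mul_sub, mul_one, sub_eq_zero] at h3
            exact h3
          have h3 : incl i (blk i x) = x := by rw [incl_blk ((hLd x hx).1 i), ← h2]
          have h4 : blk i x ∈ L.comap (incl i) := by
            rw [Submodule.mem_comap, h3]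
            exact hx
          rw [hbot, Submodule.mem_bot] at h4
          rw [h4, map_zero] at h3
          exact h3.symm
        obtain ⟨c, hc⟩ := rees_sub L f hfinj
        -- the conjugates of `A`
        set n := 2 * (s + 1 + c) with hn
        set T' := T ^ 2 ^ n with hT'
        have hT'j : ∀ j, j ≠ i → Cg (s + 1 + c) (ρ j T' : End ℤ_[2] (M j)) 1 := by
          intro j hj
          rw [hT', map_pow]
          refine Cg.mono (by omega) (pow_two_cg (n := n) ?_)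
          rw [cg_iff]
          intro m'
          have h1 : κ j ((ρ j T : End ℤ_[2] (M j)) m' - m') = 0 := by
            rw [map_sub, h.eqv, hTj j hj]
            exact sub_self _
          obtain ⟨b, hb⟩ := (h.ker j _).1 h1
          exact ⟨b, by rw [pow_one, End.one_apply, hb]⟩
        have hT'i : act i T' = act i T := by
          rw [hT', map_pow]
          have h1 : 2 ^ n % 3 = 1 := by
            rw [hn, pow_mul]
            norm_num [Nat.pow_mod]
          have h2 : 2 ^ n = 3 * (2 ^ n / 3) + 1 := by omega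
          rw [h2, pow_add, pow_mul, hT3, one_pow, one_mul, pow_one]
        set A' := (tot ρ T' : End ℤ_[2] (∀ i, M i)) * A *
            (((tot ρ T')⁻¹ : (End ℤ_[2] (∀ i, M i))ˣ) : End ℤ_[2] (∀ i, M i)) - A with hA'
        have hA'L : A' ∈ L := sub_mem (hLconj (tot ρ T') ⟨T', rfl⟩ A hAL) hAL
        have hA'd := (hLd A' hA'L).1
        have hblk : ∀ j, blk j A' = (ρ j T' : End ℤ_[2] (M j)) * blk j A *
            (((ρ j T')⁻¹ : (End ℤ_[2] (M j))ˣ) : End ℤ_[2] (M j)) - blk j A := by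
          intro j
          rw [hA', map_sub, tot_inv, tot_val, blk_mul_diag, blk_diag_mul]
        have hdiv : ∃ y, f A' = (2 : ℤ_[2]) ^ (s + 1 + c) • y := by
          have h1 : ∀ j, j ≠ i → ∃ y, blk j A' = (2 : ℤ_[2]) ^ (s + 1 + c) • y := by
            intro j hj
            obtain ⟨C, hC⟩ := hT'j j hj
            have h2 : (ρ j T' : End ℤ_[2] (M j)) * blk j A - blk j A * (ρ j T' : End ℤ_[2] (M j)) =
                (2 : ℤ_[2]) ^ (s + 1 + c) • (C * blk j A - blk j A * C) := by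
              rw [hC, add_mul, mul_add, one_mul, mul_one, smul_mul_assoc, mul_smul_comm, smul_sub]
              abel
            refine ⟨(C * blk j A - blk j A * C) *
              (((ρ j T')⁻¹ : (End ℤ_[2] (M j))ˣ) : End ℤ_[2] (M j)), ?_⟩
            rw [← smul_mul_assoc, ← h2, sub_mul, mul_assoc (blk j A), Units.mul_inv, mul_one, hblk]
          have h2 : ∀ x, ∃ z, f A' x - (0 : End ℤ_[2] (∀ i, M i)) x =
              (2 : ℤ_[2]) ^ (s + 1 + c) • z := by
            intro x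
            choose y hy using h1
            refine ⟨fun j => if hj : j = i then 0 else y j hj (x j), ?_⟩
            rw [LinearMap.zero_apply, sub_zero, hf]
            funext j
            rw [End.mul_apply]
            have h3 : A' ((1 - pj i : End ℤ_[2] (∀ i, M i)) x) j =
                blk j A' (((1 - pj i : End ℤ_[2] (∀ i, M i)) x) j) := apply_blk (hA'd j) _
            have h4 : ((1 - pj i : End ℤ_[2] (∀ i, M i)) x) j = x j - (Pi.single i (x i) : ∀ i, M i) j :=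
              rfl
            rw [Pi.smul_apply]
            refine h3.trans ?_
            rw [h4]
            by_cases hj : j = i
            · subst hj
              rw [Pi.single_eq_same, sub_self, map_zero, dif_pos rfl, smul_zero]
            · rw [Pi.single_eq_of_ne hj, sub_zero, dif_neg hj, hy j hj]
              rfl
          obtain ⟨C, hC⟩ := (cg_iff _ _ _).2 h2
          exact ⟨C, by rw [hC, zero_add]⟩
        obtain ⟨z, hz, hz2⟩ := hc (s + 1) A' hA'L hdiv
        have h1 := hblk i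
        rw [hz2, map_smul, ← hA, mul_smul_comm, smul_mul_assoc, ← smul_sub, pow_succ, mul_smul] at h1
        have h2 := smul_cancel h1
        -- apply it to the image of `m`
        have h3 : (ρ i T' : End ℤ_[2] (M i)) * a - a * (ρ i T' : End ℤ_[2] (M i)) =
            (2 : ℤ_[2]) • (blk i z * (ρ i T' : End ℤ_[2] (M i))) := by
          rw [← smul_mul_assoc, h2, sub_mul, mul_assoc, Units.inv_mul, mul_one]
        have h4 := LinearMap.congr_fun h3 m
        apply hm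
        have h5 : κ i ((ρ i T' : End ℤ_[2] (M i)) (a m)) = κ i (a ((ρ i T' : End ℤ_[2] (M i)) m)) := by
          rw [← sub_eq_zero, ← map_sub, h.ker]
          exact ⟨_, h4⟩
        rw [h.eqv, hT'i] at h5
        rw [h5, ← sub_eq_zero, ← map_sub, ← map_sub, h.ker]
        have h6 : κ i ((ρ i T' : End ℤ_[2] (M i)) m -
            Function.surjInv (h.dat i).surj (act i T (κ i m))) = 0 := by
          rw [map_sub, h.eqv, hT'i, Function.surjInv_eq (h.dat i).surj, sub_self]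
        obtain ⟨b, hb⟩ := (h.ker i _).1 h6
        exact ⟨a b, by rw [hb, map_smul]⟩
    intro a ha
    rw [← hQ] at ha
    exact ha
  obtain ⟨hAd, hAb⟩ := lie_diagO hA
  rw [← hL]
  have h1 : A = ∑ i, incl i (blk i A) := by
    rw [Finset.sum_congr rfl fun i _ => incl_blk (hAd i), ← Finset.mul_sum, sum_pj, mul_one]
  rw [h1]
  exact sum_mem fun i _ => key i _ (hAb i)

/-- **Joint open image.** -/
theorem Fam.joint (hl : Lems) (h : Fam ρ κ act β) (P : Subgroup G) (N : ℕ) (hN : 0 < N)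
    (hP : ∀ T, T ^ N ∈ P) : ∃ j : ℕ,
      ∀ α : ∀ i, M i ≃ₗ[ℤ_[2]] M i, (∀ i x y, β i (α i x) (α i y) = β i x y) →
        (∀ i m, ∃ m', α i m - m = (2 : ℤ_[2]) ^ j • m') →
        ∀ n, ∃ T ∈ P, ∀ i m, ∃ m', (ρ i T : End ℤ_[2] (M i)) m - α i m = (2 : ℤ_[2]) ^ n • m' := by
  have h1 : ∀ A, InLie (diagO β) A → InLie (P.map (tot ρ)) A := by
    intro A hA
    refine lie5 _ _ _ N hN ?_ A (h.lie hl hA)
    rintro _ ⟨T, rfl⟩
    exact ⟨T ^ N, hP T, by rw [map_pow]⟩
  obtain ⟨j, hj⟩ := lie_open (H := P.map (tot ρ)) (G := diagO β) (by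
    rintro _ ⟨T, -, rfl⟩
    exact h.le ⟨T, rfl⟩) h1
  refine ⟨j, fun α hα hα1 n => ?_⟩
  let u : ∀ i, (End ℤ_[2] (M i))ˣ := fun i =>
    (LinearMap.GeneralLinearGroup.generalLinearEquiv ℤ_[2] _).symm (α i)
  let U : (End ℤ_[2] (∀ i, M i))ˣ := Units.map (diag (M := M)) (MulEquiv.piUnits.symm u)
  have hU : (U : End ℤ_[2] (∀ i, M i)) = diag fun i => (u i : End ℤ_[2] (M i)) := rfl
  have hu : ∀ i m, (u i : End ℤ_[2] (M i)) m = α i m := fun i m => rfl
  obtain ⟨_, ⟨T, hT, rfl⟩, h5⟩ := hj U ⟨fun i => by rw [hU]; exact diag_pj _ i, fun i x y => by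
      rw [hU, diag_apply, diag_apply, hu, hu]
      exact hα i _ _⟩ ((cg_iff _ _ _).2 fun x => by
        choose b hb using hα1
        refine ⟨fun i => b i (x i), ?_⟩
        funext i
        exact hb i (x i)) n
  refine ⟨T, hT, fun i m => ?_⟩
  obtain ⟨b, hb⟩ := (cg_iff _ _ _).1 h5 (Pi.single i m)
  refine ⟨b i, ?_⟩
  have h6 := congrFun hb i
  rw [tot_val, hU, diag_single, diag_single, Pi.sub_apply, Pi.single_eq_same, Pi.single_eq_same,
    Pi.smul_apply] at h6
  exact h6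

end multi

end Pool.Agent.Q45.OI
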