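import Pool.Agent.Q45.OI.Geo
import Pool.Agent.Q45.OI.J.LARGE

/-!
# Joint open image: the data of one double plane
-/

set_option autoImplicit false
set_option linter.all false

open Polynomial IsDedekindDomain WithZero Module
open scoped Classical

namespace Pool.Agent.Q45.OI

open Pool.Agent.Q45.TW (IsGeom)
open Pool.Agent.Q45.GP (Regular)
open Pool.Agent.Y160.SQ
open Pool.Agent.TH115.GD (incl rs ak Sep Comp)
open Pool.Agent.Q45.GM

section core

variable {k k' K F L S : Type} [Field k] [Field k'] [Algebra k k'] [IsSepClosed k']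
  [Algebra.IsSeparable k k'] [Field K] [Algebra k[X] K] [Field F] [Algebra k'[X] F] [Algebra K F]
  (B : Type) [CommRing B] [IsDedekindDomain B] [Algebra k'[X] B] [Algebra B F]
  [IsScalarTower k'[X] B F] [IsFractionRing B F] [IsIntegralClosure B k'[X] F]
  [Field L] [Algebra F L] [Algebra K L] [IsScalarTower K F L] [Algebra L (Sep F)]
  [IsScalarTower F L (Sep F)] [CommRing S] [IsDedekindDomain S] [Algebra S L] [IsFractionRing S L]
  [Algebra B S] [Algebra.IsIntegral B S] [Algebra B L] [IsScalarTower B F L]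
  [IsScalarTower B S L] [Module.IsTorsionFree B S] {f : K[X]} (hgd : Good 2 (-1) f) {a : Sep F}
  {θ : L}

include hgd in
/-- The module, its reduction and the action of the group. -/
theorem core_dat (hF : IsGeom k k' K F) {fB : B[X]}
    (hfB : fB.map (algebraMap B F) = f.map (algebraMap K F)) (hfm : fB.Monic)
    (hreg : Regular F fB) (h : Fld (f := f) a θ)
    {V : Type} [AddCommGroup V] [Module (ZMod 2) V] [Module.Finite (ZMod 2) V] {cl : Lˣ → V}
    (hadd : ∀ z ∈ evS S L, ∀ w ∈ evS S L, cl (z * w) = cl z + cl w)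
    (hzero : ∀ z ∈ evS S L, cl z = 0 ↔ z ∈ sqS L) (hsurj : ∀ v, ∃ z ∈ evS S L, cl z = v)
    (act : (k' ≃ₐ[k] k') → (V ≃ₗ[ZMod 2] V))
    (hact : ∀ τ, ∃ e : L ≃+* L, Fixes K θ e ∧ (∀ x : k', e (algebraMap F L
      (algebraMap k'[X] F (C x))) = algebraMap F L (algebraMap k'[X] F (C (τ x)))) ∧
      ∀ z ∈ evS S L, cl (Units.map (e : L →* L) z) = act τ (cl z)) :
    Module.Finite ℤ_[2] (SelT (F := F) 2 B f 2) ∧
      Module.Free ℤ_[2] (SelT (F := F) 2 B f 2) ∧
      ∃ κ : SelT (F := F) 2 B f 2 →+ V, (∀ m, κ m = 0 ↔ ∃ m', m = (2 : ℤ_[2]) • m') ∧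
        ∀ (T : Sep F ≃ₐ[K] Sep F) (τ : k' ≃ₐ[k] k'), (∀ x, T (cs k' F x) = cs k' F (τ x)) →
          ∀ m, κ (rho B hF f T m) = act τ (κ m) := by
  have hV : IsImg (sqS L) (evS S L) {MonoidHom.id Lˣ} cl (⊥ : Subgroup (V ≃ₗ[ZMod 2] V)) := by
    refine ⟨hadd, hzero, hsurj, ?_, ?_⟩
    · rintro _ rfl
      exact ⟨1, one_mem _, fun z _ => rfl⟩
    · intro g hg
      rw [Subgroup.mem_bot] at hg
      subst hg
      exact ⟨_, rfl, fun z _ => rfl⟩
  have hmem : ∀ m : SelT (F := F) 2 B f 2, ∃ z ∈ evS S L, kM hgd h m = clX z := fun m =>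
    kM_mem (R := S) hgd hfB hfm hreg h m
  obtain ⟨h1, h2⟩ := fin_free hgd h hV.finite (fun m => by
    obtain ⟨z, hz, h1⟩ := hmem m
    exact ⟨z, hz, h1.symm⟩)
  refine ⟨h1, h2, ?_⟩
  obtain ⟨κ, hk1, hk2⟩ := hV.exists_kap (kM (B := B) hgd h) hmem
  refine ⟨κ, fun m => by rw [hk1]; exact kM_zero_iff hgd h m, fun T τ hT m => ?_⟩
  obtain ⟨e, he, he2, he3⟩ := hact τ
  refine hk2 e (act τ) he3 m _ (kM_rho B hgd hF h e he T (fun x => ?_) m)
  rw [hT, he2, ← IsScalarTower.algebraMap_apply F L (Sep F)]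
  rfl

end core

section lift

variable {k k' K F : Type} [Field k] [Field k'] [Algebra k k'] [IsSepClosed k']
  [Algebra.IsSeparable k k'] [Field K] [Algebra k[X] K] [IsFractionRing k[X] K] [Field F]
  [Algebra k'[X] F] [IsFractionRing k'[X] F] [Algebra K F]

/-- Each automorphism of `k'` over `k` extends to the separable closure of `F`. -/
theorem exists_ext (hcomp : ∀ p : k[X], algebraMap K F (algebraMap k[X] K p) =
      algebraMap k'[X] F (p.map (algebraMap k k'))) (τ : k' ≃ₐ[k] k') :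
    ∃ T : Sep F ≃ₐ[K] Sep F, ∀ x, T (cs k' F x) = cs k' F (τ x) := by
  let T1 : k'[X] ≃+* k'[X] := Polynomial.mapEquiv (τ : k' ≃+* k')
  have hT1 : ∀ p : k[X], T1 (p.map (algebraMap k k')) = p.map (algebraMap k k') := by
    intro p
    show (p.map (algebraMap k k')).map ((τ : k' ≃+* k') : k' →+* k') = _
    rw [Polynomial.map_map]
    congr 1
    ext x
    exact τ.commutes x
  let e : F ≃+* F := IsFractionRing.ringEquivOfRingEquiv T1
  have he : ∀ x : k'[X], e (algebraMap k'[X] F x) = algebraMap k'[X] F (T1 x) := fun x =>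
    IsFractionRing.ringEquivOfRingEquiv_algebraMap T1 x
  letI iF : Algebra F (Sep F) := inferInstance
  have heK : ∀ x : K, e (algebraMap K F x) = algebraMap K F x := by
    intro x
    obtain ⟨a, b, hb, rfl⟩ := IsFractionRing.div_surjective (A := k[X]) x
    rw [map_div₀, map_div₀, hcomp, hcomp, he, he, hT1, hT1]
  have h1 := lift_e (K := K) (F := F) (L := F) e heK
  obtain ⟨T, hT⟩ := h1
  refine ⟨T, fun x => ?_⟩
  rw [cs_apply, cs_apply]
  have h2 := hT (algebraMap k'[X] F (C x))
  rw [he] at h2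
  have h3 : T1 (C x) = C (τ x) := by
    show (C x : k'[X]).map ((τ : k' ≃+* k') : k' →+* k') = _
    rw [map_C]
    rfl
  rw [h3] at h2
  exact h2

end lift

section order

open QuadraticMap

variable {V : Type} [AddCommGroup V] [Module (ZMod 2) V] [Module.Finite (ZMod 2) V]

/-- Two orthogonal transvections whose product has order three. -/
theorem exists_three (Q : QuadraticForm (ZMod 2) V) (h6 : 6 ≤ finrank (ZMod 2) V)
    (hnd : ∀ v, (∀ w, polar Q v w = 0) → v = 0) :
    ∃ u v : V, Q u = 1 ∧ Q v = 1 ∧ ∀ s t : V ≃ₗ[ZMod 2] V,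
      (∀ x, s x = x + polar Q x u • u) → (∀ x, t x = x + polar Q x v • v) →
      (s * t) ^ 3 = 1 ∧ s * t ≠ 1 := by
  haveI : Nontrivial V := Module.nontrivial_of_finrank_pos (R := ZMod 2) (by omega)
  obtain ⟨x, hx⟩ := exists_ne (0 : V)
  obtain ⟨u, hu, -⟩ := JLARGE.N1 (Q := Q) hnd h6 hx 0
  have hu0 := JLARGE.ne0 (Q := Q) hu
  obtain ⟨v, hv, huv⟩ := JLARGE.N1 (Q := Q) hnd h6 hu0 1
  have huv' : polar Q u v = 1 := huv
  have hvu : polar Q v u = 1 := by rw [QuadraticMap.polar_comm]; exact huv'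
  have hvv : polar Q v v = 0 := JLARGE.bb_self Q v
  have huu : polar Q u u = 0 := JLARGE.bb_self Q u
  refine ⟨u, v, hu, hv, fun s t hs ht => ?_⟩
  have hst : ∀ y, (s * t) y = y + polar Q y v • (u + v) + polar Q y u • u := by
    intro y
    rw [LinearEquiv.mul_apply, hs, ht, QuadraticMap.polar_add_left, QuadraticMap.polar_smul_left,
      hvu, smul_eq_mul, mul_one, add_smul, smul_add]
    abel
  have h1 : (s * t) u = v := by
    rw [hst, huu, huv', one_smul, zero_smul, add_zero, ← add_assoc, JLARGE.vadd, zero_add]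
  have h2 : (s * t) v = u + v := by
    rw [hst, hvu, hvv, one_smul, zero_smul, add_zero, add_comm]
  constructor
  · apply LinearEquiv.ext
    intro y
    have h3 : ((s * t) ^ 3) y = (s * t) ((s * t) ((s * t) y)) := rfl
    rw [h3, LinearEquiv.coe_one, id]
    have h4 : (s * t) (u + v) = u := by
      rw [map_add, h1, h2, add_comm u v, ← add_assoc, JLARGE.vadd, zero_add]
    set b := polar Q y v with hb
    set c := polar Q y u with hc
    have e1 : (s * t) y = y + b • (u + v) + c • u := hst y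
    have e2 : (s * t) ((s * t) y) = (y + b • (u + v) + c • u) + b • u + c • v := by
      have h5 : (s * t) ((s * t) y) = (s * t) (y + b • (u + v) + c • u) := by rw [e1]
      rw [h5, map_add, map_add, map_smul, map_smul, h4, h1, e1]
    have e3 : (s * t) ((s * t) ((s * t) y)) =
        ((y + b • (u + v) + c • u) + b • u + c • v) + b • v + c • (u + v) := by
      have h5 : (s * t) ((s * t) ((s * t) y)) =
          (s * t) ((y + b • (u + v) + c • u) + b • u + c • v) := by rw [e2]
      have h6 : (s * t) (y + b • (u + v) + c • u) = (y + b • (u + v) + c • u) + b • u + c • v := by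
        rw [← e1, e2, e1]
      rw [h5, map_add, map_add, map_smul, map_smul, h2, h1, h6]
    rw [e3]
    have e4 : ∀ (c : ZMod 2) (w : V), c • w + c • w = 0 := fun c w => JLARGE.vadd (c • w)
    have e5 := e4 b u
    have e6 := e4 b v
    have e7 := e4 c u
    have e8 := e4 c v
    simp only [smul_add]
    calc y + (b • u + b • v) + c • u + b • u + c • v + b • v + (c • u + c • v)
        = y + (b • u + b • u) + (b • v + b • v) + (c • u + c • u) + (c • v + c • v) := by abel
      _ = y := by rw [e5, e6, e7, e8]; simp only [add_zero]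
  · intro h3
    have h4 : (s * t) u = u := by rw [h3]; rfl
    rw [h1] at h4
    rw [h4, huu] at huv'
    exact absurd huv' (by decide)

end order

end Pool.Agent.Q45.OI
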