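import Pool.Agent.Q45.OI.P.PC

/-!
# Joint open image: one block of a representation, commutators, and independence
-/

set_option autoImplicit false
set_option linter.all false

open Module
open scoped Classical

namespace Pool.Agent.Q45.OI

open Pool.Agent.Q45.OI.KLA

section gen

variable {M : Type} [AddCommGroup M] [Module ℤ_[2] M]

theorem comm_aux (c : ℤ_[2]) (X Y : End ℤ_[2] M) :
    (1 + c • X) * (1 + c • Y) - (1 + c • Y) * (1 + c • X) = (c * c) • (X * Y - Y * X) := by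
  simp only [add_mul, mul_add, one_mul, mul_one, smul_mul_assoc, mul_smul_comm, smul_add, smul_smul, smul_sub]
  abel

/-- The Lie algebra and commutators. -/
theorem lie_bracket {H H' : Subgroup (End ℤ_[2] M)ˣ}
    (hc : ∀ g ∈ H, ∀ h ∈ H, g * h * g⁻¹ * h⁻¹ ∈ H') {A B : End ℤ_[2] M} (hA : InLie H A)
    (hB : InLie H B) : InLie H' (A * B - B * A) := by
  intro n
  obtain ⟨i₀, -, hi₀⟩ := stab hA n
  obtain ⟨j₀, -, hj₀⟩ := stab hB n
  obtain ⟨i, hi⟩ : ∃ i, i = i₀ + j₀ + n := ⟨_, rfl⟩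
  obtain ⟨g, hg, C, hC⟩ := hi₀ i (by omega)
  obtain ⟨h, hh, D, hD⟩ := hj₀ i (by omega)
  refine ⟨i + i, by omega, g * h * g⁻¹ * h⁻¹, hc g hg h hh, ?_⟩
  set X := A + (2 : ℤ_[2]) ^ n • C with hX
  set Y := B + (2 : ℤ_[2]) ^ n • D with hY
  have hgX : (g : End ℤ_[2] M) = 1 + (2 : ℤ_[2]) ^ i • X := by
    rw [hC, hX, smul_add, smul_smul, ← pow_add]
    abel
  have hhY : (h : End ℤ_[2] M) = 1 + (2 : ℤ_[2]) ^ i • Y := by
    rw [hD, hY, smul_add, smul_smul, ← pow_add]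
    abel
  have h1 : (g : End ℤ_[2] M) * h - (h : End ℤ_[2] M) * g =
      (2 : ℤ_[2]) ^ (i + i) • (X * Y - Y * X) := by
    rw [hgX, hhY, comm_aux, ← pow_add]
  have h2 : ((g * h * g⁻¹ * h⁻¹ : (End ℤ_[2] M)ˣ) : End ℤ_[2] M) =
      1 + (2 : ℤ_[2]) ^ (i + i) • ((X * Y - Y * X) * ((g⁻¹ * h⁻¹ : (End ℤ_[2] M)ˣ) : End ℤ_[2] M)) := by
    rw [← smul_mul_assoc, ← h1, sub_mul, ← Units.val_mul, ← Units.val_mul, ← Units.val_mul,
      ← Units.val_mul]
    have h3 : h * g * (g⁻¹ * h⁻¹) = 1 := by group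
    have h4 : g * h * (g⁻¹ * h⁻¹) = g * h * g⁻¹ * h⁻¹ := by group
    rw [h3, h4, Units.val_one]
    abel
  have h5 : Cg n ((X * Y - Y * X) * ((g⁻¹ * h⁻¹ : (End ℤ_[2] M)ˣ) : End ℤ_[2] M)) (A * B - B * A) := by
    have h6 : Cg n ((g⁻¹ * h⁻¹ : (End ℤ_[2] M)ˣ) : End ℤ_[2] M) 1 := by
      have h7 : Cg n ((h * g : (End ℤ_[2] M)ˣ) : End ℤ_[2] M) 1 := by
        rw [Units.val_mul]
        have h8 : Cg n (h : End ℤ_[2] M) 1 := Cg.mono (by omega : n ≤ i) ⟨Y, hhY⟩
        have h9 : Cg n (g : End ℤ_[2] M) 1 := Cg.mono (by omega : n ≤ i) ⟨X, hgX⟩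
        have h10 := Cg.mul h8 h9
        rwa [mul_one] at h10
      have h8 := Cg.mul_right ((g⁻¹ * h⁻¹ : (End ℤ_[2] M)ˣ) : End ℤ_[2] M) (Cg.symm h7)
      rw [← Units.val_mul] at h8
      have h3 : h * g * (g⁻¹ * h⁻¹) = 1 := by group
      rw [h3, one_mul, Units.val_one] at h8
      exact h8
    have h7 : Cg n X A := ⟨C, hX⟩
    have h8 : Cg n Y B := ⟨D, hY⟩
    have h9 : Cg n (X * Y - Y * X) (A * B - B * A) := by
      obtain ⟨E, hE⟩ := Cg.mul h7 h8
      obtain ⟨E', hE'⟩ := Cg.mul h8 h7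
      refine ⟨E - E', ?_⟩
      rw [hE, hE', smul_sub]
      abel
    have h10 := Cg.mul h9 h6
    rwa [mul_one] at h10
  rw [h2]
  obtain ⟨E, hE⟩ := h5
  refine ⟨E, ?_⟩
  rw [hE, smul_add, smul_smul, ← pow_add]
  abel

theorem cg_pow_one {n : ℕ} {g : End ℤ_[2] M} (h : Cg n g 1) (q : ℕ) : Cg n (g ^ q) 1 := by
  induction q with
  | zero => rw [pow_zero]; exact Cg.refl _ _
  | succ q ih =>
    have h1 := Cg.mul ih h
    rwa [mul_one, ← pow_succ] at h1

/-- A common exponent modulo `4`. -/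
theorem exists_exp_four [Module.Free ℤ_[2] M] [Module.Finite ℤ_[2] M] :
    ∃ N : ℕ, 0 < N ∧ ∀ g : (End ℤ_[2] M)ˣ, Cg 2 ((g ^ N : (End ℤ_[2] M)ˣ) : End ℤ_[2] M) 1 := by
  obtain ⟨X, _, cls, hcls⟩ := exists_cls (End ℤ_[2] M)
  haveI := Fintype.ofFinite X
  refine ⟨(2 * (Fintype.card X + 1)).factorial, Nat.factorial_pos _, fun g => ?_⟩
  obtain ⟨a, b, hab, h1⟩ := Fintype.exists_ne_map_eq_of_card_lt
    (fun n : Fin (Fintype.card X + 1) => cls ((g ^ (n : ℕ) : (End ℤ_[2] M)ˣ) : End ℤ_[2] M))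
    (by rw [Fintype.card_fin]; exact Nat.lt_succ_self _)
  have key : ∀ a b : ℕ, a < b → b ≤ Fintype.card X → cls ((g ^ a : (End ℤ_[2] M)ˣ) : End ℤ_[2] M) =
      cls ((g ^ b : (End ℤ_[2] M)ˣ) : End ℤ_[2] M) →
      Cg 2 ((g ^ (2 * (Fintype.card X + 1)).factorial : (End ℤ_[2] M)ˣ) : End ℤ_[2] M) 1 := by
    intro a b hab hb h1
    obtain ⟨C, hC⟩ := (hcls _ _).1 h1
    have h2 : ∃ D, ((g ^ (b - a) : (End ℤ_[2] M)ˣ) : End ℤ_[2] M) = 1 + (2 : ℤ_[2]) • D := by
      refine ⟨-(((g ^ a)⁻¹ : (End ℤ_[2] M)ˣ) : End ℤ_[2] M) * C, ?_⟩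
      have h3 : ((g ^ b : (End ℤ_[2] M)ˣ) : End ℤ_[2] M) =
          ((g ^ a : (End ℤ_[2] M)ˣ) : End ℤ_[2] M) * ((g ^ (b - a) : (End ℤ_[2] M)ˣ) : End ℤ_[2] M) := by
        rw [← Units.val_mul, ← pow_add, Nat.add_sub_cancel' hab.le]
      rw [h3] at hC
      have h4 := congrArg (fun Z => (((g ^ a)⁻¹ : (End ℤ_[2] M)ˣ) : End ℤ_[2] M) * Z) hC
      simp only [mul_sub, ← mul_assoc, Units.inv_mul, one_mul, mul_smul_comm] at h4
      rw [neg_mul, smul_neg, ← h4]
      abel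
    obtain ⟨D, hD⟩ := h2
    have h6 : Cg 2 ((g ^ (2 * (b - a)) : (End ℤ_[2] M)ˣ) : End ℤ_[2] M) 1 := by
      refine ⟨D + D * D, ?_⟩
      rw [mul_comm 2, pow_mul, pow_two, Units.val_mul, hD]
      have h5 : ((2 : ℤ_[2]) ^ 2) • (D + D * D) = (2 : ℤ_[2]) • D + (2 : ℤ_[2]) • D +
          (2 : ℤ_[2]) • (2 : ℤ_[2]) • (D * D) := by
        rw [smul_add, pow_two, mul_smul, mul_smul, two_smul ℤ_[2] ((2 : ℤ_[2]) • D)]
      rw [h5, add_mul, one_mul, mul_add, mul_one, smul_mul_assoc, mul_smul_comm]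
      abel
    have h7 : 2 * (b - a) ∣ (2 * (Fintype.card X + 1)).factorial :=
      Nat.dvd_factorial (by omega) (by omega)
    obtain ⟨q, hq⟩ := h7
    rw [hq, pow_mul, Units.val_pow_eq_pow_val]
    exact cg_pow_one h6 q
  have ha := a.2
  have hb := b.2
  rcases lt_or_gt_of_ne hab with h | h
  · exact key a b h (by omega) h1
  · exact key b a h (by omega) h1.symm

/-- The logarithm, with more precision. -/
theorem lie_log2 [Module.Free ℤ_[2] M] [Module.Finite ℤ_[2] M] {H : Subgroup (End ℤ_[2] M)ˣ}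
    {g : (End ℤ_[2] M)ˣ} (hg : g ∈ H) {A : End ℤ_[2] M}
    (hA : (g : End ℤ_[2] M) = 1 + (2 : ℤ_[2]) ^ 2 • A) :
    ∃ X, InLie H X ∧ ∀ m : ℕ, ∃ W C, X = A + (2 : ℤ_[2]) • (W * A * A) + (2 : ℤ_[2]) ^ m • C := by
  let F : ℕ → End ℤ_[2] M := fun m =>
    Nat.rec A (fun m B => B + (2 : ℤ_[2]) ^ (m + 1) • (B * B)) m
  have hF : ∀ m, F (m + 1) = F m + (2 : ℤ_[2]) ^ (m + 1) • (F m * F m) := fun m => rfl
  have hpow : ∀ m, ((g ^ (2 ^ m) : (End ℤ_[2] M)ˣ) : End ℤ_[2] M) =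
      1 + (2 : ℤ_[2]) ^ (2 + m) • F m := by
    intro m
    induction m with
    | zero =>
      rw [pow_zero, pow_one, add_zero]
      exact hA
    | succ m ih =>
      rw [pow_succ, pow_mul, pow_two, Units.val_mul, ih, hF]
      have h1 : (2 : ℤ_[2]) ^ (2 + m) * (2 : ℤ_[2]) ^ (2 + m) =
          2 ^ (2 + (m + 1)) * 2 ^ (m + 1) := by
        rw [← pow_add, ← pow_add]
        congr 1
        omega
      have h2 : (2 : ℤ_[2]) ^ (2 + (m + 1)) • F m = (2 : ℤ_[2]) ^ (2 + m) • F m +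
          (2 : ℤ_[2]) ^ (2 + m) • F m := by
        rw [← add_assoc, pow_succ, mul_smul, two_smul, smul_add]
      rw [smul_add, smul_smul ((2 : ℤ_[2]) ^ (2 + (m + 1))), ← h1, h2, mul_add, mul_one, add_mul,
        one_mul, smul_mul_assoc, mul_smul_comm, smul_smul]
      abel
  have hFA : ∀ m, ∃ W : End ℤ_[2] M, F m = A + (2 : ℤ_[2]) • (W * A * A) ∧ W * A = A * W := by
    intro m
    induction m with
    | zero =>
      exact ⟨0, by rw [zero_mul, zero_mul, smul_zero, add_zero]; rfl, by rw [zero_mul, mul_zero]⟩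
    | succ m ih =>
      obtain ⟨W, hW, hWA⟩ := ih
      obtain ⟨U, hU⟩ : ∃ U, U = 1 + (2 : ℤ_[2]) • (W * A) := ⟨_, rfl⟩
      have hUA : U * A = A * U := by
        rw [hU, add_mul, mul_add, one_mul, mul_one, smul_mul_assoc, mul_smul_comm, hWA, mul_assoc, hWA]
      have hFU : F m = U * A := by
        rw [hW, hU, add_mul, one_mul, smul_mul_assoc]
      refine ⟨W + (2 : ℤ_[2]) ^ m • (U * U), ?_, ?_⟩
      · have h1 : F m * F m = U * U * A * A := by
          rw [hFU]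
          calc U * A * (U * A) = U * (A * U) * A := by simp only [mul_assoc]
            _ = U * (U * A) * A := by rw [hUA]
            _ = _ := by simp only [mul_assoc]
        rw [hF, h1, hW, add_mul W, add_mul (W * A), smul_mul_assoc, smul_mul_assoc, smul_add,
          smul_smul, pow_succ', add_assoc]
      · have h2 : U * U * A = A * (U * U) := by
          rw [mul_assoc, hUA, ← mul_assoc, hUA, mul_assoc]
        rw [add_mul, mul_add, hWA, smul_mul_assoc, mul_smul_comm, h2]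
  obtain ⟨X, hX⟩ := exists_lim_mod F (fun m => ⟨F m * F m, by rw [hF, add_sub_cancel_left]⟩)
  refine ⟨X, fun n => ⟨2 + n, by omega, g ^ (2 ^ n), pow_mem hg _, ?_⟩, fun m => ?_⟩
  · obtain ⟨b, hb⟩ := hX n
    rw [hpow]
    refine ⟨-((2 : ℤ_[2]) • b), ?_⟩
    have h1 : X = F n + (2 : ℤ_[2]) ^ (n + 1) • b := by rw [← hb]; abel
    rw [h1, smul_add, smul_smul, smul_neg, smul_smul, ← pow_add, ← pow_succ,
      show 2 + n + (n + 1) = 2 + n + n + 1 by omega]
    abel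
  · obtain ⟨W, hW, -⟩ := hFA m
    obtain ⟨b, hb⟩ := hX m
    refine ⟨W, (2 : ℤ_[2]) • b, ?_⟩
    rw [smul_smul, ← pow_succ, ← hb, ← hW]
    abel

end gen

section block

variable {MM M V G : Type} [AddCommGroup MM] [Module ℤ_[2] MM] [Module.Free ℤ_[2] MM]
  [Module.Finite ℤ_[2] MM] [AddCommGroup M] [Module ℤ_[2] M] [Module.Free ℤ_[2] M]
  [Module.Finite ℤ_[2] M] [AddCommGroup V] [Module (ZMod 2) V] [Module.Finite (ZMod 2) V]
  [Group G]

/-- The data of one block `M` of the representation `MM`. -/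
structure Blk (ρ : G →* (End ℤ_[2] MM)ˣ) (σ : G →* (End ℤ_[2] M)ˣ) (inc : M →ₗ[ℤ_[2]] MM)
    (prj : MM →ₗ[ℤ_[2]] M) (κ : M →+ V) (act : G →* (V ≃ₗ[ZMod 2] V))
    (β : M →ₗ[ℤ_[2]] M →ₗ[ℤ_[2]] ℤ_[2]) : Prop where
  pi : ∀ m, prj (inc m) = m
  hinc : ∀ T m, (ρ T : End ℤ_[2] MM) (inc m) = inc ((σ T : End ℤ_[2] M) m)
  hprj : ∀ T x, prj ((ρ T : End ℤ_[2] MM) x) = (σ T : End ℤ_[2] M) (prj x)
  ker : ∀ m, κ m = 0 ↔ ∃ m', m = (2 : ℤ_[2]) • m'
  eqv : ∀ T m, κ ((σ T : End ℤ_[2] M) m) = act T (κ m)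
  large : IsLarge act.range
  card : 8 ≤ Nat.card V
  ind : ∃ T, act T ^ 3 = 1 ∧ act T ≠ 1 ∧
    ∀ x, prj x = 0 → ∃ y, (ρ T : End ℤ_[2] MM) x - x = (2 : ℤ_[2]) • y
  ne : β ≠ 0
  symm : ∀ x y, β x y = β y x
  inv : ∀ T x y, β ((σ T : End ℤ_[2] M) x) ((σ T : End ℤ_[2] M) y) = β x y
  inf : ∃ T, Cg 2 (σ T : End ℤ_[2] M) 1 ∧ σ T ≠ 1

variable {ρ : G →* (End ℤ_[2] MM)ˣ} {σ : G →* (End ℤ_[2] M)ˣ} {inc : M →ₗ[ℤ_[2]] MM}
  {prj : MM →ₗ[ℤ_[2]] M} {κ : M →+ V} {act : G →* (V ≃ₗ[ZMod 2] V)}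
  {β : M →ₗ[ℤ_[2]] M →ₗ[ℤ_[2]] ℤ_[2]}

omit [Module.Free ℤ_[2] MM] [Module.Finite ℤ_[2] MM] [Module.Finite (ZMod 2) V] in
theorem Blk.surj (h : Blk ρ σ inc prj κ act β) : Function.Surjective κ := by
  have h3 := h.large.irr (AddSubgroup.toZModSubmodule 2 κ.range) (by
    rintro _ ⟨T, rfl⟩ _ ⟨m, rfl⟩
    exact ⟨(σ T : End ℤ_[2] M) m, h.eqv T m⟩)
  rcases h3 with h3 | h3
  · exfalso
    apply h.ne
    have h4 : ∀ m, κ m = 0 := by
      intro m
      have h5 : κ m ∈ AddSubgroup.toZModSubmodule 2 κ.range := ⟨m, rfl⟩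
      rw [h3] at h5
      exact (Submodule.mem_bot _).1 h5
    have h5 : ∀ m : M, m = 0 := zero_of_two fun m => (h.ker m).1 (h4 m)
    refine LinearMap.ext fun x => ?_
    rw [h5 x, map_zero]
    rfl
  · intro v
    have h5 : v ∈ AddSubgroup.toZModSubmodule 2 κ.range := by rw [h3]; trivial
    exact h5

omit [Module.Free ℤ_[2] MM] [Module.Finite ℤ_[2] MM] [Module.Finite (ZMod 2) V] in
theorem Blk.dat (h : Blk ρ σ inc prj κ act β) : Dat M V κ σ.range act.range := by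
  refine ⟨h.surj, h.ker, h.large, ?_, ?_⟩
  · rintro _ ⟨T, rfl⟩
    exact ⟨act T, ⟨T, rfl⟩, h.eqv T⟩
  · rintro _ ⟨T, rfl⟩
    exact ⟨σ T, ⟨T, rfl⟩, h.eqv T⟩

omit [Module.Free ℤ_[2] MM] [Module.Finite ℤ_[2] MM] [Module.Finite (ZMod 2) V]
  [Module.Free ℤ_[2] M] [Module.Finite ℤ_[2] M] in
theorem Blk.comm (h : Blk ρ σ inc prj κ act β) (T : G) :
    (ρ T : End ℤ_[2] MM) * (inc ∘ₗ prj) = (inc ∘ₗ prj) * (ρ T : End ℤ_[2] MM) := by
  ext1 x
  rw [End.mul_apply, End.mul_apply, LinearMap.comp_apply, LinearMap.comp_apply, h.hinc, h.hprj]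

/-- The block of an endomorphism. -/
noncomputable def bk (inc : M →ₗ[ℤ_[2]] MM) (prj : MM →ₗ[ℤ_[2]] M) : End ℤ_[2] MM →ₗ[ℤ_[2]] End ℤ_[2] M where
  toFun A := prj ∘ₗ A ∘ₗ inc
  map_add' a b := by
    rw [LinearMap.add_comp, LinearMap.comp_add]
  map_smul' c a := by
    rw [LinearMap.smul_comp, LinearMap.comp_smul]
    rfl

/-- The endomorphism with one block. -/
noncomputable def ik (inc : M →ₗ[ℤ_[2]] MM) (prj : MM →ₗ[ℤ_[2]] M) : End ℤ_[2] M →ₗ[ℤ_[2]] End ℤ_[2] MM where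
  toFun A := inc ∘ₗ A ∘ₗ prj
  map_add' a b := by
    rw [LinearMap.add_comp, LinearMap.comp_add]
  map_smul' c a := by
    rw [LinearMap.smul_comp, LinearMap.comp_smul]
    rfl

omit [Module.Free ℤ_[2] MM] [Module.Finite ℤ_[2] MM] [Module.Free ℤ_[2] M]
  [Module.Finite ℤ_[2] M] in
theorem bk_apply (A : End ℤ_[2] MM) (m : M) : bk inc prj A m = prj (A (inc m)) := rfl

omit [Module.Free ℤ_[2] MM] [Module.Finite ℤ_[2] MM] [Module.Free ℤ_[2] M]
  [Module.Finite ℤ_[2] M] in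
theorem ik_apply (A : End ℤ_[2] M) (x : MM) : ik inc prj A x = inc (A (prj x)) := rfl

/-- **The Lie algebra contains all the skew endomorphisms of the block.** -/
theorem Blk.lie (hl : Lems) (h : Blk ρ σ inc prj κ act β) {a : End ℤ_[2] M} (ha : a ∈ soS β) :
    InLie ρ.range (ik inc prj a) := by
  obtain ⟨L, hL, hLsat, hLconj, -⟩ := lie1 MM ρ.range
  set e : End ℤ_[2] MM := inc ∘ₗ prj with he
  have heap : ∀ x, e x = inc (prj x) := fun x => rfl
  have hee : e * e = e := by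
    ext1 x
    rw [End.mul_apply, heap, heap, h.pi]
  have hrange : ∀ g ∈ ρ.range, (g : End ℤ_[2] MM) * e = e * (g : End ℤ_[2] MM) := by
    rintro _ ⟨T, rfl⟩
    exact h.comm T
  have hLc : ∀ A ∈ L, A * e = e * A := fun A hA => lie_comm hrange ((hL A).1 hA)
  have hLc' : ∀ A ∈ L, ∀ m, A (inc m) = inc (prj (A (inc m))) := by
    intro A hA m
    have h1 := LinearMap.congr_fun (hLc A hA) (inc m)
    rw [End.mul_apply, End.mul_apply, heap, heap, h.pi] at h1
    exact h1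
  have hinv : ∀ g ∈ σ.range, InO β (g : End ℤ_[2] M) := by
    rintro _ ⟨T, rfl⟩ x y
    exact h.inv T x y
  have hLs : ∀ A ∈ L, bk inc prj A ∈ soS β := by
    intro A hA
    have h2 := lie3 MM ρ.range (β.compl₁₂ prj prj) (by
      rintro _ ⟨T, rfl⟩ x y
      simp only [LinearMap.compl₁₂_apply, h.hprj]
      exact h.inv T _ _) A ((hL A).1 hA)
    intro x y
    have h3 := h2 (inc x) (inc y)
    simp only [LinearMap.compl₁₂_apply, h.pi] at h3
    exact h3
  -- conjugation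
  have hbconj : ∀ T A, bk inc prj ((ρ T : End ℤ_[2] MM) * A *
      (((ρ T)⁻¹ : (End ℤ_[2] MM)ˣ) : End ℤ_[2] MM)) = (σ T : End ℤ_[2] M) * bk inc prj A *
        (((σ T)⁻¹ : (End ℤ_[2] M)ˣ) : End ℤ_[2] M) := by
    intro T A
    ext1 m
    rw [← map_inv, ← map_inv, bk_apply, End.mul_apply, End.mul_apply, h.hprj, h.hinc, End.mul_apply,
      End.mul_apply, bk_apply]
  have hiconj : ∀ T a, ik inc prj ((σ T : End ℤ_[2] M) * a *
      (((σ T)⁻¹ : (End ℤ_[2] M)ˣ) : End ℤ_[2] M)) = (ρ T : End ℤ_[2] MM) * ik inc prj a *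
        (((ρ T)⁻¹ : (End ℤ_[2] MM)ˣ) : End ℤ_[2] MM) := by
    intro T a
    ext1 x
    rw [← map_inv, ← map_inv, ik_apply, End.mul_apply, End.mul_apply, End.mul_apply,
      End.mul_apply, ik_apply, h.hprj, h.hinc]
  have hbi : ∀ a : End ℤ_[2] M, bk inc prj (ik inc prj a) = a := by
    intro a
    ext1 m
    rw [bk_apply, ik_apply, h.pi, h.pi]
  -- the blocks of the elements of `L`
  let S : Submodule ℤ_[2] (End ℤ_[2] M) :=
    { carrier := {a | ∃ s : ℕ, ∃ A ∈ L, (2 : ℤ_[2]) ^ s • a = bk inc prj A}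
      add_mem' := by
        rintro a b ⟨s, A, hA, h⟩ ⟨s', A', hA', h'⟩
        refine ⟨s + s', (2 : ℤ_[2]) ^ s' • A + (2 : ℤ_[2]) ^ s • A',
          add_mem (L.smul_mem _ hA) (L.smul_mem _ hA'), ?_⟩
        rw [smul_add, map_add, map_smul, map_smul, ← h, ← h', smul_smul, smul_smul, pow_add,
          mul_comm ((2 : ℤ_[2]) ^ s')]
      zero_mem' := ⟨0, 0, zero_mem _, by rw [smul_zero, map_zero]⟩
      smul_mem' := by
        rintro c a ⟨s, A, hA, h⟩
        exact ⟨s, c • A, L.smul_mem c hA, by rw [map_smul, ← h, smul_comm]⟩ }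
  have hP : S = soS β := by
    refine stable_all hl.lo hl.lx hl.lr h.dat β h.ne h.symm hinv ?_ ?_ ?_ ?_
    · rintro a ⟨s, A, hA, h1⟩
      exact ⟨s + 1, A, hA, by rw [pow_succ, mul_smul, h1]⟩
    · rintro _ ⟨T, rfl⟩ a ⟨s, A, hA, h1⟩
      refine ⟨s, _, hLconj (ρ T) ⟨T, rfl⟩ A hA, ?_⟩
      rw [hbconj, ← h1, mul_smul_comm, smul_mul_assoc]
    · rintro a ⟨s, A, hA, h1⟩
      have h2 : (2 : ℤ_[2]) ^ s • a ∈ soS β := by rw [h1]; exact hLs A hA
      intro x y
      have h3 := h2 x y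
      simp only [LinearMap.smul_apply, map_smul, smul_eq_mul] at h3
      have h4 : (2 : ℤ_[2]) ^ s * (β (a x) y + β x (a y)) = 0 := by linear_combination h3
      exact (mul_eq_zero.1 h4).resolve_left (pow_ne_zero s two_ne)
    · obtain ⟨T, hT, hT1⟩ := h.inf
      obtain ⟨N, hN, hN1⟩ := exists_pow_four (ρ T)
      obtain ⟨A, hA⟩ := hN1
      obtain ⟨X, hX, hX1⟩ := lie_log (H := ρ.range)
        (pow_mem (⟨T, rfl⟩ : ρ T ∈ ρ.range) N) hA
      have hTN : σ T ^ N ≠ 1 := fun h1 => hT1 (torsion_free_four hT hN h1)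
      obtain ⟨m, hm⟩ : ∃ m, ((σ T ^ N : (End ℤ_[2] M)ˣ) : End ℤ_[2] M) m ≠ m := by
        by_contra h2
        push Not at h2
        exact hTN (Units.ext (LinearMap.ext h2))
      have hAm : A (inc m) ≠ 0 := by
        intro h2
        apply hm
        have h3 := LinearMap.congr_fun hA (inc m)
        rw [← map_pow, h.hinc, LinearMap.add_apply, LinearMap.smul_apply, h2, smul_zero, add_zero,
          End.one_apply, map_pow] at h3
        have h4 := congrArg prj h3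
        rw [h.pi, h.pi] at h4
        exact h4
      have hXL : X ∈ L := (hL X).2 hX
      have hXm := hX1 _ hAm
      have hbm : bk inc prj X m ≠ 0 := by
        intro h2
        apply hXm
        rw [hLc' X hXL, ← bk_apply, h2, map_zero]
      intro h2
      have h3 : bk inc prj X ∈ S := ⟨0, X, hXL, by rw [pow_zero, one_smul]⟩
      rw [h2, Submodule.mem_bot] at h3
      exact hbm (by rw [h3]; rfl)
  -- the elements of `L` with one block
  have hQ : L.comap (ik inc prj) = soS β := by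
    refine stable_all hl.lo hl.lx hl.lr h.dat β h.ne h.symm hinv ?_ ?_ ?_ ?_
    · intro a ha
      rw [Submodule.mem_comap, map_smul] at ha
      exact hLsat _ ha
    · rintro _ ⟨T, rfl⟩ a ha
      rw [Submodule.mem_comap] at ha ⊢
      rw [hiconj]
      exact hLconj (ρ T) ⟨T, rfl⟩ _ ha
    · intro a ha
      have h1 := hLs _ ha
      rwa [hbi] at h1
    · intro hbot
      obtain ⟨T, hT3, hT1, hTj⟩ := h.ind
      have hγ : ∃ v, act T v ≠ v := by
        by_contra h2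
        push Not at h2
        exact hT1 (LinearEquiv.ext h2)
      obtain ⟨a, ha, m, hm⟩ := h.dat.not_comm β h.ne h.symm hinv h.card hγ
      rw [← hP] at ha
      obtain ⟨s, A, hAL, hA⟩ := ha
      -- the map which forgets the block
      let f : End ℤ_[2] MM →ₗ[ℤ_[2]] End ℤ_[2] MM :=
        { toFun := fun x => x * (1 - e)
          map_add' := fun x y => add_mul _ _ _
          map_smul' := fun c x => smul_mul_assoc _ _ _ }
      have hf : ∀ x : End ℤ_[2] MM, f x = x * (1 - e) := fun x => rfl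
      have hfinj : ∀ x ∈ L, f x = 0 → x = 0 := by
        intro x hx h1
        have h2 : x = x * e := by
          have h3 : x * (1 - e) = 0 := h1
          rw [mul_sub, mul_one, sub_eq_zero] at h3
          exact h3
        have h3 : ik inc prj (bk inc prj x) = x := by
          ext1 y
          rw [ik_apply, bk_apply, ← hLc' x hx, ← heap, ← End.mul_apply, ← h2]
        have h4 : bk inc prj x ∈ L.comap (ik inc prj) := by
          rw [Submodule.mem_comap, h3]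
          exact hx
        rw [hbot, Submodule.mem_bot] at h4
        rw [h4, map_zero] at h3
        exact h3.symm
      obtain ⟨c, hc⟩ := rees_sub L f hfinj
      -- the action off the block
      have hgf : ∀ T, (ρ T : End ℤ_[2] MM) * (1 - e) = (1 - e) * (ρ T : End ℤ_[2] MM) := by
        intro T
        rw [mul_sub, sub_mul, mul_one, one_mul, hrange _ ⟨T, rfl⟩]
      have hff : (1 - e) * (1 - e) = 1 - e := by
        rw [mul_sub, mul_one, sub_mul, one_mul, hee, sub_self, sub_zero]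
      have hef : e * (1 - e) = 0 := by rw [mul_sub, mul_one, hee, sub_self]
      have hfe : (1 - e) * e = 0 := by rw [sub_mul, one_mul, hee, sub_self]
      have hmulU : ∀ T T', ((ρ T : End ℤ_[2] MM) * (1 - e) + e) * ((ρ T' : End ℤ_[2] MM) * (1 - e) + e) =
          (ρ (T * T') : End ℤ_[2] MM) * (1 - e) + e := by
        intro T T'
        rw [mul_add, add_mul, add_mul, hee, mul_assoc _ (1 - e) e, hfe, mul_zero, zero_add,
          ← mul_assoc e, ← hrange _ ⟨T', rfl⟩, mul_assoc _ e, hef, mul_zero, add_zero,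
          mul_assoc _ (1 - e), ← mul_assoc (1 - e), ← hgf, mul_assoc, hff, ← mul_assoc, map_mul,
          Units.val_mul]
      let υ : G →* (End ℤ_[2] MM)ˣ :=
        { toFun := fun T => ⟨(ρ T : End ℤ_[2] MM) * (1 - e) + e,
            (ρ T⁻¹ : End ℤ_[2] MM) * (1 - e) + e,
            by rw [hmulU, mul_inv_cancel, map_one, Units.val_one, one_mul, sub_add_cancel],
            by rw [hmulU, inv_mul_cancel, map_one, Units.val_one, one_mul, sub_add_cancel]⟩
          map_one' := Units.ext (by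
            show (ρ 1 : End ℤ_[2] MM) * (1 - e) + e = 1
            rw [map_one, Units.val_one, one_mul, sub_add_cancel])
          map_mul' := fun T T' => Units.ext (hmulU T T').symm }
      have hυ : ∀ T, (υ T : End ℤ_[2] MM) = (ρ T : End ℤ_[2] MM) * (1 - e) + e := fun T => rfl
      -- the conjugates of `A`
      set n := 2 * (s + 1 + c) with hn
      set T' := T ^ 2 ^ n with hT'
      have hυT : Cg (s + 1 + c) (υ T' : End ℤ_[2] MM) 1 := by
        rw [hT', map_pow]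
        refine Cg.mono (by omega) (pow_two_cg (n := n) ?_)
        rw [cg_iff]
        intro x
        obtain ⟨y, hy⟩ := hTj ((1 - e) x) (by
          rw [LinearMap.sub_apply, End.one_apply, heap, map_sub, h.pi, sub_self])
        refine ⟨y, ?_⟩
        rw [pow_one, ← hy, hυ, LinearMap.add_apply, End.mul_apply, End.one_apply,
          LinearMap.sub_apply, End.one_apply]
        abel
      have hT'i : act T' = act T := by
        rw [hT', map_pow]
        have h1 : 2 ^ n % 3 = 1 := by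
          rw [hn, pow_mul]
          norm_num [Nat.pow_mod]
        have h2 : 2 ^ n = 3 * (2 ^ n / 3) + 1 := by omega
        rw [h2, pow_add, pow_mul, hT3, one_pow, one_mul, pow_one]
      set A' := (ρ T' : End ℤ_[2] MM) * A *
          (((ρ T')⁻¹ : (End ℤ_[2] MM)ˣ) : End ℤ_[2] MM) - A with hA'
      have hA'L : A' ∈ L := sub_mem (hLconj (ρ T') ⟨T', rfl⟩ A hAL) hAL
      have hdiv : ∃ y, f A' = (2 : ℤ_[2]) ^ (s + 1 + c) • y := by
        obtain ⟨C, hC⟩ := hυT
        have hAf : A * (1 - e) = (1 - e) * A := by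
          rw [mul_sub, sub_mul, mul_one, one_mul, hLc A hAL]
        have hinvf : (((ρ T')⁻¹ : (End ℤ_[2] MM)ˣ) : End ℤ_[2] MM) * (1 - e) =
            (((υ T')⁻¹ : (End ℤ_[2] MM)ˣ) : End ℤ_[2] MM) * (1 - e) := by
          rw [← map_inv, ← map_inv, hυ, add_mul, hef, add_zero, mul_assoc, hff]
        have hfinv : (1 - e) * (((ρ T')⁻¹ : (End ℤ_[2] MM)ˣ) : End ℤ_[2] MM) =
            (((ρ T')⁻¹ : (End ℤ_[2] MM)ˣ) : End ℤ_[2] MM) * (1 - e) := by
          rw [← map_inv, hgf]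
        have h1 : (ρ T' : End ℤ_[2] MM) * A * (((ρ T')⁻¹ : (End ℤ_[2] MM)ˣ) : End ℤ_[2] MM) *
            (1 - e) = (υ T' : End ℤ_[2] MM) * A * (((υ T')⁻¹ : (End ℤ_[2] MM)ˣ) :
              End ℤ_[2] MM) * (1 - e) := by
          have h2 : (υ T' : End ℤ_[2] MM) * (1 - e) = (ρ T' : End ℤ_[2] MM) * (1 - e) := by
            rw [hυ, add_mul, hef, add_zero, mul_assoc, hff]
          have h4 : ∀ g gi : End ℤ_[2] MM, gi * (1 - e) = (1 - e) * gi →
              g * A * gi * (1 - e) = g * (1 - e) * A * (gi * (1 - e)) := by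
            intro g gi hgi
            calc g * A * gi * (1 - e) = g * (A * (gi * (1 - e))) := by simp only [mul_assoc]
              _ = g * (A * ((1 - e) * gi)) := by rw [hgi]
              _ = g * (A * ((1 - e) * (1 - e) * gi)) := by rw [hff]
              _ = g * ((A * (1 - e)) * ((1 - e) * gi)) := by simp only [mul_assoc]
              _ = g * (((1 - e) * A) * (gi * (1 - e))) := by rw [hAf, hgi]
              _ = _ := by simp only [mul_assoc]
          rw [h4 _ _ hfinv.symm, h4 (υ T' : End ℤ_[2] MM) (((υ T')⁻¹ : (End ℤ_[2] MM)ˣ) :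
            End ℤ_[2] MM) (by
              rw [← map_inv, hυ, add_mul, mul_add, hef, hfe, add_zero, add_zero, ← mul_assoc, ← hgf]),
            h2, hinvf]
        refine ⟨(C * A - A * C) * ((((υ T')⁻¹ : (End ℤ_[2] MM)ˣ) : End ℤ_[2] MM) * (1 - e)), ?_⟩
        have h3 : (υ T' : End ℤ_[2] MM) * A - A * (υ T' : End ℤ_[2] MM) =
            (2 : ℤ_[2]) ^ (s + 1 + c) • (C * A - A * C) := by
          rw [hC, add_mul, mul_add, one_mul, mul_one, smul_mul_assoc, mul_smul_comm, smul_sub]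
          abel
        rw [← smul_mul_assoc, ← h3, hf, hA', sub_mul, h1, sub_mul, ← mul_assoc, ← mul_assoc,
          mul_assoc A, Units.mul_inv, mul_one]
      obtain ⟨z, hz, hz2⟩ := hc (s + 1) A' hA'L hdiv
      have h1 : bk inc prj A' = (σ T' : End ℤ_[2] M) * bk inc prj A *
          (((σ T')⁻¹ : (End ℤ_[2] M)ˣ) : End ℤ_[2] M) - bk inc prj A := by
        rw [hA', map_sub, hbconj]
      rw [hz2, map_smul, ← hA, mul_smul_comm, smul_mul_assoc, ← smul_sub, pow_succ, mul_smul] at h1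
      have h2 := smul_cancel h1
      have h3 : (σ T' : End ℤ_[2] M) * a - a * (σ T' : End ℤ_[2] M) =
          (2 : ℤ_[2]) • (bk inc prj z * (σ T' : End ℤ_[2] M)) := by
        rw [← smul_mul_assoc, h2, sub_mul, mul_assoc, Units.inv_mul, mul_one]
      have h4 := LinearMap.congr_fun h3 m
      apply hm
      have h5 : κ ((σ T' : End ℤ_[2] M) (a m)) = κ (a ((σ T' : End ℤ_[2] M) m)) := by
        rw [← sub_eq_zero, ← map_sub, h.ker]
        exact ⟨_, h4⟩
      rw [h.eqv, hT'i] at h5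
      rw [h5, ← sub_eq_zero, ← map_sub, ← map_sub, h.ker]
      have h6 : κ ((σ T' : End ℤ_[2] M) m -
          Function.surjInv h.dat.surj (act T (κ m))) = 0 := by
        rw [map_sub, h.eqv, hT'i, Function.surjInv_eq h.dat.surj, sub_self]
      obtain ⟨b, hb⟩ := (h.ker _).1 h6
      exact ⟨a b, by rw [hb, map_smul]⟩
  rw [← hQ] at ha
  exact (hL _).1 ha

end block

end Pool.Agent.Q45.OI
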